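import Mathlib
import Pool.Agent.H40TG.All

/-!
# A factor of dimension two: definitions
-/

set_option autoImplicit false

namespace Pool.Agent.H40ES

open Matrix Pool.Agent.H40ZL Pool.Agent.H40TG

/-- `z` is an eigenvalue of `g` on the kernel of `e` -/
def EV {k : Type*} [Field k] {n : Type*} [Fintype n] (g e : Matrix n n k) (z : k) : Prop :=
  ∃ v : n → k, v ≠ 0 ∧ e *ᵥ v = 0 ∧ g *ᵥ v = z • v

/-- A group `A` acting semisimply on `k^n = r ⊕ V`, `r` the image and `V` the kernel of the projector `e`, a Lie algebra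
`L` in the span of `A`, a generic element `g` of `A`, and `r` of dimension two with the eigenvectors `a`, `b` of `g` with
the eigenvalues `α`, `β`. -/
structure Cfg {k : Type*} [Field k] {n : Type*} [Fintype n] [DecidableEq n] (A : Set (Matrix n n k))
    (L : Submodule k (Matrix n n k)) (g e : Matrix n n k) (α β : k) (a b : n → k) : Prop where
  set : Setup A L
  mem : g ∈ A
  sem : Module.End.IsSemisimple (Matrix.toLin' g)
  single : ∀ X ∈ L, Single g X
  root : ∀ (c : k) (d : ℕ) (M : Matrix n n k), 0 < d → c ^ d = 1 → M ≠ 0 → g * M = c • (M * g) → c = 1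
  idem : e * e = e
  comm : ∀ x ∈ A, x * e = e * x
  a0 : a ≠ 0
  b0 : b ≠ 0
  ea : e *ᵥ a = a
  eb : e *ᵥ b = b
  ga : g *ᵥ a = α • a
  gb : g *ᵥ b = β • b
  α0 : α ≠ 0
  β0 : β ≠ 0
  ne : ∀ d : ℕ, 0 < d → (α / β) ^ d ≠ 1
  span : ∀ w : n → k, e *ᵥ w = w → ∃ x y : k, w = x • a + y • b
  num1 : ∀ c : k, c ≠ 0 → EV g e (α * c) → EV g e (α * c⁻¹) → ∃ d : ℕ, 0 < d ∧ c ^ d = 1
  num2 : ∀ c : k, c ≠ 0 → EV g e (β * c) → EV g e (β * c⁻¹) → ∃ d : ℕ, 0 < d ∧ c ^ d = 1
  int1 : ¬ EV g e (α ^ 2 / β)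
  int2 : ¬ EV g e (β ^ 2 / α)

/-- the triple of the representation `r` -/
structure Trip {k : Type*} [Field k] {n : Type*} [Fintype n] [DecidableEq n] (L : Submodule k (Matrix n n k))
    (g : Matrix n n k) (α β : k) (a b : n → k) (E F H : Matrix n n k) : Prop where
  EL : E ∈ L
  FL : F ∈ L
  HL : H ∈ L
  gE : g * E = (α / β) • (E * g)
  gF : g * F = (β / α) • (F * g)
  gH : g * H = H * g
  EF : E * F - F * E = H
  Ea : E *ᵥ a = 0
  Fb : F *ᵥ b = 0
  Ha : H *ᵥ a = a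
  Hb : H *ᵥ b = -b

end Pool.Agent.H40ES
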