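import Mathlib
import Pool.Agent.H40ES.Defs

/-!
# E1: elements of the torus are scalar on the eigenspaces
-/

set_option autoImplicit false

namespace Pool.Agent.H40ES

open Matrix Pool.Agent.H40ZL Pool.Agent.H40TG

variable {k : Type*} [Field k] [IsAlgClosed k] [CharZero k] {n : Type*} [Fintype n] [DecidableEq n]
  {A : Set (Matrix n n k)} {L : Submodule k (Matrix n n k)} {g e : Matrix n n k} {α β : k} {a b : n → k}

theorem scal (h : Cfg A L g e α β a b) (T : Matrix n n k) (hT : T ∈ L) (hc : g * T = T * g) (μ t : k) (v w : n → k)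
    (hv : g *ᵥ v = μ • v) (hw : g *ᵥ w = μ • w) (hw0 : w ≠ 0) (ht : T *ᵥ w = t • w) : T *ᵥ v = t • v := by
  obtain ⟨s, hs⟩ := torus' A L h.set g h.mem h.sem h.single T hT hc μ v hv
  obtain ⟨r, hr⟩ := torus' A L h.set g h.mem h.sem h.single T hT hc μ (v + w)
    (by rw [mulVec_add, hv, hw, smul_add])
  rw [mulVec_add, hs, ht] at hr
  have h1 : (s - r) • v = (r - t) • w := by
    linear_combination (norm := module) hr
  by_cases hrt : r = t
  · rw [hrt, sub_self, zero_smul] at h1
    rw [hs]
    have h2 : (s - t) • v = 0 := h1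
    rw [sub_smul, sub_eq_zero] at h2
    exact h2
  · have hne : r - t ≠ 0 := sub_ne_zero.2 hrt
    have h2 : w = ((r - t)⁻¹ * (s - r)) • v := by
      rw [mul_smul, h1, smul_smul, inv_mul_cancel₀ hne, one_smul]
    have h3 : T *ᵥ w = s • w := by
      rw [h2, mulVec_smul, hs, smul_comm]
    rw [ht] at h3
    have h4 : (t - s) • w = 0 := by rw [sub_smul, h3, sub_self]
    have h5 : t - s = 0 := (smul_eq_zero.1 h4).resolve_right hw0
    rw [hs, sub_eq_zero.1 h5]

end Pool.Agent.H40ES
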