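import Mathlib
import Pool.Agent.H40ES.Defs

/-!
# Project ES, stub E2 (helper17): elements of `L` which kill `r` kill the eigenvectors of `g` for `α`, `β`
-/

set_option autoImplicit false

namespace Pool.Agent.H40ES

open Matrix Pool.Agent.H40ZL Pool.Agent.H40TG

variable {k : Type*} [Field k] [IsAlgClosed k] [CharZero k] {n : Type*} [Fintype n] [DecidableEq n]
  {A : Set (Matrix n n k)} {L : Submodule k (Matrix n n k)} {g e : Matrix n n k} {α β : k} {a b : n → k}

omit [IsAlgClosed k] [CharZero k] in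
/-- the projector commutes with the elements of `L` -/
theorem E2.comm_L (h : Cfg A L g e α β a b) (X : Matrix n n k) (hX : X ∈ L) : X * e = e * X := by
  have h1 : X ∈ Submodule.span k A := h.set.span hX
  clear hX
  induction h1 using Submodule.span_induction with
  | mem x hx => exact h.comm x hx
  | zero => simp
  | add x y _ _ hx hy => rw [add_mul, mul_add, hx, hy]
  | smul c x _ hx => rw [smul_mul_assoc, mul_smul_comm, hx]

omit [IsAlgClosed k] [CharZero k] [DecidableEq n] in
theorem E2.eig {M : Matrix n n k} {c μ : k} {v : n → k} (hM : g * M = c • (M * g)) (hv : g *ᵥ v = μ • v) :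
    g *ᵥ (M *ᵥ v) = (μ * c) • (M *ᵥ v) := by
  rw [Matrix.mulVec_mulVec, hM, Matrix.smul_mulVec, ← Matrix.mulVec_mulVec, hv, Matrix.mulVec_smul, smul_smul,
    mul_comm]

theorem E2.aux (h1 : ∀ T ∈ L, g * T = T * g → ∀ (μ t : k) (v w : n → k), g *ᵥ v = μ • v → g *ᵥ w = μ • w → w ≠ 0 →
      T *ᵥ w = t • w → T *ᵥ v = t • v)
    (h : Cfg A L g e α β a b) (X : Matrix n n k) (hX : X ∈ L) (hXe : X * e = 0) (v : n → k)
    (hev : e *ᵥ v = 0) (μ : k) (u : n → k) (hu0 : u ≠ 0) (heu : e *ᵥ u = u) (hgu : g *ᵥ u = μ • u)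
    (hgv : g *ᵥ v = μ • v)
    (hnum : ∀ c : k, c ≠ 0 → EV g e (μ * c) → EV g e (μ * c⁻¹) → ∃ d : ℕ, 0 < d ∧ c ^ d = 1) : X *ᵥ v = 0 := by
  obtain ⟨q, hqA, hgq⟩ := h.set.inv g h.mem
  have hqg : q * g = 1 := mul_eq_one_comm.1 hgq
  let L' : Submodule k (Matrix n n k) := L ⊓ LinearMap.ker (LinearMap.mulRight k e)
  have hL'm : ∀ M, M ∈ L' ↔ M ∈ L ∧ M * e = 0 := by
    intro M
    simp only [L', Submodule.mem_inf, LinearMap.mem_ker, LinearMap.mulRight_apply]
  let K : Submodule k (Matrix n n k) :=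
    { carrier := {M | M *ᵥ v = 0}
      add_mem' := by
        intro M N hM hN
        simp only [Set.mem_ofPred_eq] at hM hN ⊢
        rw [Matrix.add_mulVec, hM, hN, add_zero]
      zero_mem' := by simp
      smul_mem' := by
        intro c M hM
        simp only [Set.mem_ofPred_eq] at hM ⊢
        rw [Matrix.smul_mulVec, hM, smul_zero] }
  have hK : ∀ M, M ∈ K ↔ M *ᵥ v = 0 := fun M => Iff.rfl
  have main : L' ≤ K := by
    refine m1_decomp hgq h.sem L' ?_ K ?_
    · intro M hM
      rw [hL'm] at hM ⊢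
      refine ⟨h.set.conj g h.mem q hqA hgq M hM.1, ?_⟩
      rw [mul_assoc (g * M), h.comm q hqA, ← mul_assoc, mul_assoc g, hM.2, mul_zero, zero_mul]
    · intro c M hM hgM
      rw [hL'm] at hM
      obtain ⟨hML, hMe⟩ := hM
      rw [hK]
      by_contra hMv
      have hM0 : M ≠ 0 := by
        rintro rfl
        exact hMv (Matrix.zero_mulVec v)
      have hc0 : c ≠ 0 := by
        rintro rfl
        rw [zero_smul] at hgM
        apply hM0
        rw [← one_mul M, ← hqg, mul_assoc, hgM, mul_zero]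
      have kill_u : ∀ N : Matrix n n k, N * e = 0 → N *ᵥ u = 0 := by
        intro N hN
        rw [← heu, Matrix.mulVec_mulVec, hN, Matrix.zero_mulVec]
      by_cases hr : ∃ d : ℕ, 0 < d ∧ c ^ d = 1
      · obtain ⟨d, hd, hcd⟩ := hr
        have hc1 : c = 1 := h.root c d M hd hcd hM0 hgM
        rw [hc1, one_smul] at hgM
        apply hMv
        have := h1 M hML hgM μ 0 v u hgv hgu hu0 (by rw [kill_u M hMe, zero_smul])
        rwa [zero_smul] at this
      · have hroot : ∀ d : ℕ, 0 < d → c ^ d ≠ 1 := fun d hd hcd => hr ⟨d, hd, hcd⟩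
        have hn : IsNilpotent M := m1_nilp hgq hgM hroot hc0
        obtain ⟨H, hHL, Y, hYL, hgH, hgY, hXY, hHX, hHY⟩ :=
          triple A L h.set g h.mem h.sem M hML hn c hc0 hgM
        have hHe : H * e = 0 := by
          rw [← hXY, sub_mul, mul_assoc M, E2.comm_L h Y hYL, ← mul_assoc, hMe, zero_mul, mul_assoc Y, hMe,
            mul_zero, sub_zero]
        have hHv : H *ᵥ v = 0 := by
          have := h1 H hHL hgH μ 0 v u hgv hgu hu0 (by rw [kill_u H hHe, zero_smul])
          rwa [zero_smul] at this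
        by_cases hYv : Y *ᵥ v = 0
        · apply hMv
          refine (sl2 Y M (-H) ?_ ?_ ?_ v).1 hYv ?_
          · rw [← hXY]
            abel
          · have e1 : -H * Y - Y * -H = -(H * Y - Y * H) := by noncomm_ring
            rw [e1, hHY, neg_smul, neg_neg]
          · have e1 : -H * M - M * -H = -(H * M - M * H) := by noncomm_ring
            rw [e1, hHX, neg_smul]
          · rw [Matrix.neg_mulVec, hHv, neg_zero]
        · obtain ⟨d, hd, hcd⟩ := hnum c hc0
            ⟨M *ᵥ v, hMv, by rw [Matrix.mulVec_mulVec, ← E2.comm_L h M hML, hMe, Matrix.zero_mulVec],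
              E2.eig hgM hgv⟩
            ⟨Y *ᵥ v, hYv, by rw [Matrix.mulVec_mulVec, ← E2.comm_L h Y hYL, ← Matrix.mulVec_mulVec, hev,
              Matrix.mulVec_zero], E2.eig hgY hgv⟩
          exact hroot d hd hcd
  exact main ((hL'm X).2 ⟨hX, hXe⟩)

/-- **E2.** The elements of `L` which kill `r` kill the eigenvectors of `g` in `V` for `α` and `β`. -/
theorem kill (h1 : ∀ T ∈ L, g * T = T * g → ∀ (μ t : k) (v w : n → k), g *ᵥ v = μ • v → g *ᵥ w = μ • w → w ≠ 0 →
      T *ᵥ w = t • w → T *ᵥ v = t • v)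
    (h : Cfg A L g e α β a b) (X : Matrix n n k) (hX : X ∈ L) (hXe : X * e = 0) (v : n → k)
    (hev : e *ᵥ v = 0) (hv : g *ᵥ v = α • v ∨ g *ᵥ v = β • v) : X *ᵥ v = 0 := by
  rcases hv with hv | hv
  · exact E2.aux h1 h X hX hXe v hev α a h.a0 h.ea h.ga hv h.num1
  · exact E2.aux h1 h X hX hXe v hev β b h.b0 h.eb h.gb hv h.num2

end Pool.Agent.H40ES
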