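import Mathlib
import Pool.Agent.H40ES.Defs

/-!
# Stub E3: the triple of the representation of dimension two
-/

set_option autoImplicit false

namespace Pool.Agent.H40ES

open Matrix Pool.Agent.H40ZL Pool.Agent.H40TG

variable {k : Type*} [Field k] [IsAlgClosed k] [CharZero k] {n : Type*} [Fintype n] [DecidableEq n]
  {A : Set (Matrix n n k)} {L : Submodule k (Matrix n n k)} {g e : Matrix n n k} {α β : k} {a b : n → k}

omit [IsAlgClosed k] [CharZero k] in
theorem e3_ne (h : Cfg A L g e α β a b) : α ≠ β := by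
  intro hab
  apply h.ne 1 one_pos
  rw [hab, pow_one, div_self h.β0]

omit [IsAlgClosed k] [CharZero k] in
/-- elements of `L` commute with `e` -/
theorem e3_comm (h : Cfg A L g e α β a b) (X : Matrix n n k) (hX : X ∈ L) : X * e = e * X := by
  have h1 : X ∈ Submodule.span k A := h.set.span hX
  clear hX
  induction h1 using Submodule.span_induction with
  | mem x hx => exact h.comm x hx
  | zero => rw [Matrix.zero_mul, Matrix.mul_zero]
  | add x y _ _ hx hy => rw [Matrix.add_mul, Matrix.mul_add, hx, hy]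
  | smul c x _ hx => rw [Matrix.smul_mul, Matrix.mul_smul, hx]

omit [IsAlgClosed k] [CharZero k] in
/-- an eigenvector of `g` in the image of `e` -/
theorem e3_eig (h : Cfg A L g e α β a b) (l : k) (w : n → k) (hew : e *ᵥ w = w) (hgw : g *ᵥ w = l • w) :
    ∃ x y : k, w = x • a + y • b ∧ x * (α - l) = 0 ∧ y * (β - l) = 0 := by
  obtain ⟨x, y, hxy⟩ := h.span w hew
  have hαβ := e3_ne h
  have h0 : ∀ i, x * (α - l) * a i + y * (β - l) * b i = 0 := by
    intro i
    have h1 : g *ᵥ w = (x * α) • a + (y * β) • b := by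
      rw [hxy, Matrix.mulVec_add, Matrix.mulVec_smul, Matrix.mulVec_smul, h.ga, h.gb, smul_smul, smul_smul]
    have h2 := congrFun (h1.symm.trans hgw) i
    have h3 := congrFun hxy i
    simp only [Pi.add_apply, Pi.smul_apply, smul_eq_mul] at h2 h3
    rw [h3] at h2
    linear_combination h2
  have h1 : ∀ i, x * (α - l) * α * a i + y * (β - l) * β * b i = 0 := by
    intro i
    have h2 : (x * (α - l)) • a + (y * (β - l)) • b = 0 := by
      funext j
      simpa only [Pi.add_apply, Pi.smul_apply, smul_eq_mul, Pi.zero_apply] using h0 j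
    have h3 : g *ᵥ ((x * (α - l)) • a + (y * (β - l)) • b) = 0 := by
      rw [h2, Matrix.mulVec_zero]
    rw [Matrix.mulVec_add, Matrix.mulVec_smul, Matrix.mulVec_smul, h.ga, h.gb, smul_smul, smul_smul] at h3
    simpa only [Pi.add_apply, Pi.smul_apply, smul_eq_mul, Pi.zero_apply] using congrFun h3 i
  refine ⟨x, y, hxy, ?_, ?_⟩
  · obtain ⟨i, hi⟩ := Function.ne_iff.mp h.a0
    have h2 : x * (α - l) * ((α - β) * a i) = 0 := by
      linear_combination h1 i - β * h0 i
    rcases mul_eq_zero.mp h2 with h3 | h3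
    · exact h3
    · exact absurd h3 (mul_ne_zero (sub_ne_zero.mpr hαβ) hi)
  · obtain ⟨i, hi⟩ := Function.ne_iff.mp h.b0
    have h2 : y * (β - l) * ((β - α) * b i) = 0 := by
      linear_combination h1 i - α * h0 i
    rcases mul_eq_zero.mp h2 with h3 | h3
    · exact h3
    · exact absurd h3 (mul_ne_zero (sub_ne_zero.mpr hαβ.symm) hi)

omit [IsAlgClosed k] [CharZero k] in
/-- the action of an eigenvector of the conjugation on an eigenvector in the image of `e` -/
theorem e3_act (h : Cfg A L g e α β a b) (X : Matrix n n k) (hX : X ∈ L) (c : k) (hgX : g * X = c • (X * g))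
    (m : k) (w : n → k) (hew : e *ᵥ w = w) (hgw : g *ᵥ w = m • w) :
    ∃ x y : k, X *ᵥ w = x • a + y • b ∧ x * (α - c * m) = 0 ∧ y * (β - c * m) = 0 := by
  apply e3_eig h
  · rw [Matrix.mulVec_mulVec, ← e3_comm h X hX, ← Matrix.mulVec_mulVec, hew]
  · rw [Matrix.mulVec_mulVec, hgX, Matrix.smul_mulVec, ← Matrix.mulVec_mulVec, hgw, Matrix.mulVec_smul, smul_smul]

/-- the case `c = α / β` -/
theorem e3_case (h : Cfg A L g e α β a b) (X : Matrix n n k) (hX : X ∈ L) (hn : IsNilpotent X)
    (hgX : g * X = (α / β) • (X * g)) (z : k) (hz : z ≠ 0) (hXb : X *ᵥ b = z • a) (hXa : X *ᵥ a = 0) :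
    ∃ E F H : Matrix n n k, Trip L g α β a b E F H := by
  have hαβ := e3_ne h
  have hα := h.α0
  have hβ := h.β0
  have hsq : α ^ 2 - β ^ 2 ≠ 0 := by
    intro h1
    apply h.ne 2 two_pos
    rw [div_pow, div_eq_one_iff_eq (pow_ne_zero 2 hβ)]
    linear_combination h1
  obtain ⟨H, hH, Y, hY, hgH, hgY, h1, h2, h3⟩ := triple A L h.set g h.mem h.sem X hX hn (α / β)
    (div_ne_zero hα hβ) hgX
  rw [inv_div] at hgY
  have hYb : Y *ᵥ b = 0 := by
    obtain ⟨x, y, hxy, hx, hy⟩ := e3_act h Y hY (β / α) hgY β b h.eb h.gb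
    have hx0 : x = 0 := by
      rcases mul_eq_zero.mp hx with h4 | h4
      · exact h4
      · exfalso
        apply hsq
        field_simp at h4
        linear_combination h4
    have hy0 : y = 0 := by
      rcases mul_eq_zero.mp hy with h4 | h4
      · exact h4
      · exfalso
        apply hαβ
        have h5 : β * (α - β) = 0 := by
          field_simp at h4
          linear_combination h4
        rcases mul_eq_zero.mp h5 with h6 | h6
        · exact absurd h6 hβ
        · exact sub_eq_zero.mp h6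
    rw [hxy, hx0, hy0, zero_smul, zero_smul, add_zero]
  obtain ⟨y, hYa⟩ : ∃ y : k, Y *ᵥ a = y • b := by
    obtain ⟨x, y, hxy, hx, hy⟩ := e3_act h Y hY (β / α) hgY α a h.ea h.ga
    refine ⟨y, ?_⟩
    have hx0 : x = 0 := by
      rcases mul_eq_zero.mp hx with h4 | h4
      · exact h4
      · exfalso
        apply hαβ
        rw [div_mul_cancel₀ _ hα] at h4
        exact sub_eq_zero.mp h4
    rw [hxy, hx0, zero_smul, zero_add]
  have hHa : H *ᵥ a = (y * z) • a := by
    rw [← h1, Matrix.sub_mulVec, ← Matrix.mulVec_mulVec, ← Matrix.mulVec_mulVec, hYa, hXa, Matrix.mulVec_zero,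
      sub_zero, Matrix.mulVec_smul, hXb, smul_smul]
  have hHb : H *ᵥ b = -((y * z) • b) := by
    rw [← h1, Matrix.sub_mulVec, ← Matrix.mulVec_mulVec, ← Matrix.mulVec_mulVec, hYb, hXb, Matrix.mulVec_zero,
      zero_sub, Matrix.mulVec_smul, hYa, smul_smul, mul_comm z y]
  have hyz : y * z = 1 := by
    have h4 := congrArg (fun M => M *ᵥ b) h2
    rw [Matrix.sub_mulVec, ← Matrix.mulVec_mulVec, ← Matrix.mulVec_mulVec, hXb, hHb, Matrix.mulVec_smul,
      Matrix.mulVec_neg, Matrix.mulVec_smul, Matrix.smul_mulVec, hXb, hHa] at h4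
    obtain ⟨i, hi⟩ := Function.ne_iff.mp h.a0
    have h5 := congrFun h4 i
    simp only [Pi.sub_apply, Pi.neg_apply, Pi.smul_apply, smul_eq_mul] at h5
    have h6 : (y * z - 1) * (2 * z * a i) = 0 := by linear_combination h5
    rcases mul_eq_zero.mp h6 with h7 | h7
    · exact sub_eq_zero.mp h7
    · exact absurd h7 (mul_ne_zero (mul_ne_zero two_ne_zero hz) hi)
  rw [hyz, one_smul] at hHa hHb
  exact ⟨X, Y, H, hX, hY, hH, hgX, hgY, hgH, h1, hXa, hYb, hHa, hHb⟩

omit [IsAlgClosed k] [CharZero k] in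
theorem e3_swap (h : Cfg A L g e α β a b) : Cfg A L g e β α b a where
  set := h.set
  mem := h.mem
  sem := h.sem
  single := h.single
  root := h.root
  idem := h.idem
  comm := h.comm
  a0 := h.b0
  b0 := h.a0
  ea := h.eb
  eb := h.ea
  ga := h.gb
  gb := h.ga
  α0 := h.β0
  β0 := h.α0
  ne := by
    intro d hd h1
    apply h.ne d hd
    rw [← inv_div, inv_pow, h1, inv_one]
  span := by
    intro w hw
    obtain ⟨x, y, hxy⟩ := h.span w hw
    exact ⟨y, x, by rw [hxy, add_comm]⟩
  num1 := h.num2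
  num2 := h.num1
  int1 := h.int2
  int2 := h.int1

omit [IsAlgClosed k] [CharZero k] [DecidableEq n] in
theorem e3_swap_trip {E F H : Matrix n n k} [DecidableEq n] (h : Trip L g β α b a E F H) :
    Trip L g α β a b F E (-H) where
  EL := h.FL
  FL := h.EL
  HL := L.neg_mem h.HL
  gE := h.gF
  gF := h.gE
  gH := by rw [Matrix.mul_neg, Matrix.neg_mul, h.gH]
  EF := by rw [← h.EF, neg_sub]
  Ea := h.Fb
  Fb := h.Ea
  Ha := by rw [Matrix.neg_mulVec, h.Hb, neg_neg]
  Hb := by rw [Matrix.neg_mulVec, h.Ha]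

/-- **E3.** The representation `r` is a representation of `sl₂`, if `L` does not commute with `g` on `r`. -/
theorem exists_trip (h : Cfg A L g e α β a b) (X₀ : Matrix n n k) (hX₀ : X₀ ∈ L) (hne : (g * X₀ - X₀ * g) * e ≠ 0) :
    ∃ E F H : Matrix n n k, Trip L g α β a b E F H := by
  obtain ⟨q, hq, hgq⟩ := h.set.inv g h.mem
  have hqg : q * g = 1 := mul_eq_one_comm.1 hgq
  obtain ⟨c, X, hX, hgX, hXne⟩ : ∃ (c : k) (X : Matrix n n k), X ∈ L ∧ g * X = c • (X * g) ∧
      (g * X - X * g) * e ≠ 0 := by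
    by_contra hcon
    push Not at hcon
    obtain ⟨K, hK⟩ : ∃ K : Submodule k (Matrix n n k), ∀ M, M ∈ K ↔ (g * M - M * g) * e = 0 := by
      refine ⟨LinearMap.ker ((LinearMap.mulRight k e) ∘ₗ (LinearMap.mulLeft k g - LinearMap.mulRight k g)), ?_⟩
      intro M
      rw [LinearMap.mem_ker, LinearMap.comp_apply, LinearMap.sub_apply, LinearMap.mulRight_apply,
        LinearMap.mulLeft_apply, LinearMap.mulRight_apply]
    have h1 := m1_decomp hgq h.sem L (fun X hX => h.set.conj g h.mem q hq hgq X hX) K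
      (fun c M hM hgM => (hK M).2 (hcon c M hM hgM))
    exact hne ((hK X₀).1 (h1 hX₀))
  have hX0 : X ≠ 0 := by
    rintro rfl
    apply hXne
    rw [Matrix.mul_zero, Matrix.zero_mul, sub_zero, Matrix.zero_mul]
  have hc1 : c ≠ 1 := by
    rintro rfl
    apply hXne
    rw [hgX, one_smul, sub_self, Matrix.zero_mul]
  have hc0 : c ≠ 0 := by
    rintro rfl
    apply hX0
    rw [zero_smul] at hgX
    rw [← Matrix.one_mul X, ← hqg, Matrix.mul_assoc, hgX, Matrix.mul_zero]
  have hroot : ∀ d : ℕ, 0 < d → c ^ d ≠ 1 := fun d hd hcd => hc1 (h.root c d X hd hcd hX0 hgX)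
  have hnil : IsNilpotent X := m1_nilp hgq hgX hroot hc0
  have hαβ := e3_ne h
  have hα := h.α0
  have hβ := h.β0
  obtain ⟨x, y, hXa, hx, hy⟩ := e3_act h X hX c hgX α a h.ea h.ga
  obtain ⟨z, w, hXb, hz, hw⟩ := e3_act h X hX c hgX β b h.eb h.gb
  have hx0 : x = 0 := by
    rcases mul_eq_zero.mp hx with h4 | h4
    · exact h4
    · exfalso
      have h5 : (1 - c) * α = 0 := by linear_combination h4
      rcases mul_eq_zero.mp h5 with h6 | h6
      · exact hc1 (sub_eq_zero.mp h6).symm
      · exact hα h6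
  have hw0 : w = 0 := by
    rcases mul_eq_zero.mp hw with h4 | h4
    · exact h4
    · exfalso
      have h5 : (1 - c) * β = 0 := by linear_combination h4
      rcases mul_eq_zero.mp h5 with h6 | h6
      · exact hc1 (sub_eq_zero.mp h6).symm
      · exact hβ h6
  rw [hx0, zero_smul, zero_add] at hXa
  rw [hw0, zero_smul, add_zero] at hXb
  by_cases hz0 : z = 0
  · -- `X b = 0`
    rw [hz0, zero_smul] at hXb
    have hy0 : y ≠ 0 := by
      rintro rfl
      rw [zero_smul] at hXa
      apply hXne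
      have hXe : X * e = 0 := by
        apply Matrix.toLin'.injective
        apply LinearMap.ext
        intro v
        rw [Matrix.toLin'_apply, ← Matrix.mulVec_mulVec, map_zero, LinearMap.zero_apply]
        obtain ⟨s, t, hst⟩ := h.span (e *ᵥ v) (by rw [Matrix.mulVec_mulVec, h.idem])
        rw [hst, Matrix.mulVec_add, Matrix.mulVec_smul, Matrix.mulVec_smul, hXa, hXb, smul_zero, smul_zero, add_zero]
      have hge : g * e = e * g := h.comm g h.mem
      rw [Matrix.sub_mul, Matrix.mul_assoc, hXe, Matrix.mul_zero, Matrix.mul_assoc, hge, ← Matrix.mul_assoc, hXe,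
        Matrix.zero_mul, sub_zero]
    have hc : c = β / α := by
      rcases mul_eq_zero.mp hy with h4 | h4
      · exact absurd h4 hy0
      · rw [eq_div_iff hα]
        exact (sub_eq_zero.mp h4).symm
    subst hc
    obtain ⟨E, F, H, hT⟩ := e3_case (e3_swap h) X hX hnil hgX y hy0 hXa hXb
    exact ⟨F, E, -H, e3_swap_trip hT⟩
  · have hc : c = α / β := by
      rcases mul_eq_zero.mp hz with h4 | h4
      · exact absurd h4 hz0
      · rw [eq_div_iff hβ]
        exact (sub_eq_zero.mp h4).symm
    have hy0 : y = 0 := by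
      rcases mul_eq_zero.mp hy with h4 | h4
      · exact h4
      · exfalso
        apply h.ne 2 two_pos
        rw [hc] at h4
        rw [div_pow, div_eq_one_iff_eq (pow_ne_zero 2 hβ)]
        field_simp at h4
        linear_combination -h4
    rw [hy0, zero_smul] at hXa
    subst hc
    exact e3_case h X hX hnil hgX z hz0 hXb hXa

end Pool.Agent.H40ES
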