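import Mathlib
import Pool.Agent.H40ES.Defs

/-!
# E4: the graph
-/

set_option autoImplicit false

namespace Pool.Agent.H40ES

open Matrix Pool.Agent.H40ZL Pool.Agent.H40TG

section E4

variable {k : Type*} [Field k] {n : Type*} [Fintype n] [DecidableEq n]
  {A : Set (Matrix n n k)} {L : Submodule k (Matrix n n k)} {g e : Matrix n n k} {α β : k} {a b : n → k}

private lemma e4_ext {M N : Matrix n n k} (h : ∀ w : n → k, M *ᵥ w = N *ᵥ w) : M = N := by
  apply Matrix.toLin'.injective
  exact LinearMap.ext h

private lemma e4_comm (h : Cfg A L g e α β a b) (X : Matrix n n k) (hX : X ∈ L) : X * e = e * X := by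
  have key : ∀ Y ∈ Submodule.span k A, Y * e = e * Y := by
    intro Y hY
    induction hY using Submodule.span_induction with
    | mem x hx => exact h.comm x hx
    | zero => simp
    | add x y _ _ hx hy => rw [add_mul, mul_add, hx, hy]
    | smul c x _ hx => rw [smul_mul_assoc, mul_smul_comm, hx]
  exact key X (h.set.span hX)

private lemma e4_ne (h : Cfg A L g e α β a b) : α ≠ β := by
  intro hab
  apply h.ne 1 one_pos
  rw [hab, pow_one, div_self h.β0]

private lemma e4_indep (h : Cfg A L g e α β a b) (x y : k) (hxy : x • a + y • b = 0) : x = 0 ∧ y = 0 := by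
  have h1 : (x * α) • a + (y * β) • b = 0 := by
    have := congrArg (g *ᵥ ·) hxy
    simpa [mulVec_add, mulVec_smul, h.ga, h.gb, smul_smul] using this
  have h2 : (y * (β - α)) • b = 0 := by
    linear_combination (norm := module) h1 - α • hxy
  have h3 : (x * (α - β)) • a = 0 := by
    linear_combination (norm := module) h1 - β • hxy
  have hne : α - β ≠ 0 := sub_ne_zero.2 (e4_ne h)
  have hne' : β - α ≠ 0 := sub_ne_zero.2 (e4_ne h).symm
  rw [smul_eq_zero] at h2 h3
  constructor
  · rcases h3 with h3 | h3
    · rcases mul_eq_zero.1 h3 with h3 | h3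
      · exact h3
      · exact absurd h3 hne
    · exact absurd h3 h.a0
  · rcases h2 with h2 | h2
    · rcases mul_eq_zero.1 h2 with h2 | h2
      · exact h2
      · exact absurd h2 hne'
    · exact absurd h2 h.b0

private lemma e4_img (h : Cfg A L g e α β a b) (u : n → k) (z : k) (hu : e *ᵥ u = u) (hg : g *ᵥ u = z • u) :
    ∃ x y : k, u = x • a + y • b ∧ x * (α - z) = 0 ∧ y * (β - z) = 0 := by
  obtain ⟨x, y, hxy⟩ := h.span u hu
  refine ⟨x, y, hxy, ?_⟩
  apply e4_indep h
  rw [hxy, mulVec_add, mulVec_smul, mulVec_smul, h.ga, h.gb] at hg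
  linear_combination (norm := module) hg

omit [DecidableEq n] in
private lemma e4_gX {X : Matrix n n k} {c μ : k} {u : n → k} (hX : g * X = c • (X * g)) (hu : g *ᵥ u = μ • u) :
    g *ᵥ (X *ᵥ u) = (c * μ) • (X *ᵥ u) := by
  rw [mulVec_mulVec, hX, smul_mulVec, ← mulVec_mulVec, hu, mulVec_smul, smul_smul]

end E4

variable {k : Type*} [Field k] [IsAlgClosed k] [CharZero k] {n : Type*} [Fintype n] [DecidableEq n]
  {A : Set (Matrix n n k)} {L : Submodule k (Matrix n n k)} {g e : Matrix n n k} {α β : k} {a b : n → k}

theorem graph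
    (h1 : ∀ T ∈ L, g * T = T * g → ∀ (μ t : k) (v w : n → k), g *ᵥ v = μ • v → g *ᵥ w = μ • w → w ≠ 0 →
      T *ᵥ w = t • w → T *ᵥ v = t • v)
    (h2 : ∀ X ∈ L, X * e = 0 → ∀ v : n → k, e *ᵥ v = 0 → (g *ᵥ v = α • v ∨ g *ᵥ v = β • v) → X *ᵥ v = 0)
    (h : Cfg A L g e α β a b) (E F H : Matrix n n k) (ht : Trip L g α β a b E F H) (v : n → k) (hv0 : v ≠ 0)
    (hev : e *ᵥ v = 0) (hv : g *ᵥ v = α • v) :
    ∃ B : Matrix n n k, B ≠ 0 ∧ B * e = B ∧ e * B = 0 ∧ ∀ X ∈ L, X * B = B * X := by
  have hα := h.α0
  have hβ := h.β0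
  have hne : α ≠ β := e4_ne h
  have he2 : ∀ X ∈ L, ∀ u : n → k, e *ᵥ (X *ᵥ u) = X *ᵥ (e *ᵥ u) := by
    intro X hX u
    rw [mulVec_mulVec, ← e4_comm h X hX, ← mulVec_mulVec]
  have hge : ∀ u : n → k, e *ᵥ (g *ᵥ u) = g *ᵥ (e *ᵥ u) := by
    intro u
    rw [mulVec_mulVec, ← h.comm g h.mem, ← mulVec_mulVec]
  -- the two vectors `a`, `F a`
  set a' := F *ᵥ a with ha'
  set v' := F *ᵥ v with hv'
  have hEF : ∀ u : n → k, E *ᵥ (F *ᵥ u) = H *ᵥ u + F *ᵥ (E *ᵥ u) := by
    intro u
    have := congrArg (· *ᵥ u) ht.EF
    simp only [sub_mulVec] at this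
    rw [mulVec_mulVec, mulVec_mulVec, ← this]
    abel
  have hg1 : β / α * α = β := by field_simp
  have hg2 : α / β * β = α := by field_simp
  have hga' : g *ᵥ a' = β • a' := by
    rw [ha', e4_gX ht.gF h.ga, hg1]
  have hea' : e *ᵥ a' = a' := by
    rw [ha', he2 F ht.FL, h.ea]
  have hEa' : E *ᵥ a' = a := by
    rw [ha', hEF, ht.Ea, mulVec_zero, add_zero, ht.Ha]
  have ha'0 : a' ≠ 0 := by
    intro h0
    rw [h0, mulVec_zero] at hEa'
    exact h.a0 hEa'.symm
  -- eigenvectors in the image
  have hspan : ∀ u : n → k, e *ᵥ u = u → ∃ x y : k, u = x • a + y • a' := by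
    obtain ⟨x, y, hxy, hx, hy⟩ := e4_img h a' β hea' hga'
    have hx0 : x = 0 := by
      rcases mul_eq_zero.1 hx with hx | hx
      · exact hx
      · exact absurd hx (sub_ne_zero.2 hne)
    rw [hx0, zero_smul, zero_add] at hxy
    have hy0 : y ≠ 0 := by
      rintro rfl
      exact ha'0 (by rw [hxy, zero_smul])
    intro u hu
    obtain ⟨s, t, hst⟩ := h.span u hu
    refine ⟨s, t / y, ?_⟩
    rw [hst, hxy, smul_smul, div_mul_cancel₀ _ hy0]
  have hind : ∀ x y : k, x • a + y • a' = 0 → x = 0 ∧ y = 0 := by
    intro x y hxy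
    have h1 : (x * α) • a + (y * β) • a' = 0 := by
      have := congrArg (g *ᵥ ·) hxy
      simpa [mulVec_add, mulVec_smul, h.ga, hga', smul_smul] using this
    have h2 : (y * (β - α)) • a' = 0 := by
      linear_combination (norm := module) h1 - α • hxy
    have h3 : (x * (α - β)) • a = 0 := by
      linear_combination (norm := module) h1 - β • hxy
    have hne1 : α - β ≠ 0 := sub_ne_zero.2 hne
    have hne2 : β - α ≠ 0 := sub_ne_zero.2 hne.symm
    rw [smul_eq_zero] at h2 h3
    exact ⟨(mul_eq_zero.1 (h3.resolve_right h.a0)).resolve_right hne1,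
      (mul_eq_zero.1 (h2.resolve_right ha'0)).resolve_right hne2⟩
  have himg : ∀ (u : n → k) (z : k), e *ᵥ u = u → g *ᵥ u = z • u →
      ∃ x y : k, u = x • a + y • a' ∧ x * (α - z) = 0 ∧ y * (β - z) = 0 := by
    intro u z hu hg
    obtain ⟨x, y, hxy⟩ := hspan u hu
    refine ⟨x, y, hxy, ?_⟩
    apply hind
    rw [hxy, mulVec_add, mulVec_smul, mulVec_smul, h.ga, hga'] at hg
    linear_combination (norm := module) hg
  -- the vectors `v`, `F v`
  have hHv : H *ᵥ v = v := by
    have := h1 H ht.HL ht.gH α 1 v a hv h.ga h.a0 (by rw [ht.Ha, one_smul])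
    rwa [one_smul] at this
  have hEv : E *ᵥ v = 0 := by
    by_contra h0
    refine h.int1 ⟨E *ᵥ v, h0, ?_, ?_⟩
    · rw [he2 E ht.EL, hev, mulVec_zero]
    · rw [e4_gX ht.gE hv]
      congr 1
      field_simp
  have hgv' : g *ᵥ v' = β • v' := by
    rw [hv', e4_gX ht.gF hv, hg1]
  have hev' : e *ᵥ v' = 0 := by
    rw [hv', he2 F ht.FL, hev, mulVec_zero]
  have hEv' : E *ᵥ v' = v := by
    rw [hv', hEF, hEv, mulVec_zero, add_zero, hHv]
  have hv'0 : v' ≠ 0 := by
    intro h0
    rw [h0, mulVec_zero] at hEv'
    exact hv0 hEv'.symm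
  -- functionals
  obtain ⟨i, hi⟩ : ∃ i, a i ≠ 0 := by
    by_contra h0
    push Not at h0
    exact h.a0 (funext h0)
  obtain ⟨j, hj⟩ : ∃ j, a' j ≠ 0 := by
    by_contra h0
    push Not at h0
    exact ha'0 (funext h0)
  let φ : (n → k) →ₗ[k] k := ((α - β) * a i)⁻¹ • (LinearMap.proj i ∘ₗ (Matrix.toLin' g - β • LinearMap.id))
  let ψ : (n → k) →ₗ[k] k := ((β - α) * a' j)⁻¹ • (LinearMap.proj j ∘ₗ (Matrix.toLin' g - α • LinearMap.id))
  have hφ : ∀ u, φ u = ((α - β) * a i)⁻¹ * ((g *ᵥ u) i - β * u i) := by
    intro u
    simp [φ]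
  have hψ : ∀ u, ψ u = ((β - α) * a' j)⁻¹ * ((g *ᵥ u) j - α * u j) := by
    intro u
    simp [ψ]
  have hne1 : α - β ≠ 0 := sub_ne_zero.2 hne
  have hne2 : β - α ≠ 0 := sub_ne_zero.2 hne.symm
  have hφa : φ a = 1 := by
    rw [hφ, h.ga]
    simp only [Pi.smul_apply, smul_eq_mul]
    field_simp
  have hφa' : φ a' = 0 := by
    rw [hφ, hga']
    simp
  have hψa : ψ a = 0 := by
    rw [hψ, h.ga]
    simp
  have hψa' : ψ a' = 1 := by
    rw [hψ, hga']
    simp only [Pi.smul_apply, smul_eq_mul]
    field_simp
  let Bl : (n → k) →ₗ[k] (n → k) :=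
    (LinearMap.toSpanSingleton k (n → k) v ∘ₗ φ + LinearMap.toSpanSingleton k (n → k) v' ∘ₗ ψ) ∘ₗ Matrix.toLin' e
  let B : Matrix n n k := LinearMap.toMatrix' Bl
  have hB : ∀ u, B *ᵥ u = φ (e *ᵥ u) • v + ψ (e *ᵥ u) • v' := by
    intro u
    rw [LinearMap.toMatrix'_mulVec]
    simp [Bl]
  have hBa : B *ᵥ a = v := by
    rw [hB, h.ea, hφa, hψa, one_smul, zero_smul, add_zero]
  have hBa' : B *ᵥ a' = v' := by
    rw [hB, hea', hφa', hψa', one_smul, zero_smul, zero_add]
  have hB0 : ∀ u, e *ᵥ u = 0 → B *ᵥ u = 0 := by
    intro u hu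
    rw [hB, hu, map_zero, map_zero, zero_smul, zero_smul, add_zero]
  have hBe : B * e = B := by
    apply e4_ext
    intro w
    rw [← mulVec_mulVec, hB, hB, mulVec_mulVec, h.idem]
  refine ⟨B, ?_, hBe, ?_, ?_⟩
  · intro h0
    rw [h0, zero_mulVec] at hBa
    exact hv0 hBa.symm
  · apply e4_ext
    intro w
    rw [← mulVec_mulVec, hB, mulVec_add, mulVec_smul, mulVec_smul, hev, hev', smul_zero, smul_zero, add_zero,
      zero_mulVec]
  · -- the commutation
    obtain ⟨q, hq, hgq⟩ := h.set.inv g h.mem
    let K : Submodule k (Matrix n n k) :=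
      { carrier := {X | X * B = B * X}
        add_mem' := by
          intro X Y hX hY
          simp only [Set.mem_ofPred_eq] at hX hY ⊢
          rw [add_mul, mul_add, hX, hY]
        zero_mem' := by simp
        smul_mem' := by
          intro c X hX
          simp only [Set.mem_ofPred_eq] at hX ⊢
          rw [smul_mul_assoc, mul_smul_comm, hX] }
    -- reduction to two vectors
    have red : ∀ X ∈ L, X *ᵥ v = B *ᵥ (X *ᵥ a) → X *ᵥ v' = B *ᵥ (X *ᵥ a') → X ∈ K := by
      intro X hX hXv hXv'
      change X * B = B * X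
      apply e4_ext
      intro w
      have hw : w = e *ᵥ w + (w - e *ᵥ w) := by abel
      obtain ⟨x, y, hxy⟩ := hspan (e *ᵥ w) (by rw [mulVec_mulVec, h.idem])
      have hk : e *ᵥ (w - e *ᵥ w) = 0 := by
        rw [mulVec_sub, mulVec_mulVec, h.idem, sub_self]
      have hkX : e *ᵥ (X *ᵥ (w - e *ᵥ w)) = 0 := by
        rw [he2 X hX, hk, mulVec_zero]
      rw [← mulVec_mulVec, ← mulVec_mulVec]
      rw [hw, mulVec_add, mulVec_add, mulVec_add, mulVec_add, hB0 _ hk, hB0 _ hkX, mulVec_zero, add_zero, add_zero,
        hxy]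
      simp only [mulVec_add, mulVec_smul]
      rw [hBa, hBa', hXv, hXv']
    -- matrices killing the image
    have kil : ∀ X ∈ L, X *ᵥ a = 0 → X *ᵥ a' = 0 → X *ᵥ v = 0 ∧ X *ᵥ v' = 0 := by
      intro X hX h3 h4
      have hXe : X * e = 0 := by
        apply e4_ext
        intro w
        obtain ⟨x, y, hxy⟩ := hspan (e *ᵥ w) (by rw [mulVec_mulVec, h.idem])
        rw [← mulVec_mulVec, hxy, mulVec_add, mulVec_smul, mulVec_smul, h3, h4, smul_zero, smul_zero, add_zero,
          zero_mulVec]
      exact ⟨h2 X hX hXe v hev (Or.inl hv), h2 X hX hXe v' hev' (Or.inr hgv')⟩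
    have hle : L ≤ K := by
      refine m1_decomp hgq h.sem L (fun X hX => h.set.conj g h.mem q hq hgq X hX) K ?_
      intro c X hX hgX
      have ea1 : e *ᵥ (X *ᵥ a) = X *ᵥ a := by rw [he2 X hX, h.ea]
      have ea2 : e *ᵥ (X *ᵥ a') = X *ᵥ a' := by rw [he2 X hX, hea']
      have ga1 : g *ᵥ (X *ᵥ a) = (c * α) • (X *ᵥ a) := e4_gX hgX h.ga
      have ga2 : g *ᵥ (X *ᵥ a') = (c * β) • (X *ᵥ a') := e4_gX hgX hga'
      by_cases hc1 : c = 1
      · have hcom : g * X = X * g := by rw [hgX, hc1, one_smul]
        obtain ⟨s, hs⟩ := torus' A L h.set g h.mem h.sem h.single X hX hcom α a h.ga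
        obtain ⟨t, ht'⟩ := torus' A L h.set g h.mem h.sem h.single X hX hcom β a' hga'
        have h3 := h1 X hX hcom α s v a hv h.ga h.a0 hs
        have h4 := h1 X hX hcom β t v' a' hgv' hga' ha'0 ht'
        apply red X hX
        · rw [h3, hs, mulVec_smul, hBa]
        · rw [h4, ht', mulVec_smul, hBa']
      by_cases hc2 : c = α / β
      · obtain ⟨x1, y1, hxy1, hx1, hy1⟩ := himg _ _ ea1 ga1
        obtain ⟨x2, y2, hxy2, hx2, hy2⟩ := himg _ _ ea2 ga2
        have hx10 : x1 = 0 := by
          rcases mul_eq_zero.1 hx1 with h0 | h0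
          · exact h0
          · exfalso
            apply hc1
            have : (1 - c) * α = 0 := by linear_combination h0
            have := (mul_eq_zero.1 this).resolve_right hα
            linear_combination -this
        have hy10 : y1 = 0 := by
          rcases mul_eq_zero.1 hy1 with h0 | h0
          · exact h0
          · exfalso
            apply h.ne 2 two_pos
            rw [hc2] at h0
            have : β * β = α * α := by
              field_simp at h0
              linear_combination h0
            rw [div_pow, div_eq_one_iff_eq (pow_ne_zero 2 hβ)]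
            linear_combination -this
        have hXa : X *ᵥ a = 0 := by
          rw [hxy1, hx10, hy10, zero_smul, zero_smul, add_zero]
        have hy20 : y2 = 0 := by
          rcases mul_eq_zero.1 hy2 with h0 | h0
          · exact h0
          · exfalso
            apply hc1
            have : (1 - c) * β = 0 := by linear_combination h0
            have := (mul_eq_zero.1 this).resolve_right hβ
            linear_combination -this
        have hXa' : X *ᵥ a' = x2 • a := by
          rw [hxy2, hy20, zero_smul, add_zero]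
        have hXv : X *ᵥ v = 0 := by
          by_contra h0
          refine h.int1 ⟨X *ᵥ v, h0, ?_, ?_⟩
          · rw [he2 X hX, hev, mulVec_zero]
          · rw [e4_gX hgX hv, hc2]
            congr 1
            field_simp
        have hXE := kil (X - x2 • E) (L.sub_mem hX (L.smul_mem _ ht.EL))
          (by rw [sub_mulVec, smul_mulVec, hXa, ht.Ea, smul_zero, sub_zero])
          (by rw [sub_mulVec, smul_mulVec, hXa', hEa', sub_self])
        have h5 := hXE.2
        rw [sub_mulVec, smul_mulVec, hEv', sub_eq_zero] at h5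
        apply red X hX
        · rw [hXv, hXa, mulVec_zero]
        · rw [h5, hXa', mulVec_smul, hBa]
      by_cases hc3 : c = β / α
      · obtain ⟨x1, y1, hxy1, hx1, hy1⟩ := himg _ _ ea1 ga1
        obtain ⟨x2, y2, hxy2, hx2, hy2⟩ := himg _ _ ea2 ga2
        have hx10 : x1 = 0 := by
          rcases mul_eq_zero.1 hx1 with h0 | h0
          · exact h0
          · exfalso
            apply hc1
            have : (1 - c) * α = 0 := by linear_combination h0
            have := (mul_eq_zero.1 this).resolve_right hα
            linear_combination -this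
        have hXa : X *ᵥ a = y1 • a' := by
          rw [hxy1, hx10, zero_smul, zero_add]
        have hy20 : y2 = 0 := by
          rcases mul_eq_zero.1 hy2 with h0 | h0
          · exact h0
          · exfalso
            apply hc1
            have : (1 - c) * β = 0 := by linear_combination h0
            have := (mul_eq_zero.1 this).resolve_right hβ
            linear_combination -this
        have hx20 : x2 = 0 := by
          rcases mul_eq_zero.1 hx2 with h0 | h0
          · exact h0
          · exfalso
            apply h.ne 2 two_pos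
            rw [hc3] at h0
            have : β * β = α * α := by
              field_simp at h0
              linear_combination -h0
            rw [div_pow, div_eq_one_iff_eq (pow_ne_zero 2 hβ)]
            linear_combination -this
        have hXa' : X *ᵥ a' = 0 := by
          rw [hxy2, hx20, hy20, zero_smul, zero_smul, add_zero]
        have hXv' : X *ᵥ v' = 0 := by
          by_contra h0
          refine h.int2 ⟨X *ᵥ v', h0, ?_, ?_⟩
          · rw [he2 X hX, hev', mulVec_zero]
          · rw [e4_gX hgX hgv', hc3]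
            congr 1
            field_simp
        have hFa' : F *ᵥ a' = 0 := by
          obtain ⟨x3, y3, hxy3, hx3, hy3⟩ := himg (F *ᵥ a') (β / α * β) (by rw [he2 F ht.FL, hea'])
            (e4_gX ht.gF hga')
          have hx30 : x3 = 0 := by
            rcases mul_eq_zero.1 hx3 with h0 | h0
            · exact h0
            · exfalso
              apply h.ne 2 two_pos
              have : β * β = α * α := by
                field_simp at h0
                linear_combination -h0
              rw [div_pow, div_eq_one_iff_eq (pow_ne_zero 2 hβ)]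
              linear_combination -this
          have hy30 : y3 = 0 := by
            rcases mul_eq_zero.1 hy3 with h0 | h0
            · exact h0
            · exfalso
              apply hc1
              rw [hc3]
              have : (1 - β / α) * β = 0 := by linear_combination h0
              have := (mul_eq_zero.1 this).resolve_right hβ
              linear_combination -this
          rw [hxy3, hx30, hy30, zero_smul, zero_smul, add_zero]
        have hXE := kil (X - y1 • F) (L.sub_mem hX (L.smul_mem _ ht.FL))
          (by rw [sub_mulVec, smul_mulVec, hXa, ← ha', sub_self])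
          (by rw [sub_mulVec, smul_mulVec, hXa', hFa', smul_zero, sub_zero])
        have h5 := hXE.1
        rw [sub_mulVec, smul_mulVec, ← hv', sub_eq_zero] at h5
        apply red X hX
        · rw [h5, hXa, mulVec_smul, hBa']
        · rw [hXv', hXa', mulVec_zero]
      · -- the other eigenvalues
        obtain ⟨x1, y1, hxy1, hx1, hy1⟩ := himg _ _ ea1 ga1
        obtain ⟨x2, y2, hxy2, hx2, hy2⟩ := himg _ _ ea2 ga2
        have hx10 : x1 = 0 := by
          rcases mul_eq_zero.1 hx1 with h0 | h0
          · exact h0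
          · exfalso
            apply hc1
            have : (1 - c) * α = 0 := by linear_combination h0
            have := (mul_eq_zero.1 this).resolve_right hα
            linear_combination -this
        have hy10 : y1 = 0 := by
          rcases mul_eq_zero.1 hy1 with h0 | h0
          · exact h0
          · exfalso
            apply hc3
            rw [eq_div_iff hα]
            linear_combination -h0
        have hx20 : x2 = 0 := by
          rcases mul_eq_zero.1 hx2 with h0 | h0
          · exact h0
          · exfalso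
            apply hc2
            rw [eq_div_iff hβ]
            linear_combination -h0
        have hy20 : y2 = 0 := by
          rcases mul_eq_zero.1 hy2 with h0 | h0
          · exact h0
          · exfalso
            apply hc1
            have : (1 - c) * β = 0 := by linear_combination h0
            have := (mul_eq_zero.1 this).resolve_right hβ
            linear_combination -this
        have hXa : X *ᵥ a = 0 := by
          rw [hxy1, hx10, hy10, zero_smul, zero_smul, add_zero]
        have hXa' : X *ᵥ a' = 0 := by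
          rw [hxy2, hx20, hy20, zero_smul, zero_smul, add_zero]
        obtain ⟨h3, h4⟩ := kil X hX hXa hXa'
        apply red X hX
        · rw [h3, hXa, mulVec_zero]
        · rw [h4, hXa', mulVec_zero]
    intro X hX
    exact hle hX

end Pool.Agent.H40ES
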