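import Mathlib
import Pool.Agent.H40ES.Defs

/-!
# E5: the commutant of the Lie algebra commutes with the Frobenius element
-/

set_option autoImplicit false

namespace Pool.Agent.H40ES

open Matrix Pool.Agent.H40ZL Pool.Agent.H40TG

variable {k : Type*} [Field k] [IsAlgClosed k] [CharZero k] {n : Type*} [Fintype n] [DecidableEq n]

omit [IsAlgClosed k] in
theorem comm_g [IsAlgClosed k] (g q : Matrix n n k) (hgq : g * q = 1) (hgs : Module.End.IsSemisimple (Matrix.toLin' g))
    (L : Submodule k (Matrix n n k)) (hL' : ∀ X ∈ L, q * X * g ∈ L)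
    (hroot : ∀ (c : k) (d : ℕ) (M : Matrix n n k), 0 < d → c ^ d = 1 → M ≠ 0 → g * M = c • (M * g) → c = 1)
    (hphi : ∀ φ : Additive kˣ →+ k, ∃ X ∈ L, ∀ (μ : kˣ) (v : n → k), g *ᵥ v = (μ : k) • v →
      X *ᵥ v = φ (Additive.ofMul μ) • v)
    (B : Matrix n n k) (hB : ∀ X ∈ L, X * B = B * X) : g * B = B * g := by
  have hqg : q * g = 1 := mul_eq_one_comm.1 hgq
  let W : Submodule k (Matrix n n k) :=
    { carrier := {M | ∀ X ∈ L, X * M = M * X}
      add_mem' := by
        intro M N hM hN X hX
        rw [mul_add, add_mul, hM X hX, hN X hX]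
      zero_mem' := by
        intro X _
        rw [mul_zero, zero_mul]
      smul_mem' := by
        intro c M hM X hX
        rw [mul_smul_comm, smul_mul_assoc, hM X hX] }
  let K : Submodule k (Matrix n n k) :=
    { carrier := {M | g * M = M * g}
      add_mem' := by
        intro M N hM hN
        change g * (M + N) = (M + N) * g
        rw [mul_add, add_mul, show g * M = M * g from hM, show g * N = N * g from hN]
      zero_mem' := by
        change g * 0 = 0 * g
        rw [mul_zero, zero_mul]
      smul_mem' := by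
        intro c M hM
        change g * (c • M) = (c • M) * g
        rw [mul_smul_comm, smul_mul_assoc, show g * M = M * g from hM] }
  have hW : ∀ M ∈ W, g * M * q ∈ W := by
    intro M hM X hX
    have h1 : (q * X * g) * M = M * (q * X * g) := hM _ (hL' X hX)
    calc X * (g * M * q) = (g * q) * X * (g * M * q) := by rw [hgq, one_mul]
      _ = g * ((q * X * g) * M) * q := by noncomm_ring
      _ = g * (M * (q * X * g)) * q := by rw [h1]
      _ = g * M * q * X * (g * q) := by noncomm_ring
      _ = g * M * q * X := by rw [hgq, mul_one]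
  have hle : W ≤ K := by
    refine m1_decomp hgq hgs W hW K ?_
    intro c M hM hgM
    change g * M = M * g
    by_cases hM0 : M = 0
    · rw [hM0, mul_zero, zero_mul]
    suffices hc : c = 1 by rw [hgM, hc, one_smul]
    obtain ⟨y, w, hw, hMw⟩ : ∃ (y : k) (w : n → k), g *ᵥ w = y • w ∧ M *ᵥ w ≠ 0 := by
      by_contra hcon
      push Not at hcon
      apply hM0
      have h1 : (⨆ μ : k, Module.End.eigenspace (Matrix.toLin' g) μ) ≤ LinearMap.ker (Matrix.toLin' M) := by
        refine iSup_le fun μ w hw => ?_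
        rw [Module.End.mem_eigenspace_iff, Matrix.toLin'_apply] at hw
        rw [LinearMap.mem_ker, Matrix.toLin'_apply]
        exact hcon μ w hw
      rw [hgs.iSup_eigenspace_eq_top, top_le_iff, LinearMap.ker_eq_top] at h1
      apply Matrix.toLin'.injective
      rw [h1, map_zero]
    have hgMw : g *ᵥ (M *ᵥ w) = (c * y) • (M *ᵥ w) := by
      rw [mulVec_mulVec, hgM, smul_mulVec, ← mulVec_mulVec, hw, mulVec_smul, smul_smul]
    have hcy : c * y ≠ 0 := by
      intro h0
      apply hMw
      have : q *ᵥ (g *ᵥ (M *ᵥ w)) = M *ᵥ w := by rw [mulVec_mulVec, hqg, one_mulVec]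
      rw [← this, hgMw, h0, zero_smul, mulVec_zero]
    have hc0 : c ≠ 0 := left_ne_zero_of_mul hcy
    have hy0 : y ≠ 0 := right_ne_zero_of_mul hcy
    by_cases hr : ∃ d : ℕ, 0 < d ∧ c ^ d = 1
    · obtain ⟨d, hd, hcd⟩ := hr
      exact hroot c d M hd hcd hM0 hgM
    exfalso
    push Not at hr
    obtain ⟨φ, hφ⟩ := exists_phi (Units.mk0 c hc0) (by
      intro d hd h1
      apply hr d hd
      have := congrArg Units.val h1
      simpa using this)
    obtain ⟨X, hX, hXe⟩ := hphi φ
    have h1 := hXe (Units.mk0 c hc0 * Units.mk0 y hy0) (M *ᵥ w) (by simpa using hgMw)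
    have h2 := hXe (Units.mk0 y hy0) w (by simpa using hw)
    have h3 : X *ᵥ (M *ᵥ w) = M *ᵥ (X *ᵥ w) := by
      rw [mulVec_mulVec, hM X hX, ← mulVec_mulVec]
    rw [h1, h2, mulVec_smul, ofMul_mul, map_add] at h3
    apply hφ
    have h4 : φ (Additive.ofMul (Units.mk0 c hc0)) • (M *ᵥ w) = 0 := by
      rw [add_smul] at h3
      exact add_eq_right.1 h3
    exact (smul_eq_zero.1 h4).resolve_right hMw
  exact hle hB

end Pool.Agent.H40ES
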