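import Mathlib
import Pool.Agent.H40TG.Fin6

/-!
# The commutant of the Lie algebra and the commutant of the group
-/

set_option autoImplicit false
set_option linter.unusedSectionVars false
set_option linter.style.haveILetI false

namespace Pool.Agent.H40ES

open Matrix Pool.Agent.H40TG Pool.Agent.H40ZL Pool.Agent.H40GO Pool.Agent.H40LT Module MeasureTheory

section

variable {G : Type*} [Field G] [CharZero G] [TopologicalSpace G] [IsTopologicalRing G] [T2Space G] [IsAlgClosed G]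
  {Γ : Type*} [Group Γ] [TopologicalSpace Γ] [IsTopologicalGroup Γ] [CompactSpace Γ] [MeasurableSpace Γ]
  [BorelSpace Γ]

theorem comm_mem {p : Type*} [Fintype p] [DecidableEq p] (Q : Γ →* Matrix p p G) (B : Matrix p p G) (i j : p) :
    (fun x => (Q x * B - B * Q x) i j) ∈ coefAlg Q 1 := by
  obtain ⟨R, hR⟩ : ∃ R, R = coefAlg Q 1 := ⟨_, rfl⟩
  have hmem : ∀ i j, (fun x => Q x i j) ∈ R := by
    intro i j
    rw [hR]
    exact mem1 Q 1 i j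
  rw [← hR]
  have e : (fun x => (Q x * B - B * Q x) i j) =
      (∑ l, B l j • fun x => Q x i l) - ∑ l, B i l • fun x => Q x l j := by
    funext x
    rw [Pi.sub_apply, Finset.sum_apply, Finset.sum_apply, Matrix.sub_apply, Matrix.mul_apply, Matrix.mul_apply]
    congr 1
    exact Finset.sum_congr rfl fun l _ => mul_comm _ _
  rw [e]
  exact R.sub_mem (R.sum_mem fun l _ => R.smul_mem (hmem i l) _) (R.sum_mem fun l _ => R.smul_mem (hmem l j) _)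

/-- generic elements detect whether the commutant of `L` commutes with `Δ` -/
theorem generic_comm (μ : Measure Γ) [IsFiniteMeasure μ] [μ.IsMulLeftInvariant] [μ.InnerRegularCompactLTTop]
    {p : Type*} [Fintype p] [DecidableEq p] (Q : Γ →* Matrix p p G) (hQ : Continuous Q)
    (Δ : Subgroup Γ) (hΔn : Δ.Normal) (hΔo : IsOpen (Δ : Set Γ)) (hΔ : ConnOn (coefAlg Q 1) Δ)
    (L : Submodule G (Matrix p p G)) (hL : ∀ X ∈ L, ∀ x : Γ, Q x * X * Q x⁻¹ ∈ L) :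
    ∃ Z : Set Γ, IsClosed Z ∧ μ Z = 0 ∧ (∀ x ∈ Z, ∀ τ, τ * x * τ⁻¹ ∈ Z) ∧ ∀ σ ∈ Δ, σ ∉ Z →
      (∀ B, (∀ X ∈ L, X * B = B * X) → Q σ * B = B * Q σ) →
      ∀ B, (∀ X ∈ L, X * B = B * X) → ∀ x ∈ Δ, Q x * B = B * Q x := by
  have hinv : ∀ x : Γ, Q x * Q x⁻¹ = 1 := fun x => by rw [← map_mul, mul_inv_cancel, map_one]
  have hinv' : ∀ x : Γ, Q x⁻¹ * Q x = 1 := fun x => by rw [← map_mul, inv_mul_cancel, map_one]
  by_cases hall : ∀ B, (∀ X ∈ L, X * B = B * X) → ∀ x ∈ Δ, Q x * B = B * Q x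
  · exact ⟨∅, isClosed_empty, measure_empty, fun x hx => absurd hx (Set.notMem_empty x), fun _ _ _ _ => hall⟩
  push Not at hall
  obtain ⟨B, hB, x₁, hx₁, hne⟩ := hall
  obtain ⟨i, j, hij⟩ : ∃ i j, (Q x₁ * B - B * Q x₁) i j ≠ 0 := by
    by_contra hcon
    push Not at hcon
    exact hne (sub_eq_zero.mp (Matrix.ext hcon))
  obtain ⟨-, h2⟩ := fun_null Q hQ μ Δ hΔo hΔ _ (comm_mem Q B i j) x₁ hx₁ hij
  refine ⟨{σ | σ ∈ Δ ∧ ∀ B, (∀ X ∈ L, X * B = B * X) → Q σ * B = B * Q σ}, ?_, ?_, ?_, ?_⟩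
  · have h3 : {σ | σ ∈ Δ ∧ ∀ B, (∀ X ∈ L, X * B = B * X) → Q σ * B = B * Q σ} =
        (Δ : Set Γ) ∩ ⋂ B : {B : Matrix p p G // ∀ X ∈ L, X * B = B * X}, {σ | Q σ * B.1 = B.1 * Q σ} := by
      ext σ
      simp only [Set.mem_setOf_eq, Set.mem_inter_iff, SetLike.mem_coe, Set.mem_iInter, Subtype.forall]
    rw [h3]
    refine (Δ.isClosed_of_isOpen hΔo).inter (isClosed_iInter fun B => ?_)
    exact isClosed_eq (hQ.matrix_mul continuous_const) (continuous_const.matrix_mul hQ)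
  · refine measure_mono_null ?_ h2
    rintro σ ⟨hσ, h⟩
    refine ⟨?_, hσ⟩
    change (Q σ * B - B * Q σ) i j = 0
    rw [h B hB, sub_self]
    rfl
  · rintro σ ⟨hσ, h⟩ τ
    refine ⟨hΔn.conj_mem σ hσ τ, fun B hB => ?_⟩
    have h4 := h (Q τ⁻¹ * B * Q τ) (by
      intro X hX
      have h5 := hB _ (hL X hX τ)
      calc X * (Q τ⁻¹ * B * Q τ) = (Q τ⁻¹ * Q τ) * X * (Q τ⁻¹ * B * Q τ) := by rw [hinv', one_mul]
        _ = Q τ⁻¹ * ((Q τ * X * Q τ⁻¹) * B) * Q τ := by simp only [mul_assoc]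
        _ = Q τ⁻¹ * (B * (Q τ * X * Q τ⁻¹)) * Q τ := by rw [h5]
        _ = (Q τ⁻¹ * B * Q τ) * X * (Q τ⁻¹ * Q τ) := by simp only [mul_assoc]
        _ = (Q τ⁻¹ * B * Q τ) * X := by rw [hinv', mul_one])
    rw [map_mul, map_mul]
    calc Q τ * Q σ * Q τ⁻¹ * B = Q τ * Q σ * Q τ⁻¹ * B * (Q τ * Q τ⁻¹) := by rw [hinv, mul_one]
      _ = Q τ * (Q σ * (Q τ⁻¹ * B * Q τ)) * Q τ⁻¹ := by simp only [mul_assoc]
      _ = Q τ * ((Q τ⁻¹ * B * Q τ) * Q σ) * Q τ⁻¹ := by rw [h4]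
      _ = (Q τ * Q τ⁻¹) * B * (Q τ * Q σ * Q τ⁻¹) := by simp only [mul_assoc]
      _ = B * (Q τ * Q σ * Q τ⁻¹) := by rw [hinv, one_mul]
  · intro σ hσ hσZ h
    exact absurd ⟨hσ, h⟩ hσZ

end

end Pool.Agent.H40ES
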