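import Mathlib
import Pool.Agent.H40ES.Gam
import Pool.Agent.H40ES.Defs

/-!
# Eigenvalues on the blocks
-/

set_option autoImplicit false
set_option linter.unusedSectionVars false
set_option linter.style.haveILetI false

namespace Pool.Agent.H40ES

open Matrix Pool.Agent.H40TG Pool.Agent.H40ZL Pool.Agent.H40GO Pool.Agent.H40LT Module MeasureTheory

section

variable {G : Type*} [Field G] {p : Type*} [Fintype p] [DecidableEq p]

theorem eval_zero (M : Matrix p p G) (z : G) (v : p → G) (hv : v ≠ 0) (h : M *ᵥ v = z • v) :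
    M.charpoly.eval z = 0 := by
  rw [Matrix.eval_charpoly, ← Matrix.exists_mulVec_eq_zero_iff]
  refine ⟨v, hv, ?_⟩
  rw [Matrix.sub_mulVec, h, Matrix.scalar_apply]
  funext i
  simp [Matrix.mulVec_diagonal]

theorem exists_vec (M : Matrix p p G) (z : G) (h : M.charpoly.eval z = 0) : ∃ v : p → G, v ≠ 0 ∧ M *ᵥ v = z • v := by
  rw [Matrix.eval_charpoly, ← Matrix.exists_mulVec_eq_zero_iff] at h
  obtain ⟨v, hv, h1⟩ := h
  refine ⟨v, hv, ?_⟩
  rw [Matrix.sub_mulVec, Matrix.scalar_apply, sub_eq_zero] at h1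
  rw [← h1]
  funext i
  simp [Matrix.mulVec_diagonal]

/-- the matrix which maps the eigenvector `b` to `a` -/
theorem exists_rank_one (M : Matrix p p G) (α β : G) (hβ : β ≠ 0) (a : p → G) (ha : a ≠ 0) (h : M *ᵥ a = α • a)
    (hb : M.charpoly.eval β = 0) : ∃ T : Matrix p p G, T ≠ 0 ∧ M * T = (α / β) • (T * M) := by
  obtain ⟨u, hu, hu2⟩ := exists_vec Mᵀ β (by rw [Matrix.charpoly_transpose]; exact hb)
  refine ⟨Matrix.vecMulVec a u, ?_, ?_⟩
  · intro h0
    obtain ⟨i, hi⟩ := Function.ne_iff.mp ha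
    obtain ⟨j, hj⟩ := Function.ne_iff.mp hu
    have h1 := congrFun (congrFun h0 i) j
    rw [Matrix.vecMulVec_apply] at h1
    exact mul_ne_zero hi hj h1
  · rw [Matrix.mulVec_transpose] at hu2
    rw [Matrix.mul_vecMulVec, Matrix.vecMulVec_mul, h, hu2]
    ext i j
    simp only [Matrix.vecMulVec_apply, Matrix.smul_apply, Pi.smul_apply, smul_eq_mul]
    field_simp

theorem span_two {m : ℕ} (hm : m = 2) (M : Matrix (Fin m) (Fin m) G) (α β : G) (hne : α ≠ β) (u w : Fin m → G)
    (hu : u ≠ 0) (hw : w ≠ 0) (h1 : M *ᵥ u = α • u) (h2 : M *ᵥ w = β • w) (x : Fin m → G) :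
    ∃ s t : G, x = s • u + t • w := by
  have hli : LinearIndependent G ![u, w] := by
    rw [LinearIndependent.pair_iff]
    intro s t hst
    have h3 := congrArg (fun y => M *ᵥ y) hst
    simp only [Matrix.mulVec_add, Matrix.mulVec_smul, h1, h2, Matrix.mulVec_zero] at h3
    have h4 : (t * (β - α)) • w = 0 := by
      have h5 : s • α • u + t • β • w - α • (s • u + t • w) = 0 := by rw [h3, hst, smul_zero, sub_zero]
      rw [← h5]
      module
    have ht : t = 0 := by
      rcases smul_eq_zero.mp h4 with h5 | h5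
      · rcases mul_eq_zero.mp h5 with h6 | h6
        · exact h6
        · exact absurd (sub_eq_zero.mp h6).symm hne
      · exact absurd h5 hw
    rw [ht, zero_smul, add_zero] at hst
    exact ⟨(smul_eq_zero.mp hst).resolve_right hu, ht⟩
  have htop := hli.span_eq_top_of_card_eq_finrank (by
    rw [Module.finrank_fintype_fun_eq_card, Fintype.card_fin, Fintype.card_fin, hm])
  have hx : x ∈ Submodule.span G (Set.range ![u, w]) := by
    rw [htop]
    exact Submodule.mem_top
  rw [Matrix.range_cons, Matrix.range_cons, Matrix.range_empty, Set.union_empty, Set.singleton_union,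
    Submodule.mem_span_pair] at hx
  obtain ⟨s, t, hst⟩ := hx
  exact ⟨s, t, hst.symm⟩

variable {Γ : Type*} [Group Γ] {s : ℕ} {n : Fin s → ℕ}

theorem prj_idem (j : Fin s) : prj G (n := n) j * prj G j = prj G j := by
  unfold prj
  rw [Matrix.diagonal_mul_diagonal]
  congr 1
  funext q
  split_ifs <;> simp

variable [CharZero G] [IsAlgClosed G]

theorem prj_emb (j : Fin s) (w : Fin (n j) → G) : prj G j *ᵥ emb (n := n) j w = emb j w := by
  rw [prj_mulVec]
  congr 1
  funext i
  exact emb_self j w i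

theorem emb_ne0 (j : Fin s) (w : Fin (n j) → G) (hw : w ≠ 0) : emb (n := n) j w ≠ 0 := by
  intro h
  apply hw
  funext i
  rw [← emb_self (n := n) j w i, h]
  rfl

/-- eigenvalues come from the blocks -/
theorem block_root (ρ : ∀ j, Γ →* Matrix (Fin (n j)) (Fin (n j)) G) (σ : Γ) (z : G) (v : (Σ j, Fin (n j)) → G)
    (hv : v ≠ 0) (h : blk ρ σ *ᵥ v = z • v) :
    ∃ j, (fun i => v ⟨j, i⟩) ≠ 0 ∧ (ρ j σ).charpoly.eval z = 0 := by
  obtain ⟨⟨j, i⟩, hi⟩ := Function.ne_iff.mp hv
  have hj : (fun i => v ⟨j, i⟩) ≠ 0 := fun h0 => hi (congrFun h0 i)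
  refine ⟨j, hj, eval_zero _ z _ hj ?_⟩
  funext i'
  rw [← blk_mulVec ρ σ v j i', h]
  rfl

theorem ev_root (ρ : ∀ j, Γ →* Matrix (Fin (n j)) (Fin (n j)) G) (σ : Γ) (j0 : Fin s) (z : G)
    (h : EV (blk ρ σ) (prj G j0) z) : (∏ j ∈ Finset.univ.erase j0, (ρ j σ).charpoly).eval z = 0 := by
  obtain ⟨v, hv, h1, h2⟩ := h
  obtain ⟨j, hj, h3⟩ := block_root ρ σ z v hv h2
  rw [Polynomial.eval_prod]
  refine Finset.prod_eq_zero (Finset.mem_erase.mpr ⟨?_, Finset.mem_univ j⟩) h3
  rintro rfl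
  apply hj
  rw [prj_mulVec] at h1
  funext i
  have h4 := congrFun h1 ⟨j, i⟩
  rw [emb_self] at h4
  exact h4

end

end Pool.Agent.H40ES
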