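import Mathlib
import Pool.Agent.H40ES.Defs

/-!
# Project ES, stub NT1 (helper21)
-/

set_option autoImplicit false

namespace Pool.Agent.H40ES

theorem ratio_unity {k : Type*} [Field k] [CharZero k] (p : ℕ) (hp : p.Prime) (a : ℤ) (ha : a ^ 2 < 4 * p)
    (hpa : (p : ℤ) ∣ a) (α β : k) (h1 : α + β = a) (h2 : α * β = p) : ∃ d : ℕ, 0 < d ∧ (α / β) ^ d = 1 := by
  obtain ⟨b, rfl⟩ := hpa
  have hp2 : 2 ≤ p := hp.two_le
  have hpk : (p : k) ≠ 0 := by
    have : p ≠ 0 := by omega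
    exact_mod_cast this
  have hβ : β ≠ 0 := by
    intro h
    rw [h, mul_zero] at h2
    exact hpk h2.symm
  obtain ⟨u, hu⟩ : ∃ u, u = α / β := ⟨_, rfl⟩
  have hα : α = u * β := by
    rw [hu]
    field_simp
  rw [← hu]
  have h3 : (p : k) * (u ^ 2 + 1) = p * (((p : k) * (b : k) ^ 2 - 2) * u) := by
    push_cast at h1
    rw [hα] at h1 h2
    linear_combination (-(u ^ 2) - 1 - 2 * u) * h2 + u * (u * β + β + p * b) * h1
  have h4 := mul_left_cancel₀ hpk h3
  have h5 : (p : ℤ) * b ^ 2 < 4 := by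
    have h6 : (p : ℤ) * ((p : ℤ) * b ^ 2) < (p : ℤ) * 4 := by
      have e : (p : ℤ) * ((p : ℤ) * b ^ 2) = ((p : ℤ) * b) ^ 2 := by ring
      rw [e]
      linarith
    exact lt_of_mul_lt_mul_left h6 (by positivity)
  have h6 : (0 : ℤ) ≤ (p : ℤ) * b ^ 2 := by positivity
  obtain ⟨m, hm⟩ : ∃ m : ℤ, m = (p : ℤ) * b ^ 2 := ⟨_, rfl⟩
  have hmk : (p : k) * (b : k) ^ 2 = (m : k) := by
    rw [hm]
    push_cast
    rfl
  rw [hmk] at h4
  rw [← hm] at h5 h6
  refine ⟨12, by norm_num, ?_⟩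
  interval_cases m
  · push_cast at h4
    have : (u + 1) ^ 2 = 0 := by linear_combination h4
    have : u = -1 := by
      have := pow_eq_zero_iff (two_ne_zero) |>.1 this
      linear_combination this
    rw [this]
    norm_num
  · push_cast at h4
    have h7 : u ^ 3 = 1 := by linear_combination (u - 1) * h4
    calc u ^ 12 = (u ^ 3) ^ 4 := by ring
      _ = 1 := by rw [h7, one_pow]
  · push_cast at h4
    have h7 : u ^ 2 = -1 := by linear_combination h4
    calc u ^ 12 = (u ^ 2) ^ 6 := by ring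
      _ = 1 := by rw [h7]; norm_num
  · push_cast at h4
    have h7 : u ^ 3 = -1 := by linear_combination (u + 1) * h4
    calc u ^ 12 = (u ^ 3) ^ 4 := by ring
      _ = 1 := by rw [h7]; norm_num

end Pool.Agent.H40ES
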