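import Mathlib

/-!
# Weil numbers: number theory (adapted from the proof of NT2 by helper22)
-/

set_option autoImplicit false

namespace Pool.Agent.H40ES

open Polynomial

section NF

variable {K : Type*} [Field K] [NumberField K]

theorem nf_root (P : Polynomial ℤ) (τ : K →+* ℂ) (z : K) (hz : aeval z P = 0) : aeval (τ z) P = 0 := by
  have := congrArg τ hz
  rw [map_zero] at this
  rw [← this]
  simp [aeval_def, eval₂_eq_sum_range]

theorem nf_dual (p : ℕ) (hp : p.Prime) (P : Polynomial ℤ)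
    (hW : ∀ z : ℂ, Polynomial.aeval z P = 0 → ‖z‖ ^ 2 = p) (z : K) (hz : aeval z P = 0) :
    aeval ((p : K) / z) P = 0 := by
  obtain ⟨τ⟩ : Nonempty (K →+* ℂ) := inferInstance
  have e1 := nf_root P τ z hz
  have e2 := hW _ e1
  have e3 : τ z * starRingEnd ℂ (τ z) = p := by
    rw [Complex.mul_conj, Complex.normSq_eq_norm_sq, e2]
    simp
  have hz0 : τ z ≠ 0 := by
    intro h0
    rw [h0, zero_mul] at e3
    exact hp.ne_zero (by exact_mod_cast e3.symm)
  have e4 : τ ((p : K) / z) = starRingEnd ℂ (τ z) := by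
    rw [map_div₀, map_natCast, ← e3]
    field_simp
  have e5 : aeval (starRingEnd ℂ (τ z)) P = 0 := by
    have := congrArg (starRingEnd ℂ) e1
    rw [map_zero] at this
    rw [← this]
    simp [aeval_def, eval₂_eq_sum_range]
  rw [← e4] at e5
  apply τ.injective
  rw [map_zero, ← e5]
  simp [aeval_def, eval₂_eq_sum_range]

theorem nf_unity (p : ℕ) (hp : p.Prime) (α c : K) (P : Polynomial ℤ)
    (hW : ∀ z : ℂ, Polynomial.aeval z P = 0 → ‖z‖ ^ 2 = p) (hα : aeval α P = 0)
    (h3 : Polynomial.aeval (α * c) P = 0) (ic : IsIntegral ℤ c) : ∃ d : ℕ, 0 < d ∧ c ^ d = 1 := by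
  have hn : ∀ τ : K →+* ℂ, ‖τ c‖ = 1 := by
    intro τ
    have e1 := hW _ (nf_root P τ _ h3)
    have e2 := hW _ (nf_root P τ _ hα)
    rw [map_mul, norm_mul, mul_pow, e2] at e1
    have hp' : (p : ℝ) ≠ 0 := by exact_mod_cast hp.ne_zero
    have e3 : ‖τ c‖ ^ 2 = 1 := by
      have : (p : ℝ) * ‖τ c‖ ^ 2 = p * 1 := by rw [e1, mul_one]
      exact mul_left_cancel₀ hp' this
    have := norm_nonneg (τ c)
    nlinarith
  obtain ⟨n, hn0, h⟩ := NumberField.Embeddings.pow_eq_one_of_norm_eq_one K ℂ ic hn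
  exact ⟨n, hn0, h⟩

theorem nf_small (p : ℕ) (hp : p.Prime) (α y : K) (P : Polynomial ℤ)
    (hW : ∀ z : ℂ, Polynomial.aeval z P = 0 → ‖z‖ ^ 2 = p) (hα : aeval α P = 0) (hy : y * p = α)
    (iy : IsIntegral ℤ y) : False := by
  have hp' : (1 : ℝ) < p := by exact_mod_cast hp.one_lt
  have hn : ∀ τ : K →+* ℂ, ‖τ y‖ < 1 := by
    intro τ
    have e2 := hW _ (nf_root P τ _ hα)
    rw [← hy, map_mul, norm_mul, mul_pow, map_natCast, Complex.norm_natCast] at e2
    have h0 := norm_nonneg (τ y)
    by_contra hcon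
    push Not at hcon
    nlinarith [mul_le_mul hcon hcon zero_le_one h0, sq_nonneg (p : ℝ)]
  have hy0 : y ≠ 0 := by
    rintro rfl
    obtain ⟨τ⟩ : Nonempty (K →+* ℂ) := inferInstance
    have e2 := hW _ (nf_root P τ _ hα)
    rw [← hy, zero_mul, map_zero, norm_zero] at e2
    have : (p : ℝ) ≠ 0 := by exact_mod_cast hp.ne_zero
    apply this
    rw [← e2]
    norm_num
  obtain ⟨n, hn0, h⟩ := NumberField.Embeddings.pow_eq_one_of_norm_le_one K ℂ hy0 iy (fun τ : K →+* ℂ => (hn τ).le)
  obtain ⟨τ⟩ : Nonempty (K →+* ℂ) := inferInstance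
  have h1 := congrArg τ h
  rw [map_pow, map_one] at h1
  have h2 := congrArg norm h1
  rw [norm_pow, norm_one] at h2
  have h3 : ‖τ y‖ ^ n < 1 := pow_lt_one₀ (norm_nonneg _) (hn τ) hn0.ne'
  linarith

end NF

section

variable {k : Type*} [Field k] [CharZero k]

theorem int_root (P : Polynomial ℤ) (hP : P.Monic) (z : k) (hz : aeval z P = 0) : IsIntegral ℤ z :=
  ⟨P, hP, by rwa [← aeval_def]⟩

theorem coe_aeval (K : IntermediateField ℚ k) (P : Polynomial ℤ) (x : K) :
    aeval ((x : K) : k) P = ((aeval x P : K) : k) := by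
  have : (algebraMap K k) (aeval x P) = aeval (algebraMap K k x) P := by
    simp [aeval_def, eval₂_eq_sum_range]
  exact this.symm

/-- two elements of a number field inside `k` -/
theorem exists_nf (x y : k) (hx : IsIntegral ℚ x) (hy : IsIntegral ℚ y) :
    ∃ K : IntermediateField ℚ k, FiniteDimensional ℚ K ∧ x ∈ K ∧ y ∈ K := by
  refine ⟨IntermediateField.adjoin ℚ {x, y}, ?_, IntermediateField.subset_adjoin ℚ _ (by simp),
    IntermediateField.subset_adjoin ℚ _ (by simp)⟩
  apply IntermediateField.finiteDimensional_adjoin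
  rintro z (rfl | rfl)
  · exact hx
  · exact hy

theorem dual_root (p : ℕ) (hp : p.Prime) (P : Polynomial ℤ) (hP : P.Monic)
    (hW : ∀ z : ℂ, Polynomial.aeval z P = 0 → ‖z‖ ^ 2 = p) (z : k) (hz : aeval z P = 0) :
    aeval ((p : k) / z) P = 0 := by
  have hz1 : IsIntegral ℚ z := (int_root P hP z hz).tower_top
  obtain ⟨K, hK, hzK, -⟩ := exists_nf z z hz1 hz1
  have : NumberField K := { to_charZero := inferInstance, to_finiteDimensional := hK }
  have h1 := nf_dual (K := K) p hp P hW ⟨z, hzK⟩ (by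
    apply Subtype.ext
    rw [← coe_aeval]
    simpa using hz)
  have h2 := congrArg (Subtype.val) h1
  rw [← coe_aeval] at h2
  simpa using h2

/-- **NT2, general form.** -/
theorem unity_gen (p : ℕ) (hp : p.Prime) (α β c u w : k) (h2 : α * β = p) (hu : IsIntegral ℤ u) (hw : IsIntegral ℤ w)
    (huw : u * (α + β) + w * p = 1) (P : Polynomial ℤ) (hP : P.Monic)
    (hW : ∀ z : ℂ, Polynomial.aeval z P = 0 → ‖z‖ ^ 2 = p) (hα : Polynomial.aeval α P = 0) (hc : c ≠ 0)
    (h3 : Polynomial.aeval (α * c) P = 0) (h4 : Polynomial.aeval (α * c⁻¹) P = 0) : ∃ d : ℕ, 0 < d ∧ c ^ d = 1 := by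
  have hp0 : (p : k) ≠ 0 := by exact_mod_cast hp.ne_zero
  have hα0 : α ≠ 0 := left_ne_zero_of_mul (h2.symm ▸ hp0)
  have hβ0 : β ≠ 0 := right_ne_zero_of_mul (h2.symm ▸ hp0)
  have i1 : IsIntegral ℤ (α * c) := int_root P hP _ h3
  have i2 : IsIntegral ℤ (β * c) := by
    have := int_root P hP _ (dual_root p hp P hP hW _ h4)
    have e : (p : k) / (α * c⁻¹) = β * c := by
      rw [← h2]
      field_simp
    rwa [e] at this
  have iβ : IsIntegral ℤ β := by
    have := int_root P hP _ (dual_root p hp P hP hW _ hα)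
    have e : (p : k) / α = β := by
      rw [← h2]
      field_simp
    rwa [e] at this
  have ic : IsIntegral ℤ c := by
    have e : c = u * (α * c + β * c) + w * ((α * c) * β) := by
      calc c = (u * (α + β) + w * p) * c := by rw [huw, one_mul]
        _ = _ := by rw [← h2]; ring
    rw [e]
    exact (hu.mul (i1.add i2)).add (hw.mul (i1.mul iβ))
  obtain ⟨K, hK, hαK, hcK⟩ := exists_nf α c (int_root P hP _ hα).tower_top ic.tower_top
  have : NumberField K := { to_charZero := inferInstance, to_finiteDimensional := hK }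
  obtain ⟨d, hd, h⟩ := nf_unity (K := K) p hp ⟨α, hαK⟩ ⟨c, hcK⟩ P hW
    (by
      apply Subtype.ext
      rw [← coe_aeval]
      simpa using hα)
    (by
      apply Subtype.ext
      rw [← coe_aeval]
      simpa using h3)
    (by
      obtain ⟨R, hR, hR2⟩ := ic
      refine ⟨R, hR, ?_⟩
      apply Subtype.ext
      rw [← aeval_def, ← coe_aeval]
      simpa [aeval_def] using hR2)
  refine ⟨d, hd, ?_⟩
  have := congrArg (Subtype.val) h
  simpa using this

/-- **NT3, general form.** -/
theorem not_root_gen (p : ℕ) (hp : p.Prime) (α β u w : k) (h2 : α * β = p) (hu : IsIntegral ℤ u)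
    (hw : IsIntegral ℤ w) (huw : u * (α + β) + w * p = 1) (P : Polynomial ℤ) (hP : P.Monic)
    (hW : ∀ z : ℂ, Polynomial.aeval z P = 0 → ‖z‖ ^ 2 = p) (hα : Polynomial.aeval α P = 0) :
    Polynomial.aeval (α ^ 2 / β) P ≠ 0 := by
  intro ht
  have hp0 : (p : k) ≠ 0 := by exact_mod_cast hp.ne_zero
  have hα0 : α ≠ 0 := left_ne_zero_of_mul (h2.symm ▸ hp0)
  have hβ0 : β ≠ 0 := right_ne_zero_of_mul (h2.symm ▸ hp0)
  have it : IsIntegral ℤ (α ^ 2 / β) := int_root P hP _ ht
  have iα : IsIntegral ℤ α := int_root P hP _ hα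
  have iβ : IsIntegral ℤ β := by
    have := int_root P hP _ (dual_root p hp P hP hW _ hα)
    have e : (p : k) / α = β := by
      rw [← h2]
      field_simp
    rwa [e] at this
  have i2 : IsIntegral ℤ (2 : k) := by
    have := isIntegral_algebraMap (R := ℤ) (A := k) (x := 2)
    simpa using this
  have iy : IsIntegral ℤ (1 / β) := by
    have e : 1 / β = u * u * (α ^ 2 / β) + 2 * (u * α) * (u + w * α) + β * ((u + w * α) * (u + w * α)) := by
      have e1 : u * α + β * (u + w * α) = 1 := by rw [← huw, ← h2]; ring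
      have e2 : u * u * (α ^ 2 / β) + 2 * (u * α) * (u + w * α) + β * ((u + w * α) * (u + w * α)) =
          (u * α + β * (u + w * α)) ^ 2 / β := by
        field_simp
        ring
      rw [e2, e1, one_pow]
    rw [e]
    exact (((hu.mul hu).mul it).add ((i2.mul (hu.mul iα)).mul (hu.add (hw.mul iα)))).add
      (iβ.mul ((hu.add (hw.mul iα)).mul (hu.add (hw.mul iα))))
  obtain ⟨K, hK, hαK, hyK⟩ := exists_nf α (1 / β) iα.tower_top iy.tower_top
  have : NumberField K := { to_charZero := inferInstance, to_finiteDimensional := hK }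
  refine nf_small (K := K) p hp ⟨α, hαK⟩ ⟨1 / β, hyK⟩ P hW
    (by
      apply Subtype.ext
      rw [← coe_aeval]
      simpa using hα)
    (by
      apply Subtype.ext
      have : (1 / β) * (p : k) = α := by
        rw [← h2]
        field_simp
      simpa using this)
    (by
      obtain ⟨R, hR, hR2⟩ := iy
      refine ⟨R, hR, ?_⟩
      apply Subtype.ext
      rw [← aeval_def, ← coe_aeval]
      simpa [aeval_def] using hR2)

theorem ne_gen (p : ℕ) (hp : p.Prime) (α β u w : k) (h2 : α * β = p) (hu : IsIntegral ℤ u)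
    (hw : IsIntegral ℤ w) (huw : u * (α + β) + w * p = 1) (P : Polynomial ℤ) (hP : P.Monic)
    (hW : ∀ z : ℂ, Polynomial.aeval z P = 0 → ‖z‖ ^ 2 = p) (hα : Polynomial.aeval α P = 0) : α ≠ β := by
  rintro rfl
  have hp0 : (p : k) ≠ 0 := by exact_mod_cast hp.ne_zero
  have hα0 : α ≠ 0 := left_ne_zero_of_mul (h2.symm ▸ hp0)
  have iα : IsIntegral ℤ α := int_root P hP _ hα
  have iy : IsIntegral ℤ (1 / α) := by
    have e : 1 / α = (u + u) + w * α := by
      have e1 : α * ((u + u) + w * α) = 1 := by rw [← huw, ← h2]; ring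
      rw [div_eq_iff hα0]
      linear_combination -e1
    rw [e]
    exact (hu.add hu).add (hw.mul iα)
  obtain ⟨K, hK, hαK, hyK⟩ := exists_nf α (1 / α) iα.tower_top iy.tower_top
  have : NumberField K := { to_charZero := inferInstance, to_finiteDimensional := hK }
  refine nf_small (K := K) p hp ⟨α, hαK⟩ ⟨1 / α, hyK⟩ P hW
    (by
      apply Subtype.ext
      rw [← coe_aeval]
      simpa using hα)
    (by
      apply Subtype.ext
      have : (1 / α) * (p : k) = α := by
        rw [← h2]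
        field_simp
      simpa using this)
    (by
      obtain ⟨R, hR, hR2⟩ := iy
      refine ⟨R, hR, ?_⟩
      apply Subtype.ext
      rw [← aeval_def, ← coe_aeval]
      simpa [aeval_def] using hR2)

end

end Pool.Agent.H40ES
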