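import Mathlib
import Pool.Agent.H40ES.Lin
import Pool.Agent.H40ES.NTG
import Pool.Agent.H40ES.NT1
import Pool.Agent.H40ES.E1
import Pool.Agent.H40ES.E2
import Pool.Agent.H40ES.E3
import Pool.Agent.H40ES.E4
import Pool.Agent.H40ES.E5

/-!
# A common eigenvalue of one generic ordinary element gives a common factor
-/

set_option autoImplicit false
set_option linter.unusedSectionVars false
set_option linter.style.haveILetI false

namespace Pool.Agent.H40ES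

open Matrix Pool.Agent.H40TG Pool.Agent.H40ZL Pool.Agent.H40GO Pool.Agent.H40LT Module MeasureTheory

section

variable {G : Type*} [Field G] [CharZero G] [TopologicalSpace G] [IsTopologicalRing G] [T2Space G] [IsAlgClosed G]
  {Γ : Type*} [Group Γ] [TopologicalSpace Γ] [IsTopologicalGroup Γ] [CompactSpace Γ] [MeasurableSpace Γ]
  [BorelSpace Γ]

/-- the data of a Frobenius element at the prime number `p`: the two-dimensional representation `ρ j0` has the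
characteristic polynomial `X² - aX + p`, with `a` rational or prime to `p`, and the sum of the others has the
characteristic polynomial `P` -/
structure FrobG {s : ℕ} {n : Fin s → ℕ} (ρ : ∀ j, Γ →* Matrix (Fin (n j)) (Fin (n j)) G) (j0 : Fin s) (σ : Γ)
    (p : ℕ) (a : G) (P : Polynomial ℤ) : Prop where
  prime : p.Prime
  cr : (ρ j0 σ).charpoly = Polynomial.X ^ 2 - Polynomial.C a * Polynomial.X + Polynomial.C (p : G)
  ord : (∃ m : ℤ, a = m ∧ m ^ 2 < 4 * p) ∨ (∃ u w : G, IsIntegral ℤ u ∧ IsIntegral ℤ w ∧ u * a + w * p = 1)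
  monic : P.Monic
  cV : ∏ j ∈ Finset.univ.erase j0, (ρ j σ).charpoly = P.map (Int.castRingHom G)
  weil : ∀ z : ℂ, Polynomial.aeval z P = 0 → ‖z‖ ^ 2 = p

theorem frobG_deg {s : ℕ} {n : Fin s → ℕ} {ρ : ∀ j, Γ →* Matrix (Fin (n j)) (Fin (n j)) G} {j0 : Fin s} {σ : Γ}
    {p : ℕ} {a : G} {P : Polynomial ℤ} (h : FrobG ρ j0 σ p a P) : P.natDegree ≤ ∑ j, n j := by
  have h1 := congrArg Polynomial.natDegree h.cV
  rw [Polynomial.natDegree_prod_of_monic _ _ (fun j _ => Matrix.charpoly_monic (ρ j σ)),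
    Polynomial.natDegree_map_eq_of_injective (Int.castRingHom G).injective_int] at h1
  rw [← h1]
  calc ∑ j ∈ Finset.univ.erase j0, (ρ j σ).charpoly.natDegree ≤ ∑ j, (ρ j σ).charpoly.natDegree :=
        Finset.sum_le_sum_of_subset (Finset.erase_subset _ _)
    _ = ∑ j, n j := Finset.sum_congr rfl fun j _ => by rw [Matrix.charpoly_natDegree_eq_dim, Fintype.card_fin]

theorem prodG {s : ℕ} {n : Fin s → ℕ} {ρ : ∀ j, Γ →* Matrix (Fin (n j)) (Fin (n j)) G} {j0 : Fin s} {σ : Γ}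
    {p : ℕ} {a : G} {P : Polynomial ℤ} (h : FrobG ρ j0 σ p a P) (z : G)
    (hz : (∏ j ∈ Finset.univ.erase j0, (ρ j σ).charpoly).eval z = 0) : Polynomial.aeval z P = 0 := by
  rw [h.cV, Polynomial.eval_map] at hz
  rw [Polynomial.aeval_def]
  have h3 : algebraMap ℤ G = Int.castRingHom G := RingHom.ext_int _ _
  rw [h3]
  exact hz

theorem evG {s : ℕ} {n : Fin s → ℕ} {ρ : ∀ j, Γ →* Matrix (Fin (n j)) (Fin (n j)) G} {j0 : Fin s} {σ : Γ}
    {p : ℕ} {a : G} {P : Polynomial ℤ} (h : FrobG ρ j0 σ p a P) (z : G) (hz : EV (blk ρ σ) (prj G j0) z) :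
    Polynomial.aeval z P = 0 := prodG h z (ev_root ρ σ j0 z hz)

/-- all eigenvalues are roots of `P` -/
theorem rootG {s : ℕ} {n : Fin s → ℕ} {ρ : ∀ j, Γ →* Matrix (Fin (n j)) (Fin (n j)) G} {j0 : Fin s} {σ : Γ}
    {p : ℕ} {a : G} {P : Polynomial ℤ} (h : FrobG ρ j0 σ p a P) (α β : G) (h1 : α + β = a) (h2 : α * β = p)
    (hα : Polynomial.aeval α P = 0) (hβ : Polynomial.aeval β P = 0) (z : G) (v : (Σ j, Fin (n j)) → G)
    (hv : v ≠ 0) (hz : blk ρ σ *ᵥ v = z • v) : Polynomial.aeval z (P.map (Int.castRingHom ℚ)) = 0 := by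
  have h0 : Polynomial.aeval z P = 0 := by
    obtain ⟨j, -, hj⟩ := block_root ρ σ z v hv hz
    by_cases hjj : j = j0
    · subst hjj
      rw [h.cr] at hj
      simp only [Polynomial.eval_add, Polynomial.eval_sub, Polynomial.eval_mul, Polynomial.eval_pow,
        Polynomial.eval_X, Polynomial.eval_C] at hj
      have h3 : (z - α) * (z - β) = 0 := by
        rw [← h1, ← h2] at hj
        linear_combination hj
      rcases mul_eq_zero.mp h3 with h4 | h4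
      · rw [sub_eq_zero.mp h4]
        exact hα
      · rw [sub_eq_zero.mp h4]
        exact hβ
    · refine prodG h z ?_
      rw [Polynomial.eval_prod]
      exact Finset.prod_eq_zero (Finset.mem_erase.mpr ⟨hjj, Finset.mem_univ j⟩) hj
  rw [Polynomial.aeval_def, Polynomial.eval₂_map]
  have h3 : (algebraMap ℚ G).comp (Int.castRingHom ℚ) = Int.castRingHom G := RingHom.ext_int _ _
  have h4 : algebraMap ℤ G = Int.castRingHom G := RingHom.ext_int _ _
  rw [h3, ← h4]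
  exact h0

theorem emb_injG {s : ℕ} {n : Fin s → ℕ} (j : Fin s) (w w' : Fin (n j) → G) (h : emb (n := n) j w = emb j w') :
    w = w' := by
  funext i
  rw [← emb_self (n := n) j w i, h, emb_self]

/-- the configuration of a generic Frobenius element -/
theorem cfgG {s : ℕ} {n : Fin s → ℕ} {ρ : ∀ j, Γ →* Matrix (Fin (n j)) (Fin (n j)) G} {j0 : Fin s}
    (hn : n j0 = 2) (hss : SSimple (Set.range (blk ρ))) (Δ : Subgroup Γ) (hΔn : Δ.Normal) (σ : Γ) (hσ : σ ∈ Δ)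
    (g1 : ∀ y ∈ Δ, nd G (psi (blk ρ y)) ≤ nd G (psi (blk ρ σ)))
    (hsem : Module.End.IsSemisimple (Matrix.toLin' (blk ρ σ)))
    (hA : ∀ (c : G) (d : ℕ) (M : Matrix (Σ j, Fin (n j)) (Σ j, Fin (n j)) G), 0 < d → c ^ d = 1 → M ≠ 0 →
      blk ρ σ * M = c • (M * blk ρ σ) → c = 1)
    {p : ℕ} {a : G} {P : Polynomial ℤ} (hF : FrobG ρ j0 σ p a P) (α β : G) (h1 : α + β = a) (h2 : α * β = p)
    (hPα : Polynomial.aeval α P = 0) (hPβ : Polynomial.aeval β P = 0)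
    (wa wb : Fin (n j0) → G) (hwa : wa ≠ 0) (hwb : wb ≠ 0) (hga : ρ j0 σ *ᵥ wa = α • wa)
    (hgb : ρ j0 σ *ᵥ wb = β • wb) :
    Cfg (Set.range (blk ρ)) (tanS (blk ρ '' (Δ : Set Γ))) (blk ρ σ) (prj G j0) α β (emb j0 wa) (emb j0 wb) := by
  have hinv : ∀ x : Γ, blk ρ x * blk ρ x⁻¹ = 1 := fun x => by rw [← map_mul, mul_inv_cancel, map_one]
  have hinv' : ∀ x : Γ, blk ρ x⁻¹ * blk ρ x = 1 := fun x => by rw [← map_mul, inv_mul_cancel, map_one]
  have hunit : IsUnit (blk ρ σ) := ⟨⟨blk ρ σ, blk ρ σ⁻¹, hinv σ, hinv' σ⟩, rfl⟩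
  have hp0 : (p : G) ≠ 0 := Nat.cast_ne_zero.mpr hF.prime.ne_zero
  have hα : α ≠ 0 := left_ne_zero_of_mul (h2.symm ▸ hp0)
  have hβ : β ≠ 0 := right_ne_zero_of_mul (h2.symm ▸ hp0)
  have hga' : blk ρ σ *ᵥ emb j0 wa = α • emb j0 wa := by rw [blk_emb, hga, emb_smul]
  have hgb' : blk ρ σ *ᵥ emb j0 wb = β • emb j0 wb := by rw [blk_emb, hgb, emb_smul]
  have hαβ : α ≠ β := by
    rcases hF.ord with ⟨m, hm, hm2⟩ | ⟨u, w, hu, hw, huw⟩
    · intro h
      have h3 : (m : G) ^ 2 = 4 * (p : G) := by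
        rw [← hm, ← h1, ← h2, h]
        ring
      have h4 : m ^ 2 = 4 * (p : ℤ) := by exact_mod_cast h3
      omega
    · exact ne_gen p hF.prime α β u w h2 hu hw (by rw [h1]; exact huw) P hF.monic hF.weil hPα
  have hne : ∀ d : ℕ, 0 < d → (α / β) ^ d ≠ 1 := by
    intro d hd h
    obtain ⟨T, hT, hT2⟩ := exists_rank_one (blk ρ σ) α β hβ (emb j0 wa) (emb_ne0 j0 wa hwa) hga'
      (eval_zero _ β _ (emb_ne0 j0 wb hwb) hgb')
    have h3 := hA (α / β) d T hd h hT hT2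
    exact hαβ ((div_eq_one_iff_eq hβ).mp h3)
  obtain ⟨u, w, hu, hw, huw⟩ : ∃ u w : G, IsIntegral ℤ u ∧ IsIntegral ℤ w ∧ u * (α + β) + w * p = 1 := by
    rcases hF.ord with ⟨m, hm, hm2⟩ | ⟨u, w, hu, hw, huw⟩
    · have hpa : ¬ (p : ℤ) ∣ m := by
        intro hdvd
        obtain ⟨d, hd, h3⟩ := ratio_unity p hF.prime m hm2 hdvd α β (h1.trans hm) h2
        exact hne d hd h3
      have hco : IsCoprime (p : ℤ) m := (Nat.prime_iff_prime_int.1 hF.prime).coprime_iff_not_dvd.2 hpa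
      obtain ⟨w, u, h⟩ := hco
      have iz : ∀ m : ℤ, IsIntegral ℤ (m : G) := fun m => by
        simpa using (isIntegral_algebraMap (R := ℤ) (A := G) (x := m))
      refine ⟨u, w, iz u, iz w, ?_⟩
      rw [h1, hm, add_comm]
      exact_mod_cast h
    · exact ⟨u, w, hu, hw, by rw [h1]; exact huw⟩
  have huw' : u * (β + α) + w * p = 1 := by rw [add_comm β α]; exact huw
  have h2' : β * α = p := by rw [mul_comm]; exact h2
  exact
    { set := setup_tan (blk ρ) hss Δ (hDn := hΔn)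
      mem := ⟨σ, rfl⟩
      sem := hsem
      single := fun X hX => single_of_max (blk ρ '' (Δ : Set Γ)) (blk ρ σ) ⟨σ, hσ, rfl⟩ hunit (by
        rintro _ ⟨x, hx, rfl⟩
        exact g1 x hx) X hX
      root := hA
      idem := prj_idem j0
      comm := by
        rintro _ ⟨x, rfl⟩
        exact (prj_comm ρ x j0).symm
      a0 := emb_ne0 j0 wa hwa
      b0 := emb_ne0 j0 wb hwb
      ea := prj_emb j0 wa
      eb := prj_emb j0 wb
      ga := hga'
      gb := hgb'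
      α0 := hα
      β0 := hβ
      ne := hne
      span := by
        intro w hw
        rw [prj_mulVec] at hw
        obtain ⟨x, y, hxy⟩ := span_two hn (ρ j0 σ) α β hαβ wa wb hwa hwb hga hgb (fun i => w ⟨j0, i⟩)
        refine ⟨x, y, ?_⟩
        rw [← hw, hxy, emb_add, emb_smul, emb_smul]
      num1 := fun c hc e1 e2 => unity_gen p hF.prime α β c u w h2 hu hw huw P hF.monic hF.weil hPα hc
        (evG hF _ e1) (evG hF _ e2)
      num2 := fun c hc e1 e2 => unity_gen p hF.prime β α c u w h2' hu hw huw' P hF.monic hF.weil hPβ hc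
        (evG hF _ e1) (evG hF _ e2)
      int1 := fun h => not_root_gen p hF.prime α β u w h2 hu hw huw P hF.monic hF.weil hPα (evG hF _ h)
      int2 := fun h => not_root_gen p hF.prime β α u w h2' hu hw huw' P hF.monic hF.weil hPβ (evG hF _ h) }

/-- **A common eigenvalue of one generic element gives a common factor.** -/
theorem factorG (μ : Measure Γ) [IsFiniteMeasure μ] [μ.IsMulLeftInvariant] [μ.InnerRegularCompactLTTop]
    {s : ℕ} (n : Fin s → ℕ) (ρ : ∀ j, Γ →* Matrix (Fin (n j)) (Fin (n j)) G)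
    (hρ : ∀ j, Continuous (ρ j)) (hirr : ∀ j, Irr (ρ j)) (j0 : Fin s) (hn : n j0 = 2)
    (hLie : ∀ U : Subgroup Γ, IsOpen (U : Set Γ) → ∀ W : Submodule G (Fin (n j0) → G),
      (∀ x ∈ U, ∀ w ∈ W, ρ j0 x *ᵥ w ∈ W) → W = ⊥ ∨ W = ⊤)
    (S : Set Γ) (hS : ∀ σ ∈ S, ∃ p a P, FrobG ρ j0 σ p a P) :
    ∃ Δ : Subgroup Γ, Δ.Normal ∧ IsOpen (Δ : Set Γ) ∧ (Rigid (blk ρ) ⊤ → Δ = ⊤) ∧
      ∃ Z : Set Γ, IsClosed Z ∧ μ Z = 0 ∧ (∀ x ∈ Z, ∀ τ, τ * x * τ⁻¹ ∈ Z) ∧ ∀ σ ∈ S, σ ∈ Δ → σ ∉ Z →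
        ∀ z : G, (ρ j0 σ).charpoly.eval z = 0 → (∏ j ∈ Finset.univ.erase j0, (ρ j σ).charpoly).eval z = 0 →
          ∃ B : Matrix (Σ j, Fin (n j)) (Σ j, Fin (n j)) G, B ≠ 0 ∧ B * prj G j0 = B ∧ prj G j0 * B = 0 ∧
            ∀ x ∈ Δ, blk ρ x * B = B * blk ρ x := by
  classical
  have hQ : Continuous (blk ρ) := by
    have := cont_blk (F := G) (G := G) continuous_id ρ hρ
    rwa [bc_self] at this
  obtain ⟨Δ, hΔn, hΔo, hΔ, hΔt⟩ := exists_delta (blk ρ) hQ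
  have hss : SSimple (Set.range (blk ρ)) := ssimple_blk ρ (fun j => (hirr j).2)
  obtain ⟨b, hb⟩ : ∃ b, b = ∑ j, n j := ⟨_, rfl⟩
  obtain ⟨N, hN⟩ : ∃ N, N = expo (b * b) := ⟨_, rfl⟩
  have hN0 : 0 < N := by
    rw [hN]
    exact Nat.pos_of_ne_zero (expo_ne_zero _)
  have hinv : ∀ x : Γ, blk ρ x * blk ρ x⁻¹ = 1 := fun x => by rw [← map_mul, mul_inv_cancel, map_one]
  have hinv' : ∀ x : Γ, blk ρ x⁻¹ * blk ρ x = 1 := fun x => by rw [← map_mul, inv_mul_cancel, map_one]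
  have hunit : ∀ x : Γ, IsUnit (blk ρ x) := fun x => ⟨⟨blk ρ x, blk ρ x⁻¹, hinv x, hinv' x⟩, rfl⟩
  have hset := setup_tan (blk ρ) hss Δ (hDn := hΔn)
  obtain ⟨Z, hZ1, hZ2, hZ3, hZ4⟩ := generic_all μ n ρ hρ hirr Δ hΔn hΔo hΔ N hN0
  obtain ⟨Z', hZ'1, hZ'2, hZ'3, hZ'4⟩ := generic_comm μ (blk ρ) hQ Δ hΔn hΔo hΔ (tanS (blk ρ '' (Δ : Set Γ)))
    (fun X hX x => hset.conj _ ⟨x, rfl⟩ _ ⟨x⁻¹, rfl⟩ (hinv x) X hX)
  refine ⟨Δ, hΔn, hΔo, hΔt, Z ∪ Z', hZ1.union hZ'1, measure_union_null hZ2 hZ'2, ?_, ?_⟩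
  · rintro x (hx | hx) τ
    · exact Or.inl (hZ3 x hx τ)
    · exact Or.inr (hZ'3 x hx τ)
  intro σ hσS hσ hσZ z hz1 hz2
  obtain ⟨g1, g2, g3, g4⟩ := hZ4 σ hσ (fun h => hσZ (Or.inl h))
  have hcom := hZ'4 σ hσ (fun h => hσZ (Or.inr h))
  obtain ⟨p, a, P, hF⟩ := hS σ hσS
  have hp0 : (p : G) ≠ 0 := Nat.cast_ne_zero.mpr hF.prime.ne_zero
  -- the eigenvalues of `ρ j0 σ`
  obtain ⟨wa, hwa, hga⟩ := exists_vec (ρ j0 σ) z hz1
  have hz1' : z ^ 2 - a * z + p = 0 := by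
    have h := hz1
    rw [hF.cr] at h
    simpa using h
  obtain ⟨wb, hwb, hgb⟩ := exists_vec (ρ j0 σ) (a - z) (by
    rw [hF.cr]
    simp only [Polynomial.eval_add, Polynomial.eval_sub, Polynomial.eval_mul, Polynomial.eval_pow, Polynomial.eval_X,
      Polynomial.eval_C]
    linear_combination hz1')
  obtain ⟨β, hβ⟩ : ∃ β : G, β = a - z := ⟨_, rfl⟩
  rw [← hβ] at hgb
  have hsum : z + β = a := by rw [hβ]; ring
  have hprod : z * β = p := by rw [hβ]; linear_combination -hz1'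
  have hz0 : z ≠ 0 := left_ne_zero_of_mul (hprod.symm ▸ hp0)
  have hPz : Polynomial.aeval z P = 0 := prodG hF z hz2
  have hPβ : Polynomial.aeval β P = 0 := by
    have h := dual_root p hF.prime P hF.monic hF.weil z hPz
    have e : (p : G) / z = β := by
      rw [← hprod]
      field_simp
    rwa [e] at h
  obtain ⟨p1, p2⟩ := pow_inj (blk ρ σ) (hunit σ) N hN0 g2
  have hsem : Module.End.IsSemisimple (Matrix.toLin' (blk ρ σ)) :=
    semisimple_of_max (G := G) (blk ρ) hss Δ (hDn := hΔn) σ hσ g3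
  have hA : ∀ (c : G) (d : ℕ) (M : Matrix (Σ j, Fin (n j)) (Σ j, Fin (n j)) G), 0 < d → c ^ d = 1 → M ≠ 0 →
      blk ρ σ * M = c • (M * blk ρ σ) → c = 1 := by
    intro c d M hd hcd hM h
    obtain ⟨x, y, ⟨v, hv, hxv⟩, ⟨w, hw, hyw⟩, hc⟩ := ratio_exists (blk ρ σ) hsem (hunit σ) c M hM h
    refine p1 c M hM h ?_
    rw [hN, hc]
    rw [hc] at hcd
    refine (ratio_expo (P.map (Int.castRingHom ℚ)) (hF.monic.map _).ne_zero b ?_ x y
      (rootG hF z β hsum hprod hPz hPβ x v hv hxv) (rootG hF z β hsum hprod hPz hPβ y w hw hyw) d hd).1 hcd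
    rw [hb]
    exact Polynomial.natDegree_map_le.trans (frobG_deg hF)
  -- the commutant of the Lie algebra
  have hgc : ∀ B, (∀ X ∈ tanS (blk ρ '' (Δ : Set Γ)), X * B = B * X) → blk ρ σ * B = B * blk ρ σ := by
    intro B hB
    refine comm_g (blk ρ σ) (blk ρ σ⁻¹) (hinv σ) hsem (tanS (blk ρ '' (Δ : Set Γ)))
      (fun X hX => hset.conj _ ⟨σ⁻¹, rfl⟩ _ ⟨σ, rfl⟩ (hinv' σ) X hX) hA ?_ B hB
    intro φ
    obtain ⟨X, hX, hX2⟩ := tangent_phi (blk ρ '' (Δ : Set Γ)) (blk ρ σ) (by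
      rintro _ ⟨y, hy, rfl⟩ i
      exact ⟨y * σ ^ i, Δ.mul_mem hy (Δ.pow_mem hσ i), by rw [map_mul, map_pow]⟩) (hunit σ) hsem φ
    exact ⟨X, hX, hX2⟩
  have hcom' := hcom hgc
  have cfg := cfgG hn hss Δ hΔn σ hσ g1 hsem hA hF z β hsum hprod hPz hPβ wa wb hwa hwb hga hgb
  -- `L` commutes with the projector
  have hLe : ∀ X ∈ tanS (blk ρ '' (Δ : Set Γ)), X * prj G j0 = prj G j0 * X := by
    intro X hX
    have h1 := hset.span hX
    clear hX
    induction h1 using Submodule.span_induction with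
    | mem x hx =>
      obtain ⟨y, rfl⟩ := hx
      exact (prj_comm ρ y j0).symm
    | zero => rw [zero_mul, mul_zero]
    | add a b _ _ ha hb => rw [add_mul, mul_add, ha, hb]
    | smul c a _ ha => rw [smul_mul_assoc, mul_smul_comm, ha]
  obtain ⟨X₀, hX₀, hne⟩ : ∃ X₀ ∈ tanS (blk ρ '' (Δ : Set Γ)),
      (blk ρ σ * X₀ - X₀ * blk ρ σ) * prj G j0 ≠ 0 := by
    by_contra hcon
    push Not at hcon
    have h1 : ∀ X ∈ tanS (blk ρ '' (Δ : Set Γ)), X * (blk ρ σ * prj G j0) = (blk ρ σ * prj G j0) * X := by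
      intro X hX
      have h2 := hcon X hX
      rw [sub_mul, sub_eq_zero] at h2
      rw [← mul_assoc, ← h2, mul_assoc, mul_assoc, hLe X hX]
    have h3 := hcom' _ h1
    obtain ⟨W, hW⟩ : ∃ W : Submodule G (Fin (n j0) → G), ∀ w, w ∈ W ↔ ρ j0 σ *ᵥ w = z • w := by
      refine ⟨LinearMap.ker (Matrix.toLin' (ρ j0 σ) - z • 1), fun w => ?_⟩
      rw [LinearMap.mem_ker, LinearMap.sub_apply, Matrix.toLin'_apply, sub_eq_zero]
      rfl
    have h4 : ∀ x ∈ Δ, ∀ w ∈ W, ρ j0 x *ᵥ w ∈ W := by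
      intro x hx w hw
      rw [hW] at hw ⊢
      apply emb_injG (n := n) j0
      have h5 := congrArg (fun M => M *ᵥ emb (n := n) j0 w) (h3 x hx)
      simp only [← Matrix.mulVec_mulVec] at h5
      rw [prj_emb, blk_emb, blk_emb, blk_emb, prj_emb, blk_emb, hw] at h5
      rw [← h5, Matrix.mulVec_smul]
    rcases hLie Δ hΔo W h4 with h5 | h5
    · have h6 : wa ∈ W := (hW wa).2 hga
      rw [h5, Submodule.mem_bot] at h6
      exact hwa h6
    · have h6 : wb ∈ W := by rw [h5]; exact Submodule.mem_top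
      rw [hW, hgb] at h6
      have h7 : (β - z) • wb = 0 := by rw [sub_smul, h6, sub_self]
      rcases smul_eq_zero.mp h7 with h8 | h8
      · apply cfg.ne 1 one_pos
        rw [pow_one, div_eq_one_iff_eq cfg.β0]
        exact (sub_eq_zero.mp h8).symm
      · exact hwb h8
  obtain ⟨E, F, H, hT⟩ := exists_trip cfg X₀ hX₀ hne
  -- the common eigenvalue
  obtain ⟨v, hv, hv1, hv2⟩ : ∃ v : (Σ j, Fin (n j)) → G, v ≠ 0 ∧ prj G j0 *ᵥ v = 0 ∧ blk ρ σ *ᵥ v = z • v := by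
    rw [Polynomial.eval_prod] at hz2
    obtain ⟨j, hj, hj2⟩ := Finset.prod_eq_zero_iff.mp hz2
    obtain ⟨w, hw, hw2⟩ := exists_vec (ρ j σ) z hj2
    refine ⟨emb j w, emb_ne0 j w hw, ?_, by rw [blk_emb, hw2, emb_smul]⟩
    rw [prj_mulVec]
    have h1 : (fun i => emb (n := n) j w ⟨j0, i⟩) = 0 := by
      funext i
      exact emb_ne _ _ (Ne.symm (Finset.ne_of_mem_erase hj)) w i
    rw [h1]
    have := emb_smul (n := n) j0 (0 : G) (0 : Fin (n j0) → G)
    rwa [zero_smul, zero_smul] at this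
  have s1 := fun (T : Matrix (Σ j, Fin (n j)) (Σ j, Fin (n j)) G) hT hc μ t v w hv hw hw0 ht =>
    scal cfg T hT hc μ t v w hv hw hw0 ht
  have s2 := fun (X : Matrix (Σ j, Fin (n j)) (Σ j, Fin (n j)) G) hX hXe v hev hv => kill s1 cfg X hX hXe v hev hv
  obtain ⟨B, hB0, hB1, hB2, hB3⟩ := graph s1 s2 cfg E F H hT v hv hv1 hv2
  exact ⟨B, hB0, hB1, hB2, fun x hx => hcom' B hB3 x hx⟩

end

end Pool.Agent.H40ES
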