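import Mathlib
import Pool.Agent.H40ES.AsmG

/-!
# A common eigenvalue of one generic element gives a common factor: the form with a given subgroup
-/

set_option autoImplicit false
set_option linter.unusedSectionVars false
set_option linter.style.haveILetI false

namespace Pool.Agent.H40ES

open Matrix Pool.Agent.H40TG Pool.Agent.H40ZL Pool.Agent.H40GO Pool.Agent.H40LT Module MeasureTheory

section

variable {G : Type*} [Field G] [CharZero G] [TopologicalSpace G] [IsTopologicalRing G] [T2Space G] [IsAlgClosed G]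
  {Γ : Type*} [Group Γ] [TopologicalSpace Γ] [IsTopologicalGroup Γ] [CompactSpace Γ] [MeasurableSpace Γ]
  [BorelSpace Γ]

/-- **A common eigenvalue of one generic element gives a common factor.** -/
theorem factorH (μ : Measure Γ) [IsFiniteMeasure μ] [μ.IsMulLeftInvariant] [μ.InnerRegularCompactLTTop]
    {s : ℕ} (n : Fin s → ℕ) (ρ : ∀ j, Γ →* Matrix (Fin (n j)) (Fin (n j)) G)
    (hρ : ∀ j, Continuous (ρ j)) (hirr : ∀ j, Irr (ρ j)) (j0 : Fin s) (hn : n j0 = 2)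
    (hLie : ∀ U : Subgroup Γ, IsOpen (U : Set Γ) → ∀ W : Submodule G (Fin (n j0) → G),
      (∀ x ∈ U, ∀ w ∈ W, ρ j0 x *ᵥ w ∈ W) → W = ⊥ ∨ W = ⊤)
    (S : Set Γ) (hS : ∀ σ ∈ S, ∃ p a P, FrobG ρ j0 σ p a P)
    (Δ : Subgroup Γ) (hΔn : Δ.Normal) (hΔo : IsOpen (Δ : Set Γ)) (hΔ : ConnOn (coefAlg (blk ρ) 1) Δ) :
      ∃ Z : Set Γ, IsClosed Z ∧ μ Z = 0 ∧ (∀ x ∈ Z, ∀ τ, τ * x * τ⁻¹ ∈ Z) ∧ ∀ σ ∈ S, σ ∈ Δ → σ ∉ Z →
        ∀ z : G, (ρ j0 σ).charpoly.eval z = 0 → (∏ j ∈ Finset.univ.erase j0, (ρ j σ).charpoly).eval z = 0 →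
          ∃ B : Matrix (Σ j, Fin (n j)) (Σ j, Fin (n j)) G, B ≠ 0 ∧ B * prj G j0 = B ∧ prj G j0 * B = 0 ∧
            ∀ x ∈ Δ, blk ρ x * B = B * blk ρ x := by
  classical
  have hQ : Continuous (blk ρ) := by
    have := cont_blk (F := G) (G := G) continuous_id ρ hρ
    rwa [bc_self] at this
  have hss : SSimple (Set.range (blk ρ)) := ssimple_blk ρ (fun j => (hirr j).2)
  obtain ⟨b, hb⟩ : ∃ b, b = ∑ j, n j := ⟨_, rfl⟩
  obtain ⟨N, hN⟩ : ∃ N, N = expo (b * b) := ⟨_, rfl⟩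
  have hN0 : 0 < N := by
    rw [hN]
    exact Nat.pos_of_ne_zero (expo_ne_zero _)
  have hinv : ∀ x : Γ, blk ρ x * blk ρ x⁻¹ = 1 := fun x => by rw [← map_mul, mul_inv_cancel, map_one]
  have hinv' : ∀ x : Γ, blk ρ x⁻¹ * blk ρ x = 1 := fun x => by rw [← map_mul, inv_mul_cancel, map_one]
  have hunit : ∀ x : Γ, IsUnit (blk ρ x) := fun x => ⟨⟨blk ρ x, blk ρ x⁻¹, hinv x, hinv' x⟩, rfl⟩
  have hset := setup_tan (blk ρ) hss Δ (hDn := hΔn)
  obtain ⟨Z, hZ1, hZ2, hZ3, hZ4⟩ := generic_all μ n ρ hρ hirr Δ hΔn hΔo hΔ N hN0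
  obtain ⟨Z', hZ'1, hZ'2, hZ'3, hZ'4⟩ := generic_comm μ (blk ρ) hQ Δ hΔn hΔo hΔ (tanS (blk ρ '' (Δ : Set Γ)))
    (fun X hX x => hset.conj _ ⟨x, rfl⟩ _ ⟨x⁻¹, rfl⟩ (hinv x) X hX)
  refine ⟨Z ∪ Z', hZ1.union hZ'1, measure_union_null hZ2 hZ'2, ?_, ?_⟩
  · rintro x (hx | hx) τ
    · exact Or.inl (hZ3 x hx τ)
    · exact Or.inr (hZ'3 x hx τ)
  intro σ hσS hσ hσZ z hz1 hz2
  obtain ⟨g1, g2, g3, g4⟩ := hZ4 σ hσ (fun h => hσZ (Or.inl h))
  have hcom := hZ'4 σ hσ (fun h => hσZ (Or.inr h))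
  obtain ⟨p, a, P, hF⟩ := hS σ hσS
  have hp0 : (p : G) ≠ 0 := Nat.cast_ne_zero.mpr hF.prime.ne_zero
  -- the eigenvalues of `ρ j0 σ`
  obtain ⟨wa, hwa, hga⟩ := exists_vec (ρ j0 σ) z hz1
  have hz1' : z ^ 2 - a * z + p = 0 := by
    have h := hz1
    rw [hF.cr] at h
    simpa using h
  obtain ⟨wb, hwb, hgb⟩ := exists_vec (ρ j0 σ) (a - z) (by
    rw [hF.cr]
    simp only [Polynomial.eval_add, Polynomial.eval_sub, Polynomial.eval_mul, Polynomial.eval_pow, Polynomial.eval_X,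
      Polynomial.eval_C]
    linear_combination hz1')
  obtain ⟨β, hβ⟩ : ∃ β : G, β = a - z := ⟨_, rfl⟩
  rw [← hβ] at hgb
  have hsum : z + β = a := by rw [hβ]; ring
  have hprod : z * β = p := by rw [hβ]; linear_combination -hz1'
  have hz0 : z ≠ 0 := left_ne_zero_of_mul (hprod.symm ▸ hp0)
  have hPz : Polynomial.aeval z P = 0 := prodG hF z hz2
  have hPβ : Polynomial.aeval β P = 0 := by
    have h := dual_root p hF.prime P hF.monic hF.weil z hPz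
    have e : (p : G) / z = β := by
      rw [← hprod]
      field_simp
    rwa [e] at h
  obtain ⟨p1, p2⟩ := pow_inj (blk ρ σ) (hunit σ) N hN0 g2
  have hsem : Module.End.IsSemisimple (Matrix.toLin' (blk ρ σ)) :=
    semisimple_of_max (G := G) (blk ρ) hss Δ (hDn := hΔn) σ hσ g3
  have hA : ∀ (c : G) (d : ℕ) (M : Matrix (Σ j, Fin (n j)) (Σ j, Fin (n j)) G), 0 < d → c ^ d = 1 → M ≠ 0 →
      blk ρ σ * M = c • (M * blk ρ σ) → c = 1 := by
    intro c d M hd hcd hM h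
    obtain ⟨x, y, ⟨v, hv, hxv⟩, ⟨w, hw, hyw⟩, hc⟩ := ratio_exists (blk ρ σ) hsem (hunit σ) c M hM h
    refine p1 c M hM h ?_
    rw [hN, hc]
    rw [hc] at hcd
    refine (ratio_expo (P.map (Int.castRingHom ℚ)) (hF.monic.map _).ne_zero b ?_ x y
      (rootG hF z β hsum hprod hPz hPβ x v hv hxv) (rootG hF z β hsum hprod hPz hPβ y w hw hyw) d hd).1 hcd
    rw [hb]
    exact Polynomial.natDegree_map_le.trans (frobG_deg hF)
  -- the commutant of the Lie algebra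
  have hgc : ∀ B, (∀ X ∈ tanS (blk ρ '' (Δ : Set Γ)), X * B = B * X) → blk ρ σ * B = B * blk ρ σ := by
    intro B hB
    refine comm_g (blk ρ σ) (blk ρ σ⁻¹) (hinv σ) hsem (tanS (blk ρ '' (Δ : Set Γ)))
      (fun X hX => hset.conj _ ⟨σ⁻¹, rfl⟩ _ ⟨σ, rfl⟩ (hinv' σ) X hX) hA ?_ B hB
    intro φ
    obtain ⟨X, hX, hX2⟩ := tangent_phi (blk ρ '' (Δ : Set Γ)) (blk ρ σ) (by
      rintro _ ⟨y, hy, rfl⟩ i
      exact ⟨y * σ ^ i, Δ.mul_mem hy (Δ.pow_mem hσ i), by rw [map_mul, map_pow]⟩) (hunit σ) hsem φ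
    exact ⟨X, hX, hX2⟩
  have hcom' := hcom hgc
  have cfg := cfgG hn hss Δ hΔn σ hσ g1 hsem hA hF z β hsum hprod hPz hPβ wa wb hwa hwb hga hgb
  -- `L` commutes with the projector
  have hLe : ∀ X ∈ tanS (blk ρ '' (Δ : Set Γ)), X * prj G j0 = prj G j0 * X := by
    intro X hX
    have h1 := hset.span hX
    clear hX
    induction h1 using Submodule.span_induction with
    | mem x hx =>
      obtain ⟨y, rfl⟩ := hx
      exact (prj_comm ρ y j0).symm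
    | zero => rw [zero_mul, mul_zero]
    | add a b _ _ ha hb => rw [add_mul, mul_add, ha, hb]
    | smul c a _ ha => rw [smul_mul_assoc, mul_smul_comm, ha]
  obtain ⟨X₀, hX₀, hne⟩ : ∃ X₀ ∈ tanS (blk ρ '' (Δ : Set Γ)),
      (blk ρ σ * X₀ - X₀ * blk ρ σ) * prj G j0 ≠ 0 := by
    by_contra hcon
    push Not at hcon
    have h1 : ∀ X ∈ tanS (blk ρ '' (Δ : Set Γ)), X * (blk ρ σ * prj G j0) = (blk ρ σ * prj G j0) * X := by
      intro X hX
      have h2 := hcon X hX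
      rw [sub_mul, sub_eq_zero] at h2
      rw [← mul_assoc, ← h2, mul_assoc, mul_assoc, hLe X hX]
    have h3 := hcom' _ h1
    obtain ⟨W, hW⟩ : ∃ W : Submodule G (Fin (n j0) → G), ∀ w, w ∈ W ↔ ρ j0 σ *ᵥ w = z • w := by
      refine ⟨LinearMap.ker (Matrix.toLin' (ρ j0 σ) - z • 1), fun w => ?_⟩
      rw [LinearMap.mem_ker, LinearMap.sub_apply, Matrix.toLin'_apply, sub_eq_zero]
      rfl
    have h4 : ∀ x ∈ Δ, ∀ w ∈ W, ρ j0 x *ᵥ w ∈ W := by
      intro x hx w hw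
      rw [hW] at hw ⊢
      apply emb_injG (n := n) j0
      have h5 := congrArg (fun M => M *ᵥ emb (n := n) j0 w) (h3 x hx)
      simp only [← Matrix.mulVec_mulVec] at h5
      rw [prj_emb, blk_emb, blk_emb, blk_emb, prj_emb, blk_emb, hw] at h5
      rw [← h5, Matrix.mulVec_smul]
    rcases hLie Δ hΔo W h4 with h5 | h5
    · have h6 : wa ∈ W := (hW wa).2 hga
      rw [h5, Submodule.mem_bot] at h6
      exact hwa h6
    · have h6 : wb ∈ W := by rw [h5]; exact Submodule.mem_top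
      rw [hW, hgb] at h6
      have h7 : (β - z) • wb = 0 := by rw [sub_smul, h6, sub_self]
      rcases smul_eq_zero.mp h7 with h8 | h8
      · apply cfg.ne 1 one_pos
        rw [pow_one, div_eq_one_iff_eq cfg.β0]
        exact (sub_eq_zero.mp h8).symm
      · exact hwb h8
  obtain ⟨E, F, H, hT⟩ := exists_trip cfg X₀ hX₀ hne
  -- the common eigenvalue
  obtain ⟨v, hv, hv1, hv2⟩ : ∃ v : (Σ j, Fin (n j)) → G, v ≠ 0 ∧ prj G j0 *ᵥ v = 0 ∧ blk ρ σ *ᵥ v = z • v := by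
    rw [Polynomial.eval_prod] at hz2
    obtain ⟨j, hj, hj2⟩ := Finset.prod_eq_zero_iff.mp hz2
    obtain ⟨w, hw, hw2⟩ := exists_vec (ρ j σ) z hj2
    refine ⟨emb j w, emb_ne0 j w hw, ?_, by rw [blk_emb, hw2, emb_smul]⟩
    rw [prj_mulVec]
    have h1 : (fun i => emb (n := n) j w ⟨j0, i⟩) = 0 := by
      funext i
      exact emb_ne _ _ (Ne.symm (Finset.ne_of_mem_erase hj)) w i
    rw [h1]
    have := emb_smul (n := n) j0 (0 : G) (0 : Fin (n j0) → G)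
    rwa [zero_smul, zero_smul] at this
  have s1 := fun (T : Matrix (Σ j, Fin (n j)) (Σ j, Fin (n j)) G) hT hc μ t v w hv hw hw0 ht =>
    scal cfg T hT hc μ t v w hv hw hw0 ht
  have s2 := fun (X : Matrix (Σ j, Fin (n j)) (Σ j, Fin (n j)) G) hX hXe v hev hv => kill s1 cfg X hX hXe v hev hv
  obtain ⟨B, hB0, hB1, hB2, hB3⟩ := graph s1 s2 cfg E F H hT v hv hv1 hv2
  exact ⟨B, hB0, hB1, hB2, fun x hx => hcom' B hB3 x hx⟩

end

end Pool.Agent.H40ES
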