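import Mathlib
import Pool.Agent.H40ES.AsmH

/-!
# Tangent vectors which are zero on the other blocks
-/

set_option autoImplicit false
set_option linter.unusedSectionVars false
set_option linter.style.haveILetI false

namespace Pool.Agent.H40ES

open Matrix Pool.Agent.H40TG Pool.Agent.H40ZL Pool.Agent.H40GO Pool.Agent.H40LT Module MeasureTheory

section

variable {k : Type*} [Field k] {I : Type*} [Fintype I] [DecidableEq I]

theorem evm_one_genD_X (X : Matrix I I k) (q : I × I) :
    evm (1 : Matrix I I k) (genD X (MvPolynomial.X q)) = X q.1 q.2 := by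
  unfold genD evm
  rw [MvPolynomial.mkDerivation_X, map_sum, Finset.sum_eq_single q.1]
  · simp
  · intro l _ hl
    simp [Matrix.one_apply_ne (Ne.symm hl)]
  · intro h
    exact absurd (Finset.mem_univ _) h

theorem evm_one_genD_mul (X : Matrix I I k) (P Q : MvPolynomial (I × I) k) :
    evm (1 : Matrix I I k) (genD X (P * Q)) =
      evm 1 (genD X P) * evm 1 Q + evm 1 P * evm 1 (genD X Q) := by
  rw [Derivation.leibniz, map_add, smul_eq_mul, smul_eq_mul, map_mul, map_mul]
  ring

/-- the derivative of a polynomial in variables where `X` is zero -/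
theorem evm_one_genD_rename {J : Type*} (ι : J → I × I) (X : Matrix I I k) (hX : ∀ q, X (ι q).1 (ι q).2 = 0)
    (P : MvPolynomial J k) : evm (1 : Matrix I I k) (genD X (MvPolynomial.rename ι P)) = 0 := by
  induction P using MvPolynomial.induction_on with
  | C a =>
    rw [MvPolynomial.rename_C]
    have h : genD X (MvPolynomial.C a) = 0 := by
      have := (genD X).map_algebraMap a
      exact this
    rw [h, map_zero]
  | add P Q hP hQ => rw [map_add, map_add, map_add, hP, hQ, add_zero]
  | mul_X P q hP =>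
    rw [map_mul, evm_one_genD_mul, hP, zero_mul, zero_add, MvPolynomial.rename_X, evm_one_genD_X, hX, mul_zero]

theorem evm_rename {J : Type*} (ι : J → I × I) (x : Matrix I I k) (P : MvPolynomial J k) :
    evm x (MvPolynomial.rename ι P) = MvPolynomial.eval (fun q => x (ι q).1 (ι q).2) P := by
  unfold evm
  rw [MvPolynomial.aeval_rename, MvPolynomial.aeval_eq_eval]
  rfl

/-- a tangent vector which is zero in the variables `ι` is zero in the other variables too, if the products of these are
rational functions of the variables `ι` -/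
theorem tangent_zero_of_rational (S : Set (Matrix I I k)) (h1 : (1 : Matrix I I k) ∈ S) [CharZero k] {J : Type*}
    (ι : J → I × I) (X : Matrix I I k) (hT : IsTangent S X) (hX : ∀ q, X (ι q).1 (ι q).2 = 0) (M : Set I)
    (hR : ∀ i ∈ M, ∀ j ∈ M, ∀ i' ∈ M, ∀ j' ∈ M, ∃ A B : MvPolynomial J k,
      MvPolynomial.eval (fun q => (1 : Matrix I I k) (ι q).1 (ι q).2) A ≠ 0 ∧ ∀ x ∈ S,
        x i j * x i' j' * MvPolynomial.eval (fun q => x (ι q).1 (ι q).2) A =
          MvPolynomial.eval (fun q => x (ι q).1 (ι q).2) B) :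
    ∀ i ∈ M, ∀ j ∈ M, X i j = 0 := by
  have key : ∀ i ∈ M, ∀ j ∈ M, ∀ i' ∈ M, ∀ j' ∈ M,
      X i j * (1 : Matrix I I k) i' j' + (1 : Matrix I I k) i j * X i' j' = 0 := by
    intro i hi j hj i' hi' j' hj'
    obtain ⟨A, B, hA, hAB⟩ := hR i hi j hj i' hi' j' hj'
    have h2 := hT (MvPolynomial.X (i, j) * MvPolynomial.X (i', j') * MvPolynomial.rename ι A -
      MvPolynomial.rename ι B) (by
        intro x hx
        have h3 := hAB x hx
        rw [map_sub, map_mul, map_mul, evm_rename, evm_rename, ← h3]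
        unfold evm
        rw [MvPolynomial.aeval_X, MvPolynomial.aeval_X, sub_self]) 1 h1
    rw [map_sub, map_sub, evm_one_genD_mul, evm_one_genD_mul, evm_one_genD_rename ι X hX, evm_one_genD_rename ι X hX,
      evm_one_genD_X, evm_one_genD_X, mul_zero, add_zero, sub_zero, evm_rename] at h2
    have h4 := (mul_eq_zero.mp h2).resolve_right hA
    have h5 : ∀ q : I × I, evm (1 : Matrix I I k) (MvPolynomial.X q) = (1 : Matrix I I k) q.1 q.2 := fun q => by
      unfold evm
      rw [MvPolynomial.aeval_X]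
    rw [h5, h5] at h4
    exact h4
  intro i hi j hj
  by_cases hij : i = j
  · subst hij
    have h2 := key i hi i hi i hi i hi
    rw [Matrix.one_apply_eq, mul_one, one_mul, ← two_mul] at h2
    exact (mul_eq_zero.mp h2).resolve_left two_ne_zero
  · have h2 := key i hi j hj i hi i hi
    rw [Matrix.one_apply_eq, mul_one, Matrix.one_apply_ne hij, zero_mul, add_zero] at h2
    exact h2

end

section

variable {G : Type*} [Field G] [CharZero G] [TopologicalSpace G] [IsTopologicalRing G] [T2Space G] [IsAlgClosed G]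
  {Γ : Type*} [Group Γ] [TopologicalSpace Γ] [IsTopologicalGroup Γ] [CompactSpace Γ] [MeasurableSpace Γ]
  [BorelSpace Γ]

omit [CharZero G] [TopologicalSpace G] [IsTopologicalRing G] [T2Space G] [IsAlgClosed G] [TopologicalSpace Γ]
  [IsTopologicalGroup Γ] [CompactSpace Γ] [MeasurableSpace Γ] [BorelSpace Γ] in
theorem evm_mem {p : Type*} [Fintype p] [DecidableEq p] (Q : Γ →* Matrix p p G) (P : MvPolynomial (p × p) G) :
    (fun y => evm (Q y) P) ∈ coefAlg Q 1 := by
  obtain ⟨R, hR⟩ : ∃ R, R = coefAlg Q 1 := ⟨_, rfl⟩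
  have hmem : ∀ i j, (fun x => Q x i j) ∈ R := by
    intro i j
    rw [hR]
    exact mem1 Q 1 i j
  rw [← hR]
  induction P using MvPolynomial.induction_on with
  | C a =>
    have e : (fun y => evm (Q y) (MvPolynomial.C a)) = algebraMap G (Γ → G) a := by
      funext y
      exact MvPolynomial.aeval_C _ a
    rw [e]
    exact R.algebraMap_mem a
  | add P₁ P₂ h1 h2 =>
    have e : (fun y => evm (Q y) (P₁ + P₂)) = (fun y => evm (Q y) P₁) + fun y => evm (Q y) P₂ := by
      funext y
      exact map_add _ _ _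
    rw [e]
    exact R.add_mem h1 h2
  | mul_X P₁ q h1 =>
    have e : (fun y => evm (Q y) (P₁ * MvPolynomial.X q)) = (fun y => evm (Q y) P₁) * fun y => Q y q.1 q.2 := by
      funext y
      change evm (Q y) (P₁ * MvPolynomial.X q) = evm (Q y) P₁ * Q y q.1 q.2
      rw [map_mul]
      unfold evm
      rw [MvPolynomial.aeval_X]
    rw [e]
    exact R.mul_mem h1 (hmem _ _)

/-- polynomial relations on an open subgroup hold on `Δ` -/
theorem rel_extend (μ : Measure Γ) [IsFiniteMeasure μ] [μ.IsMulLeftInvariant] [μ.InnerRegularCompactLTTop]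
    [μ.IsOpenPosMeasure] {p : Type*} [Fintype p] [DecidableEq p] (Q : Γ →* Matrix p p G) (hQ : Continuous Q)
    (Δ : Subgroup Γ) (hΔo : IsOpen (Δ : Set Γ)) (hΔ : ConnOn (coefAlg Q 1) Δ) (P : MvPolynomial (p × p) G)
    (U : Subgroup Γ) (hU : IsOpen (U : Set Γ)) (h : ∀ x ∈ U, evm (Q x) P = 0) : ∀ x ∈ Δ, evm (Q x) P = 0 := by
  intro x hx
  by_contra hne
  have hf := evm_mem Q P
  obtain ⟨-, h2⟩ := fun_null Q hQ μ Δ hΔo hΔ _ hf x hx hne
  have h3 : IsOpen ((U : Set Γ) ∩ (Δ : Set Γ)) := hU.inter hΔo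
  have h4 : μ ((U : Set Γ) ∩ (Δ : Set Γ)) = 0 := by
    refine measure_mono_null ?_ h2
    rintro y ⟨hy1, hy2⟩
    exact ⟨h y hy1, hy2⟩
  have h5 := (h3.measure_eq_zero_iff μ).mp h4
  have h6 : (1 : Γ) ∈ (U : Set Γ) ∩ (Δ : Set Γ) := ⟨U.one_mem, Δ.one_mem⟩
  rw [h5] at h6
  exact h6

end

end Pool.Agent.H40ES
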