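import Mathlib
import Pool.Agent.H40ES.Tan

/-!
# The tensor category of an abelian variety
-/

set_option autoImplicit false
set_option linter.unusedSectionVars false
set_option linter.style.haveILetI false

namespace Pool.Agent.H40ES

open Matrix Pool.Agent.H40TG Pool.Agent.H40ZL Pool.Agent.H40GO Pool.Agent.H40LT Module MeasureTheory

theorem unity_pair {k : Type*} [Field k] [CharZero k] (p : ℕ) (hp : p.Prime) (α β c u w : k) (h2 : α * β = p)
    (hu : IsIntegral ℤ u) (hw : IsIntegral ℤ w)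
    (huw : u * (α + β) + w * p = 1) (P : Polynomial ℤ) (hP : P.Monic)
    (hW : ∀ z : ℂ, Polynomial.aeval z P = 0 → ‖z‖ ^ 2 = p) (hα : Polynomial.aeval α P = 0)
    (h3 : Polynomial.aeval (α * c) P = 0) (h4 : Polynomial.aeval (β * c) P = 0) : ∃ d : ℕ, 0 < d ∧ c ^ d = 1 := by
  have hp0 : (p : k) ≠ 0 := by exact_mod_cast hp.ne_zero
  have hα0 : α ≠ 0 := left_ne_zero_of_mul (h2.symm ▸ hp0)
  have i1 : IsIntegral ℤ (α * c) := int_root P hP _ h3
  have i2 : IsIntegral ℤ (β * c) := int_root P hP _ h4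
  have iβ : IsIntegral ℤ β := by
    have := int_root P hP _ (dual_root p hp P hP hW _ hα)
    have e : (p : k) / α = β := by
      rw [← h2]
      field_simp
    rwa [e] at this
  have ic : IsIntegral ℤ c := by
    have e : c = u * (α * c + β * c) + w * ((α * c) * β) := by
      calc c = (u * (α + β) + w * p) * c := by rw [huw, one_mul]
        _ = _ := by rw [← h2]; ring
    rw [e]
    exact (hu.mul (i1.add i2)).add (hw.mul (i1.mul iβ))
  obtain ⟨K, hK, hαK, hcK⟩ := exists_nf α c (int_root P hP _ hα).tower_top ic.tower_top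
  have : NumberField K := { to_charZero := inferInstance, to_finiteDimensional := hK }
  obtain ⟨d, hd, h⟩ := nf_unity (K := K) p hp ⟨α, hαK⟩ ⟨c, hcK⟩ P hW
    (by
      apply Subtype.ext
      rw [← coe_aeval]
      simpa using hα)
    (by
      apply Subtype.ext
      rw [← coe_aeval]
      simpa using h3)
    (by
      obtain ⟨R, hR, hR2⟩ := ic
      refine ⟨R, hR, ?_⟩
      apply Subtype.ext
      rw [← Polynomial.aeval_def, ← coe_aeval]
      simpa [Polynomial.aeval_def] using hR2)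
  refine ⟨d, hd, ?_⟩
  have := congrArg (Subtype.val) h
  simpa using this

section

variable {G : Type*} [Field G] [CharZero G] [TopologicalSpace G] [IsTopologicalRing G] [T2Space G] [IsAlgClosed G]
  {Γ : Type*} [Group Γ] [TopologicalSpace Γ] [IsTopologicalGroup Γ] [CompactSpace Γ] [MeasurableSpace Γ]
  [BorelSpace Γ]

/-- the data of a Frobenius element at the prime number `p`; the eigenvalues on `ρ j0` are roots of `R`, those on the other
representations are the roots of `P` -/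
structure FrobR {s : ℕ} {n : Fin s → ℕ} (ρ : ∀ j, Γ →* Matrix (Fin (n j)) (Fin (n j)) G) (j0 : Fin s) (σ : Γ)
    (d p : ℕ) (a : G) (R P : Polynomial ℤ) : Prop where
  prime : p.Prime
  cr : (ρ j0 σ).charpoly = Polynomial.X ^ 2 - Polynomial.C a * Polynomial.X + Polynomial.C (p : G)
  ord : (∃ m : ℤ, a = m ∧ m ^ 2 < 4 * p) ∨ (∃ u w : G, IsIntegral ℤ u ∧ IsIntegral ℤ w ∧ u * a + w * p = 1)
  monicR : R.Monic
  degR : R.natDegree ≤ d
  weilR : ∀ z : ℂ, Polynomial.aeval z R = 0 → ‖z‖ ^ 2 = p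
  rootR : ∀ z : G, (ρ j0 σ).charpoly.eval z = 0 → Polynomial.aeval z R = 0
  monic : P.Monic
  cV : ∏ j ∈ Finset.univ.erase j0, (ρ j σ).charpoly = P.map (Int.castRingHom G)
  weil : ∀ z : ℂ, Polynomial.aeval z P = 0 → ‖z‖ ^ 2 = p

section Fr

variable {s : ℕ} {n : Fin s → ℕ} {ρ : ∀ j, Γ →* Matrix (Fin (n j)) (Fin (n j)) G} {j0 : Fin s} {σ : Γ}
    {d p : ℕ} {a : G} {R P : Polynomial ℤ}

theorem frR_weil (h : FrobR ρ j0 σ d p a R P) (z : ℂ) (hz : Polynomial.aeval z (P * R) = 0) : ‖z‖ ^ 2 = p := by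
  rw [map_mul] at hz
  rcases mul_eq_zero.mp hz with h1 | h1
  · exact h.weil z h1
  · exact h.weilR z h1

theorem frR_deg (h : FrobR ρ j0 σ d p a R P) : (P * R).natDegree ≤ (∑ j, n j) + d := by
  refine Polynomial.natDegree_mul_le.trans (Nat.add_le_add ?_ h.degR)
  have h1 := congrArg Polynomial.natDegree h.cV
  rw [Polynomial.natDegree_prod_of_monic _ _ (fun j _ => Matrix.charpoly_monic (ρ j σ)),
    Polynomial.natDegree_map_eq_of_injective (Int.castRingHom G).injective_int] at h1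
  rw [← h1]
  calc ∑ j ∈ Finset.univ.erase j0, (ρ j σ).charpoly.natDegree ≤ ∑ j, (ρ j σ).charpoly.natDegree :=
        Finset.sum_le_sum_of_subset (Finset.erase_subset _ _)
    _ = ∑ j, n j := Finset.sum_congr rfl fun j _ => by rw [Matrix.charpoly_natDegree_eq_dim, Fintype.card_fin]

theorem frR_prod (h : FrobR ρ j0 σ d p a R P) (z : G)
    (hz : (∏ j ∈ Finset.univ.erase j0, (ρ j σ).charpoly).eval z = 0) : Polynomial.aeval z (P * R) = 0 := by
  rw [h.cV, Polynomial.eval_map] at hz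
  rw [map_mul, Polynomial.aeval_def]
  have h3 : algebraMap ℤ G = Int.castRingHom G := RingHom.ext_int _ _
  rw [h3, hz, zero_mul]

theorem frR_ev (h : FrobR ρ j0 σ d p a R P) (z : G) (hz : EV (blk ρ σ) (prj G j0) z) :
    Polynomial.aeval z (P * R) = 0 := frR_prod h z (ev_root ρ σ j0 z hz)

/-- all eigenvalues are roots of `P * R` -/
theorem frR_root (h : FrobR ρ j0 σ d p a R P) (z : G) (v : (Σ j, Fin (n j)) → G)
    (hv : v ≠ 0) (hz : blk ρ σ *ᵥ v = z • v) : Polynomial.aeval z ((P * R).map (Int.castRingHom ℚ)) = 0 := by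
  have h0 : Polynomial.aeval z (P * R) = 0 := by
    obtain ⟨j, -, hj⟩ := block_root ρ σ z v hv hz
    by_cases hjj : j = j0
    · subst hjj
      rw [map_mul, h.rootR z hj, mul_zero]
    · refine frR_prod h z ?_
      rw [Polynomial.eval_prod]
      exact Finset.prod_eq_zero (Finset.mem_erase.mpr ⟨hjj, Finset.mem_univ j⟩) hj
  rw [Polynomial.aeval_def, Polynomial.eval₂_map]
  have h3 : (algebraMap ℚ G).comp (Int.castRingHom ℚ) = Int.castRingHom G := RingHom.ext_int _ _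
  have h4 : algebraMap ℤ G = Int.castRingHom G := RingHom.ext_int _ _
  rw [h3, ← h4]
  exact h0

end Fr

/-- the configuration of a generic Frobenius element -/
theorem cfgR {s : ℕ} {n : Fin s → ℕ} {ρ : ∀ j, Γ →* Matrix (Fin (n j)) (Fin (n j)) G} {j0 : Fin s}
    (hn : n j0 = 2) (hss : SSimple (Set.range (blk ρ))) (Δ : Subgroup Γ) (hΔn : Δ.Normal) (σ : Γ) (hσ : σ ∈ Δ)
    (g1 : ∀ y ∈ Δ, nd G (psi (blk ρ y)) ≤ nd G (psi (blk ρ σ)))
    (hsem : Module.End.IsSemisimple (Matrix.toLin' (blk ρ σ)))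
    (hA : ∀ (c : G) (d : ℕ) (M : Matrix (Σ j, Fin (n j)) (Σ j, Fin (n j)) G), 0 < d → c ^ d = 1 → M ≠ 0 →
      blk ρ σ * M = c • (M * blk ρ σ) → c = 1)
    {d p : ℕ} {a : G} {R P : Polynomial ℤ} (hF : FrobR ρ j0 σ d p a R P) (α β : G) (h1 : α + β = a) (h2 : α * β = p)
    (hPα : Polynomial.aeval α (P * R) = 0) (hPβ : Polynomial.aeval β (P * R) = 0)
    (wa wb : Fin (n j0) → G) (hwa : wa ≠ 0) (hwb : wb ≠ 0) (hga : ρ j0 σ *ᵥ wa = α • wa)
    (hgb : ρ j0 σ *ᵥ wb = β • wb) :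
    Cfg (Set.range (blk ρ)) (tanS (blk ρ '' (Δ : Set Γ))) (blk ρ σ) (prj G j0) α β (emb j0 wa) (emb j0 wb) := by
  have hinv : ∀ x : Γ, blk ρ x * blk ρ x⁻¹ = 1 := fun x => by rw [← map_mul, mul_inv_cancel, map_one]
  have hinv' : ∀ x : Γ, blk ρ x⁻¹ * blk ρ x = 1 := fun x => by rw [← map_mul, inv_mul_cancel, map_one]
  have hunit : IsUnit (blk ρ σ) := ⟨⟨blk ρ σ, blk ρ σ⁻¹, hinv σ, hinv' σ⟩, rfl⟩
  have hp0 : (p : G) ≠ 0 := Nat.cast_ne_zero.mpr hF.prime.ne_zero
  have hα : α ≠ 0 := left_ne_zero_of_mul (h2.symm ▸ hp0)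
  have hβ : β ≠ 0 := right_ne_zero_of_mul (h2.symm ▸ hp0)
  have hga' : blk ρ σ *ᵥ emb j0 wa = α • emb j0 wa := by rw [blk_emb, hga, emb_smul]
  have hgb' : blk ρ σ *ᵥ emb j0 wb = β • emb j0 wb := by rw [blk_emb, hgb, emb_smul]
  have hαβ : α ≠ β := by
    rcases hF.ord with ⟨m, hm, hm2⟩ | ⟨u, w, hu, hw, huw⟩
    · intro h
      have h3 : (m : G) ^ 2 = 4 * (p : G) := by
        rw [← hm, ← h1, ← h2, h]
        ring
      have h4 : m ^ 2 = 4 * (p : ℤ) := by exact_mod_cast h3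
      omega
    · exact ne_gen p hF.prime α β u w h2 hu hw (by rw [h1]; exact huw) (P * R) (hF.monic.mul hF.monicR) (frR_weil hF) hPα
  have hne : ∀ d : ℕ, 0 < d → (α / β) ^ d ≠ 1 := by
    intro d hd h
    obtain ⟨T, hT, hT2⟩ := exists_rank_one (blk ρ σ) α β hβ (emb j0 wa) (emb_ne0 j0 wa hwa) hga'
      (eval_zero _ β _ (emb_ne0 j0 wb hwb) hgb')
    have h3 := hA (α / β) d T hd h hT hT2
    exact hαβ ((div_eq_one_iff_eq hβ).mp h3)
  obtain ⟨u, w, hu, hw, huw⟩ : ∃ u w : G, IsIntegral ℤ u ∧ IsIntegral ℤ w ∧ u * (α + β) + w * p = 1 := by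
    rcases hF.ord with ⟨m, hm, hm2⟩ | ⟨u, w, hu, hw, huw⟩
    · have hpa : ¬ (p : ℤ) ∣ m := by
        intro hdvd
        obtain ⟨d, hd, h3⟩ := ratio_unity p hF.prime m hm2 hdvd α β (h1.trans hm) h2
        exact hne d hd h3
      have hco : IsCoprime (p : ℤ) m := (Nat.prime_iff_prime_int.1 hF.prime).coprime_iff_not_dvd.2 hpa
      obtain ⟨w, u, h⟩ := hco
      have iz : ∀ m : ℤ, IsIntegral ℤ (m : G) := fun m => by
        simpa using (isIntegral_algebraMap (R := ℤ) (A := G) (x := m))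
      refine ⟨u, w, iz u, iz w, ?_⟩
      rw [h1, hm, add_comm]
      exact_mod_cast h
    · exact ⟨u, w, hu, hw, by rw [h1]; exact huw⟩
  have huw' : u * (β + α) + w * p = 1 := by rw [add_comm β α]; exact huw
  have h2' : β * α = p := by rw [mul_comm]; exact h2
  exact
    { set := setup_tan (blk ρ) hss Δ (hDn := hΔn)
      mem := ⟨σ, rfl⟩
      sem := hsem
      single := fun X hX => single_of_max (blk ρ '' (Δ : Set Γ)) (blk ρ σ) ⟨σ, hσ, rfl⟩ hunit (by
        rintro _ ⟨x, hx, rfl⟩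
        exact g1 x hx) X hX
      root := hA
      idem := prj_idem j0
      comm := by
        rintro _ ⟨x, rfl⟩
        exact (prj_comm ρ x j0).symm
      a0 := emb_ne0 j0 wa hwa
      b0 := emb_ne0 j0 wb hwb
      ea := prj_emb j0 wa
      eb := prj_emb j0 wb
      ga := hga'
      gb := hgb'
      α0 := hα
      β0 := hβ
      ne := hne
      span := by
        intro w hw
        rw [prj_mulVec] at hw
        obtain ⟨x, y, hxy⟩ := span_two hn (ρ j0 σ) α β hαβ wa wb hwa hwb hga hgb (fun i => w ⟨j0, i⟩)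
        refine ⟨x, y, ?_⟩
        rw [← hw, hxy, emb_add, emb_smul, emb_smul]
      num1 := fun c hc e1 e2 => unity_gen p hF.prime α β c u w h2 hu hw huw (P * R) (hF.monic.mul hF.monicR) (frR_weil hF) hPα hc
        (frR_ev hF _ e1) (frR_ev hF _ e2)
      num2 := fun c hc e1 e2 => unity_gen p hF.prime β α c u w h2' hu hw huw' (P * R) (hF.monic.mul hF.monicR) (frR_weil hF) hPβ hc
        (frR_ev hF _ e1) (frR_ev hF _ e2)
      int1 := fun h => not_root_gen p hF.prime α β u w h2 hu hw huw (P * R) (hF.monic.mul hF.monicR) (frR_weil hF) hPα (frR_ev hF _ h)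
      int2 := fun h => not_root_gen p hF.prime β α u w h2' hu hw huw' (P * R) (hF.monic.mul hF.monicR) (frR_weil hF) hPβ (frR_ev hF _ h) }

end

end Pool.Agent.H40ES
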