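import Mathlib
import Pool.Agent.H40ES.AsmR

/-!
# The tensor category of an abelian variety: the theorem
-/

set_option autoImplicit false
set_option linter.unusedSectionVars false
set_option linter.style.haveILetI false

namespace Pool.Agent.H40ES

open Matrix Pool.Agent.H40TG Pool.Agent.H40ZL Pool.Agent.H40GO Pool.Agent.H40LT Module MeasureTheory

section

variable {G : Type*} [Field G] {s : ℕ} {n : Fin s → ℕ}

theorem mul_compl_apply (E : Matrix (Σ j, Fin (n j)) (Σ j, Fin (n j)) G) (j0 : Fin s) (h : E * (1 - prj G j0) = 0)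
    (p q : Σ j, Fin (n j)) (hq : q.1 ≠ j0) : E p q = 0 := by
  have h1 : (E * (1 - prj G j0) : Matrix (Σ j, Fin (n j)) (Σ j, Fin (n j)) G) p q = 0 := by rw [h]; rfl
  rw [Matrix.mul_sub, mul_one, Matrix.sub_apply] at h1
  unfold prj at h1
  rw [Matrix.mul_diagonal, if_neg hq, mul_zero, sub_zero] at h1
  exact h1

/-- a matrix with zero block `j0`, commuting with the projector, kills the block -/
theorem kills_block (E : Matrix (Σ j, Fin (n j)) (Σ j, Fin (n j)) G) (j0 : Fin s)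
    (hc : E * prj G j0 = prj G j0 * E) (h : ∀ i j : Σ j, Fin (n j), i.1 = j0 → j.1 = j0 → E i j = 0)
    (w : (Σ j, Fin (n j)) → G) (hw : prj G j0 *ᵥ w = w) : E *ᵥ w = 0 := by
  have hw' : ∀ q : Σ j, Fin (n j), q.1 ≠ j0 → w q = 0 := by
    intro q hq
    rw [← hw]
    unfold prj
    rw [Matrix.mulVec_diagonal, if_neg hq, zero_mul]
  have h1 : E *ᵥ w = prj G j0 *ᵥ (E *ᵥ w) := by
    rw [Matrix.mulVec_mulVec, ← hc, ← Matrix.mulVec_mulVec, hw]
  rw [h1]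
  funext q
  unfold prj
  rw [Matrix.mulVec_diagonal]
  by_cases hq : q.1 = j0
  · rw [if_pos hq, one_mul]
    unfold Matrix.mulVec dotProduct
    refine Finset.sum_eq_zero fun q' _ => ?_
    change E q q' * w q' = 0
    by_cases hq' : q'.1 = j0
    · rw [h q q' hq hq', zero_mul]
    · rw [hw' q' hq', mul_zero]
  · rw [if_neg hq, zero_mul]
    rfl

end

section

variable {G : Type*} [Field G] [CharZero G] [TopologicalSpace G] [IsTopologicalRing G] [T2Space G] [IsAlgClosed G]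
  {Γ : Type*} [Group Γ] [TopologicalSpace Γ] [IsTopologicalGroup Γ] [CompactSpace Γ] [MeasurableSpace Γ]
  [BorelSpace Γ]

/-- **The tensor category.** -/
theorem tensor_factor (μ : Measure Γ) [IsFiniteMeasure μ] [μ.IsMulLeftInvariant] [μ.InnerRegularCompactLTTop]
    [μ.IsOpenPosMeasure] {s : ℕ} (n : Fin s → ℕ) (ρ : ∀ j, Γ →* Matrix (Fin (n j)) (Fin (n j)) G)
    (hρ : ∀ j, Continuous (ρ j)) (hirr : ∀ j, Irr (ρ j)) (j0 : Fin s) (hn : n j0 = 2)
    (hLie : ∀ U : Subgroup Γ, IsOpen (U : Set Γ) → ∀ W : Submodule G (Fin (n j0) → G),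
      (∀ x ∈ U, ∀ w ∈ W, ρ j0 x *ᵥ w ∈ W) → W = ⊥ ∨ W = ⊤)
    (d : ℕ) (S : Set Γ) (hS : ∀ σ ∈ S, ∃ p a R P, FrobR ρ j0 σ d p a R P)
    {J : Type*} (ι : J → (Σ j, Fin (n j)) × (Σ j, Fin (n j))) (hι : ∀ q, (ι q).2.1 ≠ j0)
    (U : Subgroup Γ) (hU : IsOpen (U : Set Γ))
    (hR : ∀ i j i' j' : Σ j, Fin (n j), i.1 = j0 → j.1 = j0 → i'.1 = j0 → j'.1 = j0 → ∃ A B : MvPolynomial J G,
      MvPolynomial.eval (fun q => blk ρ 1 (ι q).1 (ι q).2) A ≠ 0 ∧ ∀ x ∈ U,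
        blk ρ x i j * blk ρ x i' j' * MvPolynomial.eval (fun q => blk ρ x (ι q).1 (ι q).2) A =
          MvPolynomial.eval (fun q => blk ρ x (ι q).1 (ι q).2) B) :
    ∃ Δ : Subgroup Γ, Δ.Normal ∧ IsOpen (Δ : Set Γ) ∧ (Rigid (blk ρ) ⊤ → Δ = ⊤) ∧
      ∃ Z : Set Γ, IsClosed Z ∧ μ Z = 0 ∧ (∀ x ∈ Z, ∀ τ, τ * x * τ⁻¹ ∈ Z) ∧ ∀ σ ∈ S, σ ∈ Δ → σ ∉ Z →
          ∃ B : Matrix (Σ j, Fin (n j)) (Σ j, Fin (n j)) G, B ≠ 0 ∧ B * prj G j0 = B ∧ prj G j0 * B = 0 ∧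
            ∀ x ∈ Δ, blk ρ x * B = B * blk ρ x := by
  classical
  have hQ : Continuous (blk ρ) := by
    have := cont_blk (F := G) (G := G) continuous_id ρ hρ
    rwa [bc_self] at this
  obtain ⟨Δ, hΔn, hΔo, hΔ, hΔt⟩ := exists_delta (blk ρ) hQ
  have hss : SSimple (Set.range (blk ρ)) := ssimple_blk ρ (fun j => (hirr j).2)
  obtain ⟨b, hb⟩ : ∃ b, b = (∑ j, n j) + d := ⟨_, rfl⟩
  obtain ⟨N, hN⟩ : ∃ N, N = expo (b * b) := ⟨_, rfl⟩
  have hN0 : 0 < N := by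
    rw [hN]
    exact Nat.pos_of_ne_zero (expo_ne_zero _)
  have hinv : ∀ x : Γ, blk ρ x * blk ρ x⁻¹ = 1 := fun x => by rw [← map_mul, mul_inv_cancel, map_one]
  have hinv' : ∀ x : Γ, blk ρ x⁻¹ * blk ρ x = 1 := fun x => by rw [← map_mul, inv_mul_cancel, map_one]
  have hunit : ∀ x : Γ, IsUnit (blk ρ x) := fun x => ⟨⟨blk ρ x, blk ρ x⁻¹, hinv x, hinv' x⟩, rfl⟩
  have hset := setup_tan (blk ρ) hss Δ (hDn := hΔn)
  obtain ⟨Z, hZ1, hZ2, hZ3, hZ4⟩ := generic_all μ n ρ hρ hirr Δ hΔn hΔo hΔ N hN0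
  obtain ⟨Z', hZ'1, hZ'2, hZ'3, hZ'4⟩ := generic_comm μ (blk ρ) hQ Δ hΔn hΔo hΔ (tanS (blk ρ '' (Δ : Set Γ)))
    (fun X hX x => hset.conj _ ⟨x, rfl⟩ _ ⟨x⁻¹, rfl⟩ (hinv x) X hX)
  refine ⟨Δ, hΔn, hΔo, hΔt, Z ∪ Z', hZ1.union hZ'1, measure_union_null hZ2 hZ'2, ?_, ?_⟩
  · rintro x (hx | hx) τ
    · exact Or.inl (hZ3 x hx τ)
    · exact Or.inr (hZ'3 x hx τ)
  intro σ hσS hσ hσZ
  obtain ⟨g1, g2, g3, g4⟩ := hZ4 σ hσ (fun h => hσZ (Or.inl h))
  have hcom := hZ'4 σ hσ (fun h => hσZ (Or.inr h))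
  obtain ⟨p, a, R, P, hF⟩ := hS σ hσS
  have hp0 : (p : G) ≠ 0 := Nat.cast_ne_zero.mpr hF.prime.ne_zero
  have hPRm : (P * R).Monic := hF.monic.mul hF.monicR
  -- the eigenvalues of `ρ j0 σ`
  obtain ⟨z, hz1⟩ : ∃ z : G, (ρ j0 σ).charpoly.eval z = 0 := by
    obtain ⟨z, hz⟩ := IsAlgClosed.exists_root (ρ j0 σ).charpoly (by
      rw [Matrix.charpoly_degree_eq_dim, Fintype.card_fin, hn]
      norm_num)
    exact ⟨z, hz⟩
  obtain ⟨wa, hwa, hga⟩ := exists_vec (ρ j0 σ) z hz1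
  have hz1' : z ^ 2 - a * z + p = 0 := by
    have h := hz1
    rw [hF.cr] at h
    simpa using h
  have hz2 : (ρ j0 σ).charpoly.eval (a - z) = 0 := by
    rw [hF.cr]
    simp only [Polynomial.eval_add, Polynomial.eval_sub, Polynomial.eval_mul, Polynomial.eval_pow, Polynomial.eval_X,
      Polynomial.eval_C]
    linear_combination hz1'
  obtain ⟨wb, hwb, hgb⟩ := exists_vec (ρ j0 σ) (a - z) hz2
  obtain ⟨β, hβ⟩ : ∃ β : G, β = a - z := ⟨_, rfl⟩
  rw [← hβ] at hgb hz2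
  have hsum : z + β = a := by rw [hβ]; ring
  have hprod : z * β = p := by rw [hβ]; linear_combination -hz1'
  have hz0 : z ≠ 0 := left_ne_zero_of_mul (hprod.symm ▸ hp0)
  have hβ0 : β ≠ 0 := right_ne_zero_of_mul (hprod.symm ▸ hp0)
  have hPz : Polynomial.aeval z (P * R) = 0 := by rw [map_mul, hF.rootR z hz1, mul_zero]
  have hPβ : Polynomial.aeval β (P * R) = 0 := by rw [map_mul, hF.rootR β hz2, mul_zero]
  obtain ⟨p1, p2⟩ := pow_inj (blk ρ σ) (hunit σ) N hN0 g2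
  have hsem : Module.End.IsSemisimple (Matrix.toLin' (blk ρ σ)) :=
    semisimple_of_max (G := G) (blk ρ) hss Δ (hDn := hΔn) σ hσ g3
  have hA : ∀ (c : G) (d : ℕ) (M : Matrix (Σ j, Fin (n j)) (Σ j, Fin (n j)) G), 0 < d → c ^ d = 1 → M ≠ 0 →
      blk ρ σ * M = c • (M * blk ρ σ) → c = 1 := by
    intro c d M hd hcd hM h
    obtain ⟨x, y, ⟨v, hv, hxv⟩, ⟨w, hw, hyw⟩, hc⟩ := ratio_exists (blk ρ σ) hsem (hunit σ) c M hM h
    refine p1 c M hM h ?_
    rw [hN, hc]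
    rw [hc] at hcd
    refine (ratio_expo ((P * R).map (Int.castRingHom ℚ)) (hPRm.map _).ne_zero b ?_ x y
      (frR_root hF x v hv hxv) (frR_root hF y w hw hyw) d hd).1 hcd
    rw [hb]
    exact Polynomial.natDegree_map_le.trans (frR_deg hF)
  -- the commutant of the Lie algebra
  have hgc : ∀ B, (∀ X ∈ tanS (blk ρ '' (Δ : Set Γ)), X * B = B * X) → blk ρ σ * B = B * blk ρ σ := by
    intro B hB
    refine comm_g (blk ρ σ) (blk ρ σ⁻¹) (hinv σ) hsem (tanS (blk ρ '' (Δ : Set Γ)))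
      (fun X hX => hset.conj _ ⟨σ⁻¹, rfl⟩ _ ⟨σ, rfl⟩ (hinv' σ) X hX) hA ?_ B hB
    intro φ
    obtain ⟨X, hX, hX2⟩ := tangent_phi (blk ρ '' (Δ : Set Γ)) (blk ρ σ) (by
      rintro _ ⟨y, hy, rfl⟩ i
      exact ⟨y * σ ^ i, Δ.mul_mem hy (Δ.pow_mem hσ i), by rw [map_mul, map_pow]⟩) (hunit σ) hsem φ
    exact ⟨X, hX, hX2⟩
  have hcom' := hcom hgc
  have cfg := cfgR hn hss Δ hΔn σ hσ g1 hsem hA hF z β hsum hprod hPz hPβ wa wb hwa hwb hga hgb
  -- `L` commutes with the projector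
  have hLe : ∀ X ∈ tanS (blk ρ '' (Δ : Set Γ)), X * prj G j0 = prj G j0 * X := by
    intro X hX
    have h1 := hset.span hX
    clear hX
    induction h1 using Submodule.span_induction with
    | mem x hx =>
      obtain ⟨y, rfl⟩ := hx
      exact (prj_comm ρ y j0).symm
    | zero => rw [zero_mul, mul_zero]
    | add a b _ _ ha hb => rw [add_mul, mul_add, ha, hb]
    | smul c a _ ha => rw [smul_mul_assoc, mul_smul_comm, ha]
  obtain ⟨X₀, hX₀, hne⟩ : ∃ X₀ ∈ tanS (blk ρ '' (Δ : Set Γ)),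
      (blk ρ σ * X₀ - X₀ * blk ρ σ) * prj G j0 ≠ 0 := by
    by_contra hcon
    push Not at hcon
    have h1 : ∀ X ∈ tanS (blk ρ '' (Δ : Set Γ)), X * (blk ρ σ * prj G j0) = (blk ρ σ * prj G j0) * X := by
      intro X hX
      have h2 := hcon X hX
      rw [sub_mul, sub_eq_zero] at h2
      rw [← mul_assoc, ← h2, mul_assoc, mul_assoc, hLe X hX]
    have h3 := hcom' _ h1
    obtain ⟨W, hW⟩ : ∃ W : Submodule G (Fin (n j0) → G), ∀ w, w ∈ W ↔ ρ j0 σ *ᵥ w = z • w := by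
      refine ⟨LinearMap.ker (Matrix.toLin' (ρ j0 σ) - z • 1), fun w => ?_⟩
      rw [LinearMap.mem_ker, LinearMap.sub_apply, Matrix.toLin'_apply, sub_eq_zero]
      rfl
    have h4 : ∀ x ∈ Δ, ∀ w ∈ W, ρ j0 x *ᵥ w ∈ W := by
      intro x hx w hw
      rw [hW] at hw ⊢
      apply emb_injG (n := n) j0
      have h5 := congrArg (fun M => M *ᵥ emb (n := n) j0 w) (h3 x hx)
      simp only [← Matrix.mulVec_mulVec] at h5
      rw [prj_emb, blk_emb, blk_emb, blk_emb, prj_emb, blk_emb, hw] at h5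
      rw [← h5, Matrix.mulVec_smul]
    rcases hLie Δ hΔo W h4 with h5 | h5
    · have h6 : wa ∈ W := (hW wa).2 hga
      rw [h5, Submodule.mem_bot] at h6
      exact hwa h6
    · have h6 : wb ∈ W := by rw [h5]; exact Submodule.mem_top
      rw [hW, hgb] at h6
      have h7 : (β - z) • wb = 0 := by rw [sub_smul, h6, sub_self]
      rcases smul_eq_zero.mp h7 with h8 | h8
      · apply cfg.ne 1 one_pos
        rw [pow_one, div_eq_one_iff_eq cfg.β0]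
        exact (sub_eq_zero.mp h8).symm
      · exact hwb h8
  obtain ⟨E, F, H, hT⟩ := exists_trip cfg X₀ hX₀ hne
  -- `E` is not zero on the other blocks
  have hE : E * (1 - prj G j0) ≠ 0 := by
    intro h0
    have h1 := mul_compl_apply E j0 h0
    have h2 := tangent_zero_of_rational (blk ρ '' (Δ : Set Γ)) ⟨1, Δ.one_mem, map_one _⟩ ι E hT.EL
      (fun q => h1 _ _ (hι q)) {i | i.1 = j0} (by
        intro i hi j hj i' hi' j' hj'
        obtain ⟨A, B, hA1, hA2⟩ := hR i j i' j' hi hj hi' hj'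
        refine ⟨A, B, by rwa [map_one] at hA1, ?_⟩
        rintro _ ⟨x, hx, rfl⟩
        have h3 := rel_extend μ (blk ρ) hQ Δ hΔo hΔ (MvPolynomial.X (i, j) * MvPolynomial.X (i', j') *
          MvPolynomial.rename ι A - MvPolynomial.rename ι B) U hU (by
            intro y hy
            rw [map_sub, map_mul, map_mul, evm_rename, evm_rename, ← hA2 y hy]
            unfold evm
            rw [MvPolynomial.aeval_X, MvPolynomial.aeval_X, sub_self]) x hx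
        rw [map_sub, map_mul, map_mul, evm_rename, evm_rename, sub_eq_zero] at h3
        rw [← h3]
        unfold evm
        rw [MvPolynomial.aeval_X, MvPolynomial.aeval_X])
    have hk := kills_block E j0 (hLe E hT.EL) (fun i j hi hj => h2 i hi j hj)
    have hFa : prj G j0 *ᵥ (F *ᵥ emb j0 wa) = F *ᵥ emb j0 wa := by
      rw [Matrix.mulVec_mulVec, ← hLe F hT.FL, ← Matrix.mulVec_mulVec, prj_emb]
    have h3 : E *ᵥ (F *ᵥ emb j0 wa) - F *ᵥ (E *ᵥ emb j0 wa) = H *ᵥ emb j0 wa := by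
      rw [Matrix.mulVec_mulVec, Matrix.mulVec_mulVec, ← Matrix.sub_mulVec, hT.EF]
    rw [hk _ hFa, hT.Ea, Matrix.mulVec_zero, sub_zero, hT.Ha] at h3
    exact cfg.a0 h3.symm
  -- an eigenvector which is not killed by `E`
  obtain ⟨x, v, hEv, hev, hgv⟩ : ∃ (x : G) (v : (Σ j, Fin (n j)) → G), E *ᵥ v ≠ 0 ∧ prj G j0 *ᵥ v = 0 ∧
      blk ρ σ *ᵥ v = x • v := by
    by_contra hcon
    push Not at hcon
    apply hE
    have h1 : LinearMap.ker (Matrix.toLin' (E * (1 - prj G j0))) = ⊤ := by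
      apply eigen_top (blk ρ σ) hsem
      intro m v hv
      rw [LinearMap.mem_ker, Matrix.toLin'_apply, ← Matrix.mulVec_mulVec]
      by_contra hne'
      refine hcon m ((1 - prj G j0) *ᵥ v) hne' ?_ ?_
      · rw [Matrix.mulVec_mulVec, mul_sub, mul_one, prj_idem, sub_self, Matrix.zero_mulVec]
      · have hc : blk ρ σ * (1 - prj G j0) = (1 - prj G j0) * blk ρ σ := by
          rw [mul_sub, sub_mul, mul_one, one_mul, prj_comm]
        rw [Matrix.mulVec_mulVec, hc, ← Matrix.mulVec_mulVec, hv, Matrix.mulVec_smul]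
    apply Matrix.toLin'.injective
    rw [map_zero]
    exact LinearMap.ker_eq_top.mp h1
  have hv0 : v ≠ 0 := by
    rintro rfl
    exact hEv (Matrix.mulVec_zero E)
  have heEv : prj G j0 *ᵥ (E *ᵥ v) = 0 := by
    rw [Matrix.mulVec_mulVec, ← hLe E hT.EL, ← Matrix.mulVec_mulVec, hev, Matrix.mulVec_zero]
  have hgEv : blk ρ σ *ᵥ (E *ᵥ v) = (z / β * x) • (E *ᵥ v) := by
    rw [Matrix.mulVec_mulVec, hT.gE, Matrix.smul_mulVec, ← Matrix.mulVec_mulVec, hgv, Matrix.mulVec_smul, smul_smul]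
  obtain ⟨u, w, hu, hw, huw⟩ : ∃ u w : G, IsIntegral ℤ u ∧ IsIntegral ℤ w ∧ u * (z + β) + w * p = 1 := by
    rcases hF.ord with ⟨m, hm, hm2⟩ | ⟨u, w, hu, hw, huw⟩
    · have hpa : ¬ (p : ℤ) ∣ m := by
        intro hdvd
        obtain ⟨d, hd, h3⟩ := ratio_unity p hF.prime m hm2 hdvd z β (hsum.trans hm) hprod
        exact cfg.ne d hd h3
      have hco : IsCoprime (p : ℤ) m := (Nat.prime_iff_prime_int.1 hF.prime).coprime_iff_not_dvd.2 hpa
      obtain ⟨w, u, h⟩ := hco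
      have iz : ∀ m : ℤ, IsIntegral ℤ (m : G) := fun m => by
        simpa using (isIntegral_algebraMap (R := ℤ) (A := G) (x := m))
      refine ⟨u, w, iz u, iz w, ?_⟩
      rw [hsum, hm, add_comm]
      exact_mod_cast h
    · exact ⟨u, w, hu, hw, by rw [hsum]; exact huw⟩
  obtain ⟨m, hm, hm2⟩ := unity_pair p hF.prime z β (x / β) u w hprod hu hw huw (P * R) hPRm (frR_weil hF) hPz
    (by
      have e : z * (x / β) = z / β * x := by ring
      rw [e]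
      exact frR_ev hF _ ⟨_, hEv, heEv, hgEv⟩)
    (by
      have e : β * (x / β) = x := by field_simp
      rw [e]
      exact frR_ev hF _ ⟨_, hv0, hev, hgv⟩)
  obtain ⟨T, hT0, hT1⟩ := exists_rank_one (blk ρ σ) x β hβ0 v hv0 hgv
    (eval_zero _ β _ (emb_ne0 j0 wb hwb) (by rw [blk_emb, hgb, emb_smul]))
  have hx1 := hA (x / β) m T hm hm2 hT0 hT1
  have hx : x = β := (div_eq_one_iff_eq hβ0).mp hx1
  have hgEv' : blk ρ σ *ᵥ (E *ᵥ v) = z • (E *ᵥ v) := by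
    rw [hgEv, hx, div_mul_cancel₀ z hβ0]
  have s1 := fun (T : Matrix (Σ j, Fin (n j)) (Σ j, Fin (n j)) G) hT hc μ t v w hv hw hw0 ht =>
    scal cfg T hT hc μ t v w hv hw hw0 ht
  have s2 := fun (X : Matrix (Σ j, Fin (n j)) (Σ j, Fin (n j)) G) hX hXe v hev hv => kill s1 cfg X hX hXe v hev hv
  obtain ⟨B, hB0, hB1, hB2, hB3⟩ := graph s1 s2 cfg E F H hT (E *ᵥ v) hEv heEv hgEv'
  exact ⟨B, hB0, hB1, hB2, fun x hx => hcom' B hB3 x hx⟩

end

end Pool.Agent.H40ES
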