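import Mathlib
import Pool.Agent.H40ES.Lin

/-!
# Intertwining matrices in blocks
-/

set_option autoImplicit false
set_option linter.unusedSectionVars false

namespace Pool.Agent.H40ES

open Matrix Pool.Agent.H40TG Pool.Agent.H40ZL Pool.Agent.H40GO Pool.Agent.H40LT

section

variable {G : Type*} [Field G] [CharZero G] [IsAlgClosed G] {Γ : Type*} [Group Γ] {s : ℕ} {n : Fin s → ℕ}

theorem mulVec_emb (B : Matrix (Σ j, Fin (n j)) (Σ j, Fin (n j)) G) (j0 : Fin s) (w : Fin (n j0) → G)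
    (q : Σ j, Fin (n j)) : (B *ᵥ emb j0 w) q = ∑ i', B q ⟨j0, i'⟩ * w i' := by
  unfold Matrix.mulVec dotProduct
  rw [Fintype.sum_sigma, Finset.sum_eq_single j0]
  · exact Finset.sum_congr rfl fun i' _ => by rw [emb_self]
  · intro j' _ hj'
    refine Finset.sum_eq_zero fun i' _ => ?_
    rw [emb_ne _ _ hj', mul_zero]
  · intro h
    exact absurd (Finset.mem_univ j0) h

theorem block_of (ρ : ∀ j, Γ →* Matrix (Fin (n j)) (Fin (n j)) G) (j0 : Fin s) (D : Subgroup Γ)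
    (B : Matrix (Σ j, Fin (n j)) (Σ j, Fin (n j)) G) (hB0 : B ≠ 0) (hB1 : B * prj G j0 = B) (hB2 : prj G j0 * B = 0)
    (hB3 : ∀ x ∈ D, blk ρ x * B = B * blk ρ x) :
    ∃ j, j ≠ j0 ∧ ∃ B' : Matrix (Fin (n j)) (Fin (n j0)) G, B' ≠ 0 ∧ ∀ x ∈ D, ρ j x * B' = B' * ρ j0 x := by
  have hcomp : ∀ (j : Fin s) (w : Fin (n j0) → G), (fun i => (B *ᵥ emb j0 w) ⟨j, i⟩) =
      (Matrix.of fun i i' => B ⟨j, i⟩ ⟨j0, i'⟩) *ᵥ w := by
    intro j w
    funext i
    rw [mulVec_emb]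
    rfl
  obtain ⟨j, hj, hne⟩ : ∃ j, j ≠ j0 ∧ (Matrix.of fun i i' => B ⟨j, i⟩ ⟨j0, i'⟩ :
      Matrix (Fin (n j)) (Fin (n j0)) G) ≠ 0 := by
    by_contra hcon
    push Not at hcon
    apply hB0
    apply Matrix.toLin'.injective
    apply LinearMap.ext
    intro v
    rw [Matrix.toLin'_apply, map_zero, LinearMap.zero_apply, ← hB1, ← Matrix.mulVec_mulVec, prj_mulVec]
    apply emb_ext
    intro j i
    by_cases hj : j = j0
    · subst hj
      have h1 : (prj G j *ᵥ (B *ᵥ emb j fun i => v ⟨j, i⟩)) = 0 := by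
        rw [Matrix.mulVec_mulVec, hB2, Matrix.zero_mulVec]
      rw [prj_mulVec] at h1
      have h2 := congrFun h1 ⟨j, i⟩
      rw [emb_self] at h2
      exact h2
    · have h1 := congrFun (hcomp j fun i => v ⟨j0, i⟩) i
      rw [hcon j hj, Matrix.zero_mulVec] at h1
      exact h1
  refine ⟨j, hj, _, hne, fun x hx => ?_⟩
  apply Matrix.toLin'.injective
  apply LinearMap.ext
  intro w
  rw [Matrix.toLin'_apply, Matrix.toLin'_apply, ← Matrix.mulVec_mulVec, ← Matrix.mulVec_mulVec, ← hcomp, ← hcomp]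
  funext i
  rw [← blk_mulVec, ← blk_emb, Matrix.mulVec_mulVec, Matrix.mulVec_mulVec, hB3 x hx]

end

end Pool.Agent.H40ES
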