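import Mathlib
import Pool.Agent.H40ES.AsmH

/-!
# Point counts
-/

set_option autoImplicit false
set_option linter.unusedSectionVars false
set_option linter.style.haveILetI false

namespace Pool.Agent.H40ES

open Matrix Pool.Agent.H40TG Pool.Agent.H40ZL Pool.Agent.H40GO Pool.Agent.H40LT Module MeasureTheory

section

variable {G : Type*} [Field G] [CharZero G] [IsAlgClosed G] {Γ : Type*} [Group Γ]

/-- the data of a Frobenius element at the prime number `p` -/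
structure FrobD {s : ℕ} {n : Fin s → ℕ} (ρ : ∀ j, Γ →* Matrix (Fin (n j)) (Fin (n j)) G) (j0 : Fin s) (σ : Γ)
    (p : ℕ) (a : ℤ) (P : Polynomial ℤ) : Prop where
  prime : p.Prime
  disc : a ^ 2 < 4 * p
  cr : (ρ j0 σ).charpoly = Polynomial.X ^ 2 - Polynomial.C (a : G) * Polynomial.X + Polynomial.C (p : G)
  monic : P.Monic
  cV : ∏ j ∈ Finset.univ.erase j0, (ρ j σ).charpoly = P.map (Int.castRingHom G)
  weil : ∀ z : ℂ, Polynomial.aeval z P = 0 → ‖z‖ ^ 2 = p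

/-- the rational polynomial whose roots are all the eigenvalues -/
noncomputable def polQ (p : ℕ) (a : ℤ) (P : Polynomial ℤ) : Polynomial ℚ :=
  (Polynomial.X ^ 2 - Polynomial.C (a : ℚ) * Polynomial.X + Polynomial.C (p : ℚ)) * P.map (Int.castRingHom ℚ)

theorem polQ_monic (p : ℕ) (a : ℤ) (P : Polynomial ℤ) (hP : P.Monic) : (polQ p a P).Monic := by
  unfold polQ
  refine Polynomial.Monic.mul ?_ (hP.map _)
  have h : (Polynomial.X ^ 2 - Polynomial.C (a : ℚ) * Polynomial.X + Polynomial.C (p : ℚ) : Polynomial ℚ) =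
      Polynomial.X ^ 2 + (-(Polynomial.C (a : ℚ) * Polynomial.X) + Polynomial.C (p : ℚ)) := by ring
  rw [h]
  apply Polynomial.monic_X_pow_add
  compute_degree!

theorem polQ_deg (p : ℕ) (a : ℤ) (P : Polynomial ℤ) : (polQ p a P).natDegree ≤ 2 + P.natDegree := by
  unfold polQ
  refine Polynomial.natDegree_mul_le.trans (Nat.add_le_add ?_ (Polynomial.natDegree_map_le))
  compute_degree!

variable {s : ℕ} {n : Fin s → ℕ} {ρ : ∀ j, Γ →* Matrix (Fin (n j)) (Fin (n j)) G} {j0 : Fin s} {σ : Γ}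
    {p : ℕ} {a : ℤ} {P : Polynomial ℤ}

theorem polQ_root (h : FrobD ρ j0 σ p a P) (z : G) (v : (Σ j, Fin (n j)) → G)
    (hv : v ≠ 0) (hz : blk ρ σ *ᵥ v = z • v) : Polynomial.aeval z (polQ p a P) = 0 := by
  obtain ⟨j, -, hj⟩ := block_root ρ σ z v hv hz
  unfold polQ
  rw [map_mul]
  by_cases hjj : j = j0
  · subst hjj
    rw [h.cr] at hj
    have h1 : Polynomial.aeval z (Polynomial.X ^ 2 - Polynomial.C (a : ℚ) * Polynomial.X + Polynomial.C (p : ℚ)) = 0 := by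
      simpa using hj
    rw [h1, zero_mul]
  · have h1 : (∏ j ∈ Finset.univ.erase j0, (ρ j σ).charpoly).eval z = 0 := by
      rw [Polynomial.eval_prod]
      exact Finset.prod_eq_zero (Finset.mem_erase.mpr ⟨hjj, Finset.mem_univ j⟩) hj
    rw [h.cV, Polynomial.eval_map] at h1
    have h2 : Polynomial.aeval z (P.map (Int.castRingHom ℚ)) = 0 := by
      rw [Polynomial.aeval_def, Polynomial.eval₂_map]
      have h3 : (algebraMap ℚ G).comp (Int.castRingHom ℚ) = Int.castRingHom G := RingHom.ext_int _ _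
      rw [h3]
      exact h1
    rw [h2, mul_zero]

theorem frobD_deg (hn : n j0 = 2) (h : FrobD ρ j0 σ p a P) : 2 + P.natDegree = ∑ j, n j := by
  have h1 := congrArg Polynomial.natDegree h.cV
  rw [Polynomial.natDegree_prod_of_monic _ _ (fun j _ => Matrix.charpoly_monic (ρ j σ)),
    Polynomial.natDegree_map_eq_of_injective (Int.castRingHom G).injective_int] at h1
  rw [← h1, ← Finset.add_sum_erase _ _ (Finset.mem_univ j0), hn]
  congr 1
  exact Finset.sum_congr rfl fun j _ => by rw [Matrix.charpoly_natDegree_eq_dim, Fintype.card_fin]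

/-- an eigenvalue of the power on the blocks different from `j0` -/
theorem eq_of_pow (hA : ∀ (c : G) (d : ℕ) (M : Matrix (Σ j, Fin (n j)) (Σ j, Fin (n j)) G), 0 < d → c ^ d = 1 → M ≠ 0 →
      blk ρ σ * M = c • (M * blk ρ σ) → c = 1) (α : G) (hα : α ≠ 0) (hα1 : (ρ j0 σ).charpoly.eval α = 0)
    (j : Fin s) (hj : j ≠ j0) (k : ℕ) (hk : 0 < k) (h : ((ρ j σ) ^ k).charpoly.eval (α ^ k) = 0) :
    (∏ j ∈ Finset.univ.erase j0, (ρ j σ).charpoly).eval α = 0 := by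
  obtain ⟨lam, h1, h2⟩ := root_pow (ρ j σ) k (α ^ k) h
  obtain ⟨w, hw, hw2⟩ := exists_vec (ρ j σ) lam h1
  obtain ⟨wa, hwa, hga⟩ := exists_vec (ρ j0 σ) α hα1
  obtain ⟨T, hT, hT2⟩ := exists_rank_one (blk ρ σ) lam α hα (emb j w) (emb_ne0 j w hw) (by rw [blk_emb, hw2, emb_smul])
    (eval_zero _ α _ (emb_ne0 j0 wa hwa) (by rw [blk_emb, hga, emb_smul]))
  have h3 := hA (lam / α) k T hk (by rw [div_pow, h2, div_self (pow_ne_zero k hα)]) hT hT2
  have h4 : lam = α := (div_eq_one_iff_eq hα).mp h3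
  rw [h4] at h1
  rw [Polynomial.eval_prod]
  exact Finset.prod_eq_zero (Finset.mem_erase.mpr ⟨hj, Finset.mem_univ j⟩) h1

theorem eval_one_det (M : Matrix (Fin (n j0)) (Fin (n j0)) G) : M.charpoly.eval 1 = (1 - M).det := by
  rw [Matrix.eval_charpoly, Matrix.scalar_apply, Matrix.diagonal_one]

/-- the eigenvalue one of `c⁻¹ M ^ k` -/
theorem charpoly_scale {m : ℕ} (M : Matrix (Fin m) (Fin m) G) (c : G) (hc : c ≠ 0) :
    (c⁻¹ • M).charpoly.eval 1 = 0 ↔ M.charpoly.eval c = 0 := by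
  constructor
  · intro h
    obtain ⟨v, hv, h1⟩ := exists_vec _ _ h
    refine eval_zero _ _ v hv ?_
    rw [Matrix.smul_mulVec, one_smul] at h1
    have h2 := congrArg (fun w => c • w) h1
    simp only [smul_smul, mul_inv_cancel₀ hc, one_smul] at h2
    exact h2
  · intro h
    obtain ⟨v, hv, h1⟩ := exists_vec _ _ h
    refine eval_zero _ _ v hv ?_
    rw [Matrix.smul_mulVec, h1, smul_smul, inv_mul_cancel₀ hc]

end

section

variable {G : Type*} [NormedField G] [CharZero G] [IsAlgClosed G]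
  {Γ : Type*} [Group Γ] [TopologicalSpace Γ] [IsTopologicalGroup Γ] [CompactSpace Γ] [MeasurableSpace Γ]
  [BorelSpace Γ]

/-- **Point counts.** -/
theorem counts (μ : Measure Γ) [IsFiniteMeasure μ] [μ.IsMulLeftInvariant] [μ.InnerRegularCompactLTTop]
    [μ.IsOpenPosMeasure] {s : ℕ} (n : Fin s → ℕ) (ρ : ∀ j, Γ →* Matrix (Fin (n j)) (Fin (n j)) G)
    (hρ : ∀ j, Continuous (ρ j)) (hirr : ∀ j, Irr (ρ j)) (j0 : Fin s) (hn : n j0 = 2)
    (hLie : ∀ U : Subgroup Γ, IsOpen (U : Set Γ) → ∀ W : Submodule G (Fin (n j0) → G),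
      (∀ x ∈ U, ∀ w ∈ W, ρ j0 x *ᵥ w ∈ W) → W = ⊥ ∨ W = ⊤)
    (K : Set G)
    (hhom : ∀ α ∈ K, ∀ x, (ρ j0 x).charpoly.eval α = 0 → ∃ k : ℕ, 0 < k ∧ ∃ τ : Γ, ∀ j, ρ j τ = (α ^ k) • 1)
    (hsplit : ∀ U : Subgroup Γ, IsOpen (U : Set Γ) → ∃ W : Set Γ, IsOpen W ∧ W.Nonempty ∧ W ⊆ U ∧
      ∀ x ∈ W, ∃ α ∈ K, (ρ j0 x).charpoly.eval α = 0)
    (S : Set Γ) (hSd : Dense S) (c : ℝ)
    (hS : ∀ σ ∈ S, ∃ p a P, FrobD ρ j0 σ p a P ∧
      ‖∏ j ∈ Finset.univ.erase j0, (ρ j σ).charpoly.eval 1‖ ≤ c * ‖(ρ j0 σ).charpoly.eval 1‖) :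
    ∃ Δ : Subgroup Γ, Δ.Normal ∧ IsOpen (Δ : Set Γ) ∧ (Rigid (blk ρ) ⊤ → Δ = ⊤) ∧
      ∃ B : Matrix (Σ j, Fin (n j)) (Σ j, Fin (n j)) G, B ≠ 0 ∧ B * prj G j0 = B ∧ prj G j0 * B = 0 ∧
        ∀ x ∈ Δ, blk ρ x * B = B * blk ρ x := by
  classical
  have hQ : Continuous (blk ρ) := by
    have := cont_blk (F := G) (G := G) continuous_id ρ hρ
    rwa [bc_self] at this
  obtain ⟨Δ, hΔn, hΔo, hΔ, hΔt⟩ := exists_delta (blk ρ) hQ
  refine ⟨Δ, hΔn, hΔo, hΔt, ?_⟩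
  have hss : SSimple (Set.range (blk ρ)) := ssimple_blk ρ (fun j => (hirr j).2)
  obtain ⟨b, hb⟩ : ∃ b, b = ∑ j, n j := ⟨_, rfl⟩
  obtain ⟨N, hN⟩ : ∃ N, N = expo (b * b) := ⟨_, rfl⟩
  have hN0 : 0 < N := by
    rw [hN]
    exact Nat.pos_of_ne_zero (expo_ne_zero _)
  have hinv : ∀ x : Γ, blk ρ x * blk ρ x⁻¹ = 1 := fun x => by rw [← map_mul, mul_inv_cancel, map_one]
  have hinv' : ∀ x : Γ, blk ρ x⁻¹ * blk ρ x = 1 := fun x => by rw [← map_mul, inv_mul_cancel, map_one]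
  have hunit : ∀ x : Γ, IsUnit (blk ρ x) := fun x => ⟨⟨blk ρ x, blk ρ x⁻¹, hinv x, hinv' x⟩, rfl⟩
  obtain ⟨Z, hZ1, hZ2, hZ3, hZ4⟩ := generic_all μ n ρ hρ hirr Δ hΔn hΔo hΔ N hN0
  obtain ⟨Z', hZ'1, hZ'2, hZ'3, hZ'4⟩ := factorH μ n ρ hρ hirr j0 hn hLie S (by
    intro σ hσ
    obtain ⟨p, a, P, h1, -⟩ := hS σ hσ
    exact ⟨p, (a : G), P, ⟨h1.prime, h1.cr, Or.inl ⟨a, rfl, h1.disc⟩, h1.monic, h1.cV, h1.weil⟩⟩) Δ hΔn hΔo hΔ
  -- the inequality on the whole group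
  have hdet : ∀ j x, (ρ j x).charpoly.eval 1 = (1 - ρ j x).det := fun j x => by
    rw [Matrix.eval_charpoly, Matrix.scalar_apply, Matrix.diagonal_one]
  have hcontd : ∀ j, Continuous fun x => (ρ j x).charpoly.eval 1 := by
    intro j
    simp only [hdet]
    exact (continuous_const.sub (hρ j)).matrix_det
  have hall : ∀ x, ‖∏ j ∈ Finset.univ.erase j0, (ρ j x).charpoly.eval 1‖ ≤ c * ‖(ρ j0 x).charpoly.eval 1‖ := by
    have hcl : IsClosed {x | ‖∏ j ∈ Finset.univ.erase j0, (ρ j x).charpoly.eval 1‖ ≤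
        c * ‖(ρ j0 x).charpoly.eval 1‖} :=
      isClosed_le (continuous_finsetProd _ fun j _ => hcontd j).norm (continuous_const.mul (hcontd j0).norm)
    intro x
    have h0 : S ⊆ {x | ‖∏ j ∈ Finset.univ.erase j0, (ρ j x).charpoly.eval 1‖ ≤
        c * ‖(ρ j0 x).charpoly.eval 1‖} := by
      intro σ hσ
      obtain ⟨p, a, P, -, h2⟩ := hS σ hσ
      exact h2
    exact (hcl.closure_subset_iff.mpr h0) (hSd x)
  -- the choice of the element
  obtain ⟨W, hW1, hW2, hW3, hW4⟩ := hsplit Δ hΔo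
  have hopen : IsOpen (W ∩ (Z ∪ Z')ᶜ) := hW1.inter (hZ1.union hZ'1).isOpen_compl
  have hnon : (W ∩ (Z ∪ Z')ᶜ).Nonempty := by
    by_contra hcon
    rw [Set.not_nonempty_iff_eq_empty] at hcon
    have h1 : W ⊆ Z ∪ Z' := by
      intro x hx
      by_contra hx2
      have : x ∈ W ∩ (Z ∪ Z')ᶜ := ⟨hx, hx2⟩
      rw [hcon] at this
      exact this
    have h2 : μ W = 0 := measure_mono_null h1 (measure_union_null hZ2 hZ'2)
    rw [hW1.measure_eq_zero_iff μ] at h2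
    rw [h2] at hW2
    exact Set.not_nonempty_empty hW2
  obtain ⟨σ, ⟨hσW, hσZ⟩, hσS⟩ := hSd.inter_open_nonempty _ hopen hnon
  have hσ : σ ∈ Δ := hW3 hσW
  obtain ⟨α, hαK, hα1⟩ := hW4 σ hσW
  obtain ⟨p, a, P, hF, -⟩ := hS σ hσS
  obtain ⟨g1, g2, g3, g4⟩ := hZ4 σ hσ (fun h => hσZ (Or.inl h))
  have hp0 : (p : G) ≠ 0 := Nat.cast_ne_zero.mpr hF.prime.ne_zero
  have hα0 : α ≠ 0 := by
    rintro rfl
    rw [hF.cr] at hα1
    simp only [Polynomial.eval_add, Polynomial.eval_sub, Polynomial.eval_mul, Polynomial.eval_pow, Polynomial.eval_X,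
      Polynomial.eval_C] at hα1
    apply hp0
    linear_combination hα1
  obtain ⟨p1, p2⟩ := pow_inj (blk ρ σ) (hunit σ) N hN0 g2
  have hsem : Module.End.IsSemisimple (Matrix.toLin' (blk ρ σ)) :=
    semisimple_of_max (G := G) (blk ρ) hss Δ (hDn := hΔn) σ hσ g3
  have hA : ∀ (c : G) (d : ℕ) (M : Matrix (Σ j, Fin (n j)) (Σ j, Fin (n j)) G), 0 < d → c ^ d = 1 → M ≠ 0 →
      blk ρ σ * M = c • (M * blk ρ σ) → c = 1 := by
    intro c d M hd hcd hM h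
    obtain ⟨x, y, ⟨v, hv, hxv⟩, ⟨w, hw, hyw⟩, hc⟩ := ratio_exists (blk ρ σ) hsem (hunit σ) c M hM h
    refine p1 c M hM h ?_
    rw [hN, hc]
    rw [hc] at hcd
    refine (ratio_expo (polQ p a P) (polQ_monic p a P hF.monic).ne_zero b ?_ x y (polQ_root hF x v hv hxv)
      (polQ_root hF y w hw hyw) d hd).1 hcd
    rw [hb, ← frobD_deg hn hF]
    exact polQ_deg p a P
  -- the homothety
  obtain ⟨k, hk, τ, hτ⟩ := hhom α hαK σ hα1
  have hαk : α ^ k ≠ 0 := pow_ne_zero k hα0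
  have hτi : ∀ j, ρ j τ⁻¹ = (α ^ k)⁻¹ • 1 := by
    intro j
    have h1 : ρ j τ * ρ j τ⁻¹ = 1 := by rw [← map_mul, mul_inv_cancel, map_one]
    rw [hτ j, smul_mul_assoc, one_mul] at h1
    rw [← h1, smul_smul, inv_mul_cancel₀ hαk, one_smul]
  have hx : ∀ j, ρ j (σ ^ k * τ⁻¹) = (α ^ k)⁻¹ • (ρ j σ) ^ k := by
    intro j
    rw [map_mul, map_pow, hτi, mul_smul_comm, mul_one]
  have h0 : (ρ j0 (σ ^ k * τ⁻¹)).charpoly.eval 1 = 0 := by
    rw [hx, charpoly_scale _ _ hαk]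
    exact eig_pow (ρ j0 σ) α k hα1
  have h1 := hall (σ ^ k * τ⁻¹)
  rw [h0, norm_zero, mul_zero] at h1
  have h2 := norm_le_zero_iff.mp h1
  obtain ⟨j, hj, hj2⟩ := Finset.prod_eq_zero_iff.mp h2
  rw [hx, charpoly_scale _ _ hαk] at hj2
  have h3 := eq_of_pow hA α hα0 hα1 j (Finset.ne_of_mem_erase hj) k hk hj2
  exact hZ'4 σ hσS hσ (fun h => hσZ (Or.inr h)) α hα1 h3

end

end Pool.Agent.H40ES
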