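import Mathlib

set_option autoImplicit false

namespace Pool.Agent.H40ES

open Polynomial

private theorem norm_root {p : ℕ} (a : ℤ) (ha : a ^ 2 < 4 * (p : ℤ)) (z w : ℂ) (h1 : z + w = a)
    (h2 : z * w = p) : ‖z‖ ^ 2 = p := by
  have e1 : (starRingEnd ℂ z - z) * (starRingEnd ℂ z - w) = 0 := by
    have e2 : (starRingEnd ℂ z) * (starRingEnd ℂ z) - (a : ℂ) * (starRingEnd ℂ z) + p = 0 := by
      have e3 : z * z - (a : ℂ) * z + p = 0 := by
        rw [← h1, ← h2]; ring
      have e4 := congrArg (starRingEnd ℂ) e3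
      simpa using e4
    rw [← h1, ← h2] at e2
    linear_combination e2
  rcases mul_eq_zero.1 e1 with h | h
  · exfalso
    have hz : starRingEnd ℂ z = z := sub_eq_zero.1 h
    obtain ⟨x, hx⟩ := Complex.conj_eq_iff_real.1 hz
    have hw : w = ((a - x : ℝ) : ℂ) := by
      have : w = a - z := by rw [← h1]; ring
      rw [this, hx]
      push_cast
      ring
    rw [hw, hx] at h2
    have h5 : x * (a - x) = (p : ℝ) := by exact_mod_cast h2
    have h6 : (a : ℝ) ^ 2 < 4 * (p : ℝ) := by exact_mod_cast ha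
    nlinarith [sq_nonneg (2 * x - a)]
  · have hz : starRingEnd ℂ z = w := sub_eq_zero.1 h
    have h3 : ((‖z‖ ^ 2 : ℝ) : ℂ) = (p : ℂ) := by
      rw [← h2, ← hz, Complex.mul_conj, Complex.normSq_eq_norm_sq]
    exact_mod_cast h3

private theorem main_nf {K : Type*} [Field K] [NumberField K] (p : ℕ) (hp : p.Prime) (a : ℤ)
    (ha : a ^ 2 < 4 * (p : ℤ))
    (hpa : ¬ (p : ℤ) ∣ a) (α β c : K) (h1 : α + β = a) (h2 : α * β = p) (P : Polynomial ℤ)
    (hP : P.Monic)
    (hW : ∀ z : ℂ, Polynomial.aeval z P = 0 → ‖z‖ ^ 2 = p) (hc : c ≠ 0)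
    (h3 : Polynomial.aeval (α * c) P = 0)
    (h4 : Polynomial.aeval (α * c⁻¹) P = 0) : ∃ d : ℕ, 0 < d ∧ c ^ d = 1 := by
  have hp0 : (p : K) ≠ 0 := by exact_mod_cast hp.ne_zero
  have hα : α ≠ 0 := by
    rintro rfl
    apply hp0
    rw [← h2, zero_mul]
  have hβ : β ≠ 0 := by
    rintro rfl
    apply hp0
    rw [← h2, mul_zero]
  have hroot : ∀ (τ : K →+* ℂ) (z : K), aeval z P = 0 → aeval (τ z) P = 0 := by
    intro τ z hz
    have := congrArg τ hz
    rw [map_zero] at this
    rw [← this]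
    simp [aeval_def, eval₂_eq_sum_range]
  have hdual : ∀ z : K, aeval z P = 0 → aeval ((p : K) / z) P = 0 := by
    intro z hz
    obtain ⟨τ⟩ : Nonempty (K →+* ℂ) := inferInstance
    have e1 := hroot τ z hz
    have e2 := hW _ e1
    have e3 : τ z * starRingEnd ℂ (τ z) = p := by
      rw [Complex.mul_conj, Complex.normSq_eq_norm_sq, e2]
      simp
    have hz0 : τ z ≠ 0 := by
      intro h0
      rw [h0, zero_mul] at e3
      exact hp.ne_zero (by exact_mod_cast e3.symm)
    have e4 : τ ((p : K) / z) = starRingEnd ℂ (τ z) := by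
      rw [map_div₀, map_natCast, ← e3]
      field_simp
    have e5 : aeval (starRingEnd ℂ (τ z)) P = 0 := by
      have := congrArg (starRingEnd ℂ) e1
      rw [map_zero] at this
      rw [← this]
      simp [aeval_def, eval₂_eq_sum_range]
    rw [← e4] at e5
    apply τ.injective
    rw [map_zero, ← e5]
    simp [aeval_def, eval₂_eq_sum_range]
  have hint : ∀ z : K, aeval z P = 0 → IsIntegral ℤ z := fun z hz => ⟨P, hP, by rwa [← aeval_def]⟩
  have i1 : IsIntegral ℤ (α * c) := hint _ h3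
  have i2 : IsIntegral ℤ (β * c) := by
    have := hint _ (hdual _ h4)
    have e : (p : K) / (α * c⁻¹) = β * c := by
      rw [← h2]
      field_simp
    rwa [e] at this
  have iβ : IsIntegral ℤ β := by
    refine ⟨X ^ 2 - C a * X + C (p : ℤ), ?_, ?_⟩
    · monicity!
    · have e : β ^ 2 - (a : K) * β + p = 0 := by
        rw [← h1, ← h2]; ring
      simp only [eval₂_add, eval₂_sub, eval₂_mul, eval₂_pow, eval₂_X, eval₂_C]
      simpa using e
  obtain ⟨u, w, huw⟩ : ∃ u w : ℤ, u * a + w * p = 1 := by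
    have hco : IsCoprime (p : ℤ) a := (Nat.prime_iff_prime_int.1 hp).coprime_iff_not_dvd.2 hpa
    obtain ⟨w, u, h⟩ := hco
    exact ⟨u, w, by rw [← h]; ring⟩
  have ic : IsIntegral ℤ c := by
    have e : c = (u : K) * (α * c + β * c) + (w : K) * ((α * c) * β) := by
      have e1 : (u : K) * a + (w : K) * p = 1 := by exact_mod_cast huw
      calc c = ((u : K) * a + (w : K) * p) * c := by rw [e1, one_mul]
        _ = _ := by rw [← h1, ← h2]; ring
    rw [e]
    have iz : ∀ m : ℤ, IsIntegral ℤ (m : K) := fun m => by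
      simpa using (isIntegral_algebraMap (R := ℤ) (A := K) (x := m))
    exact ((iz u).mul (i1.add i2)).add ((iz w).mul (i1.mul iβ))
  have hn : ∀ τ : K →+* ℂ, ‖τ c‖ = 1 := by
    intro τ
    have e1 := hW _ (hroot τ _ h3)
    have e2 := norm_root (p := p) a ha (τ α) (τ β) (by rw [← map_add, h1]; simp)
      (by rw [← map_mul, h2]; simp)
    rw [map_mul, norm_mul, mul_pow, e2] at e1
    have hp' : (p : ℝ) ≠ 0 := by exact_mod_cast hp.ne_zero
    have e3 : ‖τ c‖ ^ 2 = 1 := by
      have : (p : ℝ) * ‖τ c‖ ^ 2 = p * 1 := by rw [e1, mul_one]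
      exact mul_left_cancel₀ hp' this
    have := norm_nonneg (τ c)
    nlinarith
  obtain ⟨n, hn0, h⟩ := NumberField.Embeddings.pow_eq_one_of_norm_eq_one K ℂ ic hn
  exact ⟨n, hn0, h⟩

/-- **NT2.** -/
theorem unity_of_weil {k : Type*} [Field k] [CharZero k] (p : ℕ) (hp : p.Prime) (a : ℤ) (ha : a ^ 2 < 4 * p)
    (hpa : ¬ (p : ℤ) ∣ a) (α β c : k) (h1 : α + β = a) (h2 : α * β = p) (P : Polynomial ℤ) (hP : P.Monic)
    (hW : ∀ z : ℂ, Polynomial.aeval z P = 0 → ‖z‖ ^ 2 = p) (hc : c ≠ 0) (h3 : Polynomial.aeval (α * c) P = 0)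
    (h4 : Polynomial.aeval (α * c⁻¹) P = 0) : ∃ d : ℕ, 0 < d ∧ c ^ d = 1 := by
  have hp0 : (p : k) ≠ 0 := by exact_mod_cast hp.ne_zero
  have hα : α ≠ 0 := by
    rintro rfl
    apply hp0
    rw [← h2, zero_mul]
  have iα : IsIntegral ℤ α := by
    refine ⟨X ^ 2 - C a * X + C (p : ℤ), ?_, ?_⟩
    · monicity!
    · have e : α ^ 2 - (a : k) * α + p = 0 := by
        rw [← h1, ← h2]; ring
      simp only [eval₂_add, eval₂_sub, eval₂_mul, eval₂_pow, eval₂_X, eval₂_C]
      simpa using e
  have iαc : IsIntegral ℤ (α * c) := ⟨P, hP, by rwa [← aeval_def]⟩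
  have jα : IsIntegral ℚ α := iα.tower_top
  have jc : IsIntegral ℚ c := by
    have j1 : IsIntegral ℚ (α * c) := iαc.tower_top
    have e : c = (α * c) * α⁻¹ := by field_simp
    rw [e]
    exact j1.mul jα.inv
  let K : IntermediateField ℚ k := IntermediateField.adjoin ℚ {α, c}
  have : FiniteDimensional ℚ K := by
    apply IntermediateField.finiteDimensional_adjoin
    rintro x (rfl | rfl)
    · exact jα
    · exact jc
  have : NumberField K := { to_charZero := inferInstance, to_finiteDimensional := inferInstance }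
  have mα : α ∈ K := IntermediateField.subset_adjoin ℚ _ (by simp)
  have mc : c ∈ K := IntermediateField.subset_adjoin ℚ _ (by simp)
  have mβ : β ∈ K := by
    have : β = (a : k) - α := by rw [← h1]; ring
    rw [this]
    exact K.sub_mem (intCast_mem K a) mα
  have haev : ∀ x : K, aeval ((x : K) : k) P = ((aeval x P : K) : k) := by
    intro x
    have : (algebraMap K k) (aeval x P) = aeval (algebraMap K k x) P := by
      simp [aeval_def, eval₂_eq_sum_range]
    exact this.symm
  obtain ⟨d, hd, h⟩ := main_nf (K := K) p hp a ha hpa ⟨α, mα⟩ ⟨β, mβ⟩ ⟨c, mc⟩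
    (by apply Subtype.ext; simpa using h1) (by apply Subtype.ext; simpa using h2) P hP hW
    (by intro h; exact hc (congrArg Subtype.val h))
    (by
      apply Subtype.ext
      rw [← haev]
      simpa using h3)
    (by
      apply Subtype.ext
      rw [← haev]
      simpa using h4)
  refine ⟨d, hd, ?_⟩
  have := congrArg (Subtype.val) h
  simpa using this

end Pool.Agent.H40ES
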