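import Mathlib
import Pool.Agent.H40ES.Defs

/-!
# Project ES (helper40, MP_e1ffa3_nt): a factor of dimension two, stubs

Let `r` be the two-dimensional representation of a rational Hilbert newform, `V` that of an abelian variety.  If one
generic Frobenius element has a common eigenvalue on `r` and on `V`, then `r` is a direct factor of `V` on an open
subgroup.  Each stub X: prove the theorem in Pool/Agent/H40ES/X.lean (namespace Pool.Agent.H40ES, the same name and
statement), importing Pool.Agent.H40ES.Defs (which imports the finished library Pool.Agent.H40TG.All: `torus'`, `triple`,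
`sl2`, `exists_decomp`, `m1_decomp`, `m1_nilp`, `exists_phi`).
-/

set_option autoImplicit false

namespace Pool.Agent.H40ES

open Matrix Pool.Agent.H40ZL Pool.Agent.H40TG

/-- **NT1.** Write `a = p b`; then `p b ^ 2 < 4`, and `u = α / β` satisfies `u + 1 / u = (α² + β²) / (αβ) = p b² - 2`, which
is `-2, -1, 0` or `1`, so `u ^ 12 = 1`. -/
theorem ratio_unity {k : Type*} [Field k] [CharZero k] (p : ℕ) (hp : p.Prime) (a : ℤ) (ha : a ^ 2 < 4 * p)
    (hpa : (p : ℤ) ∣ a) (α β : k) (h1 : α + β = a) (h2 : α * β = p) : ∃ d : ℕ, 0 < d ∧ (α / β) ^ d = 1 := by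
  sorry

/-- **NT2.** `α`, `β` are integral (roots of `X² - aX + p`).  For a root `z` of `P` in `k`, `p / z` is a root of `P` too: take
an embedding `τ` of the number field `ℚ(z)` in `ℂ`; then `τ z` is a root of `P`, so `|τ z|² = p`, `τ (p / z)` is the complex
conjugate of `τ z`, a root of `P`, and `τ` is injective.  So `α c`, `α c⁻¹`, `β c⁻¹ = p / (α c)` and `β c = p / (α c⁻¹)` are
roots of `P`, hence integral.  Let `u a + w p = 1` with integers `u`, `w` (`p` does not divide `a`).  Then
`c = u (α c + β c) + w (α c) β` is integral.  For each embedding `τ` in `ℂ` of the number field `ℚ(α, c)` one has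
`|τ (α c)|² = p` and `|τ α|² = p` (`τ α` is a root of `X² - aX + p` with negative discriminant, so its conjugate is the other
root), so `|τ c| = 1`.  Now apply `NumberField.Embeddings.pow_eq_one_of_norm_eq_one`. -/
theorem unity_of_weil {k : Type*} [Field k] [CharZero k] (p : ℕ) (hp : p.Prime) (a : ℤ) (ha : a ^ 2 < 4 * p)
    (hpa : ¬ (p : ℤ) ∣ a) (α β c : k) (h1 : α + β = a) (h2 : α * β = p) (P : Polynomial ℤ) (hP : P.Monic)
    (hW : ∀ z : ℂ, Polynomial.aeval z P = 0 → ‖z‖ ^ 2 = p) (hc : c ≠ 0) (h3 : Polynomial.aeval (α * c) P = 0)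
    (h4 : Polynomial.aeval (α * c⁻¹) P = 0) : ∃ d : ℕ, 0 < d ∧ c ^ d = 1 := by
  sorry

/-- **NT3.** Suppose `t = α² / β` is integral.  Let `u a + w p = 1`.  Then `1 = u α + β (u + w α)`, and the square of this is
`1 = u² α² + β s = β (u² t + s)` with `s` integral.  So `y = 1 / β` is integral, and for each embedding `τ` of `ℚ(β)` in `ℂ`
one has `|τ y|² = 1 / p < 1`.  By `NumberField.Embeddings.pow_eq_one_of_norm_le_one` (or the norm of `y`, a nonzero integer
of absolute value `< 1`) this is impossible.  (Only the integrality of the roots of `P` is used, `hW` is not needed.) -/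
theorem not_root {k : Type*} [Field k] [CharZero k] (p : ℕ) (hp : p.Prime) (a : ℤ) (ha : a ^ 2 < 4 * p)
    (hpa : ¬ (p : ℤ) ∣ a) (α β : k) (h1 : α + β = a) (h2 : α * β = p) (P : Polynomial ℤ) (hP : P.Monic) :
    Polynomial.aeval (α ^ 2 / β) P ≠ 0 := by
  sorry

variable {k : Type*} [Field k] [IsAlgClosed k] [CharZero k] {n : Type*} [Fintype n] [DecidableEq n]
  {A : Set (Matrix n n k)} {L : Submodule k (Matrix n n k)} {g e : Matrix n n k} {α β : k} {a b : n → k}

/-- **E1.** By `torus'` `T` has eigenvectors `v`, `w` and `v + w` (all eigenvectors of `g` for `μ`, or zero); compare. -/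
theorem scal (h : Cfg A L g e α β a b) (T : Matrix n n k) (hT : T ∈ L) (hc : g * T = T * g) (μ t : k) (v w : n → k)
    (hv : g *ᵥ v = μ • v) (hw : g *ᵥ w = μ • w) (hw0 : w ≠ 0) (ht : T *ᵥ w = t • w) : T *ᵥ v = t • v := by
  sorry

/-- **E2.** (Uses `scal` = E1 as hypothesis `h1`.)  `K = {X ∈ L : X * e = 0}` is stable under `X ↦ g X g⁻¹`
(`g` commutes with `e`), so by `m1_decomp` it is enough to prove
`X v = 0` for `X ∈ K` with `g X = c X g`; `X ≠ 0`, `c ≠ 0` without loss of generality (`g` is invertible by `Setup.inv`).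
If `c` is a root of unity, then `c = 1` by `h.root`; `X a = X (e a) = 0`, so `X v = 0` by `h1` with `w = a`, `t = 0`.
Otherwise `X` is nilpotent (`m1_nilp`); take `H`, `Y` from `triple`.  `X e = 0`, and `e` commutes with `H`, `Y` (they are in the
span of `A`), so `H e = (XY - YX) e = X e Y - Y X e = 0`, and `H v = 0` by `h1` with `w = a`.  Suppose `X v ≠ 0`.  If `Y v = 0`
then `X v = 0` by `sl2` applied to `(Y, X, -H)`; so `Y v ≠ 0`.  `X v` and `Y v` are killed by `e` and they are eigenvectors of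
`g` for `α c`, `α c⁻¹`.  By `h.num1` `c` is a root of unity, contradiction.  The same for `β` with `b` and `h.num2`. -/
theorem kill (h1 : ∀ T ∈ L, g * T = T * g → ∀ (μ t : k) (v w : n → k), g *ᵥ v = μ • v → g *ᵥ w = μ • w → w ≠ 0 →
      T *ᵥ w = t • w → T *ᵥ v = t • v)
    (h : Cfg A L g e α β a b) (X : Matrix n n k) (hX : X ∈ L) (hXe : X * e = 0) (v : n → k)
    (hev : e *ᵥ v = 0) (hv : g *ᵥ v = α • v ∨ g *ᵥ v = β • v) : X *ᵥ v = 0 := by
  sorry

/-- **E3.** By `m1_decomp` (with `K = {X ∈ L : (g X - X g) e = 0}`, a submodule) there are `c` and `X ∈ L` with `g X = c X g` and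
`(g X - X g) e ≠ 0`; so `c ≠ 1`, hence `c` is not a root of unity (`h.root`), `X` is nilpotent (`m1_nilp`), and `X a` or `X b`
is not zero (`h.span`; `X` commutes with `e`).  `X a` is in the image of `e` and an eigenvector of `g` for `c α`, so it is a
multiple of `a` or `b` (if not zero): `X a` is zero or (`c = β / α` and `X a = x b`), `X b` is zero or (`c = α / β` and
`X b = x a`).  Take the triple `X`, `H`, `Y` of `triple` (`X Y - Y X = H`).  In the case `c = α / β`, `X b = x a`, `x ≠ 0`,
`X a = 0` (since `α² / β ≠ α, β`): put `E = X`, `F = Y`.  `H a = μ a`, `H b = ν b` (`scal` or the span, as `H` commutes with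
`g`), `[H, X] = 2 X` gives `μ - ν = 2` and the trace of `H` on the image of `e` is zero: `X Y a = H a`, `Y a = y b`, so
`μ = x y`; `H b = X Y b - Y X b = -x y b` as `Y b = 0` (eigenvalue `β²/α ≠ α, β`).  So `μ = 1`, `ν = -1`.  In the other case put
`E = Y`, `F = X`, and replace `H` by `-H`.  -/
theorem exists_trip (h : Cfg A L g e α β a b) (X₀ : Matrix n n k) (hX₀ : X₀ ∈ L) (hne : (g * X₀ - X₀ * g) * e ≠ 0) :
    ∃ E F H : Matrix n n k, Trip L g α β a b E F H := by
  sorry

/-- **E4.** (Uses E1 as `h1`, E2 as `h2`.)  `H v = v` by `h1` (`w = a`); `E v = 0` by `h.int1` (`e (E v) = 0` as `E` commutes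
with `e`), `F (F v) = 0` by `h.int2`, `E (F v) = H v + F (E v) = v`.  The same for `a`: `E (F a) = a`, and `F a` is a nonzero
multiple of `b`.  Let `B` be the matrix with `B a = v`, `B (F a) = F v`, `B w = 0` if `e w = 0` (`a`, `F a` is a basis of the
image of `e`).  Then `B ≠ 0`, `B e = B`, `e B = 0`.  `X B = B X` for `X` in `L`: by `m1_decomp` we may assume `g X = c X g`.
If `c = 1`: `X a = s a`, `X v = s v`, `X (F a) = t F a`, `X (F v) = t F v` (`torus'` for the existence of `s`, `t`, then `h1`).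
If `c = α / β`: `X a = 0` (no eigenvalue `α²/β` on the image of `e`), `X v = 0` (`h.int1`), `X (F a) = s a` for some `s`;
then `X - s E` kills `a` and `F a`, so `(X - s E) e = 0` and `(X - s E) (F v) = 0` by `h2`: `X (F v) = s E F v = s v`.  The
same for `c = β / α`: `X a = s F a`, `X F a = 0`, `X (F v) = 0` by `h.int2`, `(X - s F) e = 0`, so `X v = s F v`.  For the other
`c` one has `X a = 0`, `X (F a) = 0`, so `X e = 0`, and `X v = 0`, `X (F v) = 0` by `h2`. -/
theorem graph (h1 : ∀ T ∈ L, g * T = T * g → ∀ (μ t : k) (v w : n → k), g *ᵥ v = μ • v → g *ᵥ w = μ • w → w ≠ 0 →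
      T *ᵥ w = t • w → T *ᵥ v = t • v)
    (h2 : ∀ X ∈ L, X * e = 0 → ∀ v : n → k, e *ᵥ v = 0 → (g *ᵥ v = α • v ∨ g *ᵥ v = β • v) → X *ᵥ v = 0)
    (h : Cfg A L g e α β a b) (E F H : Matrix n n k) (ht : Trip L g α β a b E F H) (v : n → k) (hv0 : v ≠ 0)
    (hev : e *ᵥ v = 0) (hv : g *ᵥ v = α • v) :
    ∃ B : Matrix n n k, B ≠ 0 ∧ B * e = B ∧ e * B = 0 ∧ ∀ X ∈ L, X * B = B * X := by
  sorry

omit [IsAlgClosed k] in
/-- **E5.** Let `W` be the space of the matrices which commute with all elements of `L`.  It is stable under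
`B ↦ g B q` (`L` is stable under `X ↦ q X g`, by `hL'`).  By `exists_decomp` (or `m1_decomp` with `K` the matrices commuting
with `g`) it is enough to show `c = 1` if `B ∈ W`, `B ≠ 0`, `g B = c B g`.  As `g` is semisimple there are an eigenvector `w`,
`g w = y w`, with `B w ≠ 0` (`eigen_top` in Pool.Agent.H40TG.Fin2); `g (B w) = c y B w`.  If `c` is a root of unity, then
`c = 1` by `hroot`.  Otherwise take `φ` with `φ c ≠ 0` (`exists_phi`), and `X ∈ L` of `hphi`:
`X (B w) = φ (c y) B w = (φ c + φ y) B w` and `B (X w) = φ y B w`, so `φ c = 0`, contradiction. -/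
theorem comm_g [IsAlgClosed k] (g q : Matrix n n k) (hgq : g * q = 1) (hgs : Module.End.IsSemisimple (Matrix.toLin' g))
    (L : Submodule k (Matrix n n k)) (hL' : ∀ X ∈ L, q * X * g ∈ L)
    (hroot : ∀ (c : k) (d : ℕ) (M : Matrix n n k), 0 < d → c ^ d = 1 → M ≠ 0 → g * M = c • (M * g) → c = 1)
    (hphi : ∀ φ : Additive kˣ →+ k, ∃ X ∈ L, ∀ (μ : kˣ) (v : n → k), g *ᵥ v = (μ : k) • v →
      X *ᵥ v = φ (Additive.ofMul μ) • v)
    (B : Matrix n n k) (hB : ∀ X ∈ L, X * B = B * X) : g * B = B * g := by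
  sorry

end Pool.Agent.H40ES
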